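import Mathlib

open Filter Topology

namespace Pool.Agent.MP_4c4330_an

section
variable {X : Type*} [NormedAddCommGroup X] [InnerProductSpace ℝ X]

/-- One implicit Euler step of size `h` for `x' + R x ∋ 0`. -/
def EulerStep (R : X → X → Prop) (h : ℝ) (x x' : X) : Prop := R x' (h⁻¹ • (x - x'))

/-- Monotone relations. -/
def IsMono (R : X → X → Prop) : Prop :=
  ∀ x ξ y η, R x ξ → R y η → 0 ≤ inner ℝ (ξ - η) (x - y)

variable {R : X → X → Prop} {J : ℝ → X → X}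

lemma step_point (hR : IsMono R) {h : ℝ} (hh : 0 < h) {x x' y ξ : X} (hx : EulerStep R h x x')
    (hξ : R y ξ) : ‖x' - y‖ ≤ ‖x - y‖ + h * ‖ξ‖ := by
  have h1 := hR _ _ _ _ hx hξ
  have h2 : 0 ≤ inner ℝ (h • (h⁻¹ • (x - x') - ξ)) (x' - y) := by
    rw [real_inner_smul_left]; exact mul_nonneg hh.le h1
  have h3 : h • (h⁻¹ • (x - x') - ξ) = (x - y) - (x' - y) - h • ξ := by
    rw [smul_sub, smul_smul, mul_inv_cancel₀ hh.ne', one_smul]; abel
  rw [h3, inner_sub_left, inner_sub_left, real_inner_self_eq_norm_sq, real_inner_smul_left] at h2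
  have h4 := real_inner_le_norm (x - y) (x' - y)
  have h5 := (abs_le.1 (abs_real_inner_le_norm ξ (x' - y))).1
  have h6 : ‖x' - y‖ ^ 2 ≤ (‖x - y‖ + h * ‖ξ‖) * ‖x' - y‖ := by nlinarith
  by_contra hcon
  push Not at hcon
  have h7 : 0 < ‖x' - y‖ := lt_of_le_of_lt (by positivity) hcon
  nlinarith

lemma step_le (hR : IsMono R) {h : ℝ} (hh : 0 < h) {x x' y y' : X} (hx : EulerStep R h x x')
    (hy : EulerStep R h y y') : ‖x' - y'‖ ≤ ‖x - y‖ := by
  have h1 := hR _ _ _ _ hx hy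
  have h2 : 0 ≤ inner ℝ (h • (h⁻¹ • (x - x') - h⁻¹ • (y - y'))) (x' - y') := by
    rw [real_inner_smul_left]; exact mul_nonneg hh.le h1
  have h3 : h • (h⁻¹ • (x - x') - h⁻¹ • (y - y')) = (x - y) - (x' - y') := by
    rw [smul_sub, smul_smul, smul_smul, mul_inv_cancel₀ hh.ne', one_smul, one_smul]; abel
  rw [h3, inner_sub_left, real_inner_self_eq_norm_sq] at h2
  have h4 := real_inner_le_norm (x - y) (x' - y')
  by_contra hcon
  push Not at hcon
  have h7 : 0 < ‖x' - y'‖ := lt_of_le_of_lt (norm_nonneg _) hcon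
  nlinarith

lemma step_unique (hR : IsMono R) {h : ℝ} (hh : 0 < h) {x x' x'' : X} (hx : EulerStep R h x x')
    (hy : EulerStep R h x x'') : x' = x'' := by
  have := step_le hR hh hx hy
  rw [sub_self, norm_zero] at this
  exact sub_eq_zero.1 (norm_le_zero_iff.1 this)

lemma step_kob (hR : IsMono R) {l m : ℝ} (hl : 0 < l) (hm : 0 < m) {x x' y y' : X}
    (hx : EulerStep R l x x') (hy : EulerStep R m y y') :
    (l + m) * ‖x' - y'‖ ≤ l * ‖x' - y‖ + m * ‖x - y'‖ := by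
  have h1 := hR _ _ _ _ hx hy
  have h2 : 0 ≤ inner ℝ ((l * m) • (l⁻¹ • (x - x') - m⁻¹ • (y - y'))) (x' - y') := by
    rw [real_inner_smul_left]; exact mul_nonneg (by positivity) h1
  have h3 : (l * m) • (l⁻¹ • (x - x') - m⁻¹ • (y - y'))
      = l • (x' - y) + m • (x - y') - (l + m) • (x' - y') := by
    rw [smul_sub, smul_smul, smul_smul]
    have e1 : l * m * l⁻¹ = m := by field_simp
    have e2 : l * m * m⁻¹ = l := by field_simp
    rw [e1, e2]; module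
  rw [h3, inner_sub_left, inner_add_left, real_inner_smul_left, real_inner_smul_left,
    real_inner_smul_left, real_inner_self_eq_norm_sq] at h2
  have h4 := real_inner_le_norm (x' - y) (x' - y')
  have h5 := real_inner_le_norm (x - y') (x' - y')
  by_contra hcon
  push Not at hcon
  have h7 : 0 < ‖x' - y'‖ := by
    by_contra h8
    have h9 : ‖x' - y'‖ = 0 := le_antisymm (not_lt.1 h8) (norm_nonneg _)
    rw [h9, mul_zero] at hcon
    have : 0 ≤ l * ‖x' - y‖ + m * ‖x - y'‖ := by positivity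
    linarith
  have h10 : (l * ‖x' - y‖ + m * ‖x - y'‖) * ‖x' - y'‖ < (l + m) * ‖x' - y'‖ * ‖x' - y'‖ :=
    mul_lt_mul_of_pos_right hcon h7
  nlinarith [mul_le_mul_of_nonneg_left h4 hl.le, mul_le_mul_of_nonneg_left h5 hm.le]

lemma iter_point (hR : IsMono R) (hJ : ∀ h > 0, ∀ x, EulerStep R h x (J h x)) {h : ℝ}
    (hh : 0 < h) {x ξ : X} (hξ : R x ξ) (n : ℕ) : ‖(J h)^[n] x - x‖ ≤ n * (h * ‖ξ‖) := by
  induction n with
  | zero => simp
  | succ n ih =>
    rw [Function.iterate_succ_apply']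
    have := step_point hR hh (hJ h hh ((J h)^[n] x)) hξ
    push_cast
    linarith

lemma iter_le (hR : IsMono R) (hJ : ∀ h > 0, ∀ x, EulerStep R h x (J h x)) {h : ℝ}
    (hh : 0 < h) (x y : X) (n : ℕ) : ‖(J h)^[n] x - (J h)^[n] y‖ ≤ ‖x - y‖ := by
  induction n with
  | zero => simp
  | succ n ih =>
    rw [Function.iterate_succ_apply', Function.iterate_succ_apply']
    exact (step_le hR hh (hJ h hh _) (hJ h hh _)).trans ih

/-- Kobayashi's estimate. -/
lemma kobayashi (hR : IsMono R) (hJ : ∀ h > 0, ∀ x, EulerStep R h x (J h x)) {l m : ℝ}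
    (hl : 0 < l) (hm : 0 < m) {x ξ : X} (hξ : R x ξ) (i j : ℕ) :
    ‖(J l)^[i] x - (J m)^[j] x‖ ≤ ‖ξ‖ * √((i * l - j * m) ^ 2 + i * l ^ 2 + j * m ^ 2) := by
  induction i generalizing j with
  | zero =>
    rw [Function.iterate_zero, id, norm_sub_rev]
    refine (iter_point hR hJ hm hξ j).trans ?_
    have h1 : (j : ℝ) * m ≤ √((((0:ℕ):ℝ) * l - j * m) ^ 2 + ((0:ℕ):ℝ) * l ^ 2 + j * m ^ 2) := by
      apply Real.le_sqrt_of_sq_le
      have : 0 ≤ (j : ℝ) * m ^ 2 := by positivity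
      push_cast
      nlinarith
    calc (j : ℝ) * (m * ‖ξ‖) = ‖ξ‖ * (j * m) := by ring
      _ ≤ _ := mul_le_mul_of_nonneg_left h1 (norm_nonneg _)
  | succ i ihi =>
    induction j with
    | zero =>
      rw [Function.iterate_zero, id]
      refine (iter_point hR hJ hl hξ (i + 1)).trans ?_
      have h1 : ((i + 1 : ℕ) : ℝ) * l ≤ √((((i + 1 : ℕ) : ℝ) * l - ((0:ℕ):ℝ) * m) ^ 2
          + ((i + 1 : ℕ) : ℝ) * l ^ 2 + ((0:ℕ):ℝ) * m ^ 2) := by
        apply Real.le_sqrt_of_sq_le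
        have : 0 ≤ ((i + 1 : ℕ) : ℝ) * l ^ 2 := by positivity
        push_cast at this ⊢
        nlinarith
      calc ((i + 1 : ℕ) : ℝ) * (l * ‖ξ‖) = ‖ξ‖ * (((i + 1 : ℕ) : ℝ) * l) := by ring
        _ ≤ _ := mul_le_mul_of_nonneg_left h1 (norm_nonneg _)
    | succ j ihj =>
      have h1 := step_kob hR hl hm (hJ l hl ((J l)^[i] x)) (hJ m hm ((J m)^[j] x))
      have h2 := ihi (j + 1)
      rw [Function.iterate_succ_apply'] at ihj h2 ⊢
      rw [Function.iterate_succ_apply']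
      set a := ‖J l ((J l)^[i] x) - J m ((J m)^[j] x)‖
      set s1 := √((((i + 1 : ℕ) : ℝ) * l - j * m) ^ 2 + ((i + 1 : ℕ) : ℝ) * l ^ 2
        + j * m ^ 2) with hs1
      set s2 := √((i * l - ((j + 1 : ℕ) : ℝ) * m) ^ 2 + i * l ^ 2
        + ((j + 1 : ℕ) : ℝ) * m ^ 2) with hs2
      set s3 := √((((i + 1 : ℕ) : ℝ) * l - ((j + 1 : ℕ) : ℝ) * m) ^ 2
        + ((i + 1 : ℕ) : ℝ) * l ^ 2 + ((j + 1 : ℕ) : ℝ) * m ^ 2) with hs3
      have q1 : s1 ^ 2 = (((i + 1 : ℕ) : ℝ) * l - j * m) ^ 2 + ((i + 1 : ℕ) : ℝ) * l ^ 2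
        + j * m ^ 2 := Real.sq_sqrt (by positivity)
      have q2 : s2 ^ 2 = (i * l - ((j + 1 : ℕ) : ℝ) * m) ^ 2 + i * l ^ 2
        + ((j + 1 : ℕ) : ℝ) * m ^ 2 := Real.sq_sqrt (by positivity)
      have q3 : s3 ^ 2 = (((i + 1 : ℕ) : ℝ) * l - ((j + 1 : ℕ) : ℝ) * m) ^ 2
        + ((i + 1 : ℕ) : ℝ) * l ^ 2 + ((j + 1 : ℕ) : ℝ) * m ^ 2 := Real.sq_sqrt (by positivity)
      have n1 : 0 ≤ s1 := Real.sqrt_nonneg _
      have n2 : 0 ≤ s2 := Real.sqrt_nonneg _
      have n3 : 0 ≤ s3 := Real.sqrt_nonneg _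
      -- convexity
      have h4 : l * s1 + m * s2 ≤ (l + m) * s3 := by
        have h5 : (l * s1 + m * s2) ^ 2 ≤ ((l + m) * s3) ^ 2 := by
          have h6 : ((l + m) * s3) ^ 2 - (l * s1 + m * s2) ^ 2 = l * m * (s1 - s2) ^ 2 := by
            have : (l + m) * s3 ^ 2 = l * s1 ^ 2 + m * s2 ^ 2 := by
              rw [q1, q2, q3]; push_cast; ring
            calc ((l + m) * s3) ^ 2 - (l * s1 + m * s2) ^ 2
                = (l + m) * ((l + m) * s3 ^ 2) - (l * s1 + m * s2) ^ 2 := by ring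
              _ = (l + m) * (l * s1 ^ 2 + m * s2 ^ 2) - (l * s1 + m * s2) ^ 2 := by rw [this]
              _ = _ := by ring
          have : 0 ≤ l * m * (s1 - s2) ^ 2 := by positivity
          linarith
        exact le_of_sq_le_sq h5 (by positivity)
      have h7 : (l + m) * a ≤ (l + m) * (‖ξ‖ * s3) := by
        have e1 := mul_le_mul_of_nonneg_left ihj hl.le
        have e2 := mul_le_mul_of_nonneg_left h2 hm.le
        have e3 := mul_le_mul_of_nonneg_left h4 (norm_nonneg ξ)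
        calc (l + m) * a ≤ _ := h1
          _ ≤ l * (‖ξ‖ * s1) + m * (‖ξ‖ * s2) := add_le_add e1 e2
          _ = ‖ξ‖ * (l * s1 + m * s2) := by ring
          _ ≤ ‖ξ‖ * ((l + m) * s3) := e3
          _ = _ := by ring
      exact le_of_mul_le_mul_left h7 (by positivity)

/-- Convergence of the Euler scheme for data in the closure of the domain. -/
theorem euler_limit [CompleteSpace X] (hR : IsMono R)
    (hJ : ∀ h > 0, ∀ x, EulerStep R h x (J h x)) {x : X}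
    (hx : x ∈ closure {y | ∃ ξ, R y ξ}) {t : ℝ} (ht : 0 < t) :
    ∃ z, Tendsto (fun n : ℕ => (J (t / n))^[n] x) atTop (𝓝 z) := by
  apply cauchySeq_tendsto_of_complete
  rw [Metric.cauchySeq_iff']
  intro ε hε
  obtain ⟨y, ⟨ξ, hξ⟩, hy⟩ := Metric.mem_closure_iff.1 hx (ε / 4) (by positivity)
  rw [dist_eq_norm] at hy
  obtain ⟨N, hN⟩ := exists_nat_gt (2 * (t * (‖ξ‖ + 1) * 4 / ε) ^ 2 + 1)
  have hN0 : (0:ℝ) < N := lt_trans (by positivity) hN
  refine ⟨N, fun n hn => ?_⟩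
  have hn0 : (0:ℝ) < n := lt_of_lt_of_le hN0 (by exact_mod_cast hn)
  have p1 : 0 < t / n := by positivity
  have p2 : 0 < t / N := by positivity
  have h1 := iter_le hR hJ p1 x y n
  have h2 := iter_le hR hJ p2 x y N
  have h3 := kobayashi hR hJ p1 p2 hξ n N
  have h4 : √((n * (t / n) - N * (t / N)) ^ 2 + n * (t / n) ^ 2 + N * (t / N) ^ 2)
      ≤ ε / (4 * (‖ξ‖ + 1)) := by
    apply Real.sqrt_le_iff.2
    refine ⟨by positivity, ?_⟩
    have e1 : (n:ℝ) * (t / n) - N * (t / N) = 0 := by field_simp; ring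
    have e2 : (n:ℝ) * (t / n) ^ 2 = t ^ 2 / n := by field_simp
    have e3 : (N:ℝ) * (t / N) ^ 2 = t ^ 2 / N := by field_simp
    rw [e1, e2, e3]
    have e4 : t ^ 2 / n ≤ t ^ 2 / N := by
      apply div_le_div_of_nonneg_left (by positivity) hN0 (by exact_mod_cast hn)
    have e5 : 2 * (t ^ 2 / N) ≤ (ε / (4 * (‖ξ‖ + 1))) ^ 2 := by
      have e6 : 2 * (t * (‖ξ‖ + 1) * 4 / ε) ^ 2 ≤ N := by linarith
      rw [div_pow, mul_div_assoc', div_le_div_iff₀ hN0 (by positivity)]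
      have e7 : 2 * (t * (‖ξ‖ + 1) * 4 / ε) ^ 2 = 2 * t ^ 2 * (4 * (‖ξ‖ + 1)) ^ 2 / ε ^ 2 := by
        field_simp
      rw [e7, div_le_iff₀ (by positivity)] at e6
      linarith
    calc (0:ℝ) ^ 2 + t ^ 2 / n + t ^ 2 / N ≤ 2 * (t ^ 2 / N) := by linarith
      _ ≤ _ := e5
  have h5 : ‖(J (t / n))^[n] y - (J (t / N))^[N] y‖ ≤ ε / 4 := by
    refine h3.trans ?_
    calc ‖ξ‖ * √((n * (t / n) - N * (t / N)) ^ 2 + n * (t / n) ^ 2 + N * (t / N) ^ 2)
        ≤ (‖ξ‖ + 1) * (ε / (4 * (‖ξ‖ + 1))) :=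
          mul_le_mul (by linarith) h4 (Real.sqrt_nonneg _) (by positivity)
      _ = ε / 4 := by field_simp
  rw [dist_eq_norm]
  have e : (J (t / n))^[n] x - (J (t / N))^[N] x
      = ((J (t / n))^[n] x - (J (t / n))^[n] y) + ((J (t / n))^[n] y - (J (t / N))^[N] y)
        - ((J (t / N))^[N] x - (J (t / N))^[N] y) := by abel
  rw [e]
  calc _ ≤ ‖((J (t / n))^[n] x - (J (t / n))^[n] y) + ((J (t / n))^[n] y - (J (t / N))^[N] y)‖
        + ‖(J (t / N))^[N] x - (J (t / N))^[N] y‖ := norm_sub_le _ _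
    _ ≤ ‖(J (t / n))^[n] x - (J (t / n))^[n] y‖ + ‖(J (t / n))^[n] y - (J (t / N))^[N] y‖
        + ‖(J (t / N))^[N] x - (J (t / N))^[N] y‖ := by
        gcongr; exact norm_add_le _ _
    _ < ε := by linarith

end

end Pool.Agent.MP_4c4330_an
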