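import Mathlib

open Set Real

namespace Pool.Agent.MP_4c4330_an

/-- The damping nonlinearity `g(x) = a |x|^α x`. -/
noncomputable def g (a α x : ℝ) : ℝ := a * |x| ^ α * x

variable {a α : ℝ}

lemma g_neg (x : ℝ) : g a α (-x) = - g a α x := by
  simp only [g, abs_neg, mul_neg]

lemma g_zero : g a α 0 = 0 := by simp [g]

lemma continuous_g (hα : 0 < α) : Continuous (g a α) := by
  unfold g
  have : Continuous fun x : ℝ => |x| ^ α := continuous_abs.rpow_const (fun _ => Or.inr hα.le)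
  fun_prop

lemma g_nonneg (ha : 0 < a) {x : ℝ} (hx : 0 ≤ x) : 0 ≤ g a α x := by
  unfold g; positivity

lemma g_eq_of_nonneg (hα : 0 < α) {x : ℝ} (hx : 0 ≤ x) : g a α x = a * x ^ (α + 1) := by
  unfold g
  rw [abs_of_nonneg hx, mul_assoc]
  rcases hx.eq_or_lt with h | h
  · rw [← h, mul_zero, Real.zero_rpow (by linarith)]
  · rw [Real.rpow_add_one h.ne']

/-- Lipschitz bound and monotonicity on the nonnegative half line. -/
lemma g_sub_le_aux (ha : 0 < a) (hα : 0 < α) {x y K : ℝ} (hy : 0 ≤ y) (hxy : y ≤ x) (hx : x ≤ K) :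
    0 ≤ g a α x - g a α y ∧ g a α x - g a α y ≤ a * (α + 1) * K ^ α * (x - y) := by
  have hx0 : 0 ≤ x := hy.trans hxy
  rw [g_eq_of_nonneg hα hx0, g_eq_of_nonneg hα hy]
  constructor
  · have : y ^ (α + 1) ≤ x ^ (α + 1) := Real.rpow_le_rpow hy hxy (by linarith)
    nlinarith
  · rcases hx0.eq_or_lt with h | h
    · have : y = 0 := le_antisymm (by linarith) hy
      rw [← h, this]; simp
    · -- Bernoulli: (y/x)^(α+1) ≥ 1 + (α+1)(y/x - 1)
      have h1 := one_add_mul_self_le_rpow_one_add (s := y / x - 1) (by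
        have : 0 ≤ y / x := by positivity
        linarith) (p := α + 1) (by linarith)
      have h2 : (1 + (y / x - 1)) = y / x := by ring
      rw [h2, Real.div_rpow hy hx0] at h1
      have hxp : 0 < x ^ (α + 1) := Real.rpow_pos_of_pos h _
      rw [le_div_iff₀ hxp] at h1
      have h3 : x ^ (α + 1) = x ^ α * x := Real.rpow_add_one h.ne' α
      have h4 : (1 + (α + 1) * (y / x - 1)) * x ^ (α + 1)
          = x ^ (α + 1) - (α + 1) * x ^ α * (x - y) := by
        rw [h3]; field_simp; ring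
      rw [h4] at h1
      have h5 : x ^ α ≤ K ^ α := Real.rpow_le_rpow hx0 hx hα.le
      have h6 : (α + 1) * x ^ α * (x - y) ≤ (α + 1) * K ^ α * (x - y) := by
        apply mul_le_mul_of_nonneg_right _ (by linarith)
        apply mul_le_mul_of_nonneg_left h5 (by linarith)
      nlinarith

lemma g_sub_le (ha : 0 < a) (hα : 0 < α) {x y K : ℝ} (hxy : y ≤ x) (hx : |x| ≤ K) (hy : |y| ≤ K) :
    0 ≤ g a α x - g a α y ∧ g a α x - g a α y ≤ a * (α + 1) * K ^ α * (x - y) := by
  have hx' := abs_le.1 hx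
  have hy' := abs_le.1 hy
  rcases le_total 0 y with hy0 | hy0
  · exact g_sub_le_aux ha hα hy0 hxy hx'.2
  · rcases le_total 0 x with hx0 | hx0
    · have h1 := g_sub_le_aux ha hα le_rfl hx0 hx'.2
      have h2 := g_sub_le_aux ha hα le_rfl (neg_nonneg.2 hy0) (by linarith : -y ≤ K)
      rw [g_neg] at h2
      rw [g_zero] at h1 h2
      constructor
      · linarith [h1.1, h2.1]
      · have := h1.2; have := h2.2
        nlinarith
    · have h2 := g_sub_le_aux ha hα (neg_nonneg.2 hx0) (neg_le_neg hxy) (by linarith : -y ≤ K)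
      rw [g_neg, g_neg] at h2
      constructor
      · linarith [h2.1]
      · have := h2.2
        nlinarith

lemma g_mono (ha : 0 < a) (hα : 0 < α) : Monotone (g a α) := by
  intro y x hxy
  have := (g_sub_le ha hα hxy (le_max_left |x| |y|) (le_max_right |x| |y|)).1
  linarith

lemma abs_g_sub_le (ha : 0 < a) (hα : 0 < α) {x y K : ℝ} (hx : |x| ≤ K) (hy : |y| ≤ K) :
    |g a α x - g a α y| ≤ a * (α + 1) * K ^ α * |x - y| := by
  rcases le_total y x with h | h
  · have := g_sub_le ha hα h hx hy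
    rw [abs_of_nonneg this.1, abs_of_nonneg (by linarith)]
    exact this.2
  · have := g_sub_le ha hα h hy hx
    rw [abs_sub_comm, abs_sub_comm x y, abs_of_nonneg this.1, abs_of_nonneg (by linarith)]
    exact this.2

lemma mul_g_nonneg (ha : 0 < a) (x : ℝ) : 0 ≤ x * g a α x := by
  unfold g
  have : x * (a * |x| ^ α * x) = a * |x| ^ α * x ^ 2 := by ring
  rw [this]; positivity

lemma g_sq_le (ha : 0 < a) (hα : 0 < α) {x K : ℝ} (hx : |x| ≤ K) :
    (g a α x) ^ 2 ≤ a * K ^ α * (x * g a α x) := by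
  have h1 : (g a α x) ^ 2 = a * |x| ^ α * (x * g a α x) := by unfold g; ring
  rw [h1]
  apply mul_le_mul_of_nonneg_right _ (mul_g_nonneg ha x)
  apply mul_le_mul_of_nonneg_left _ ha.le
  exact Real.rpow_le_rpow (abs_nonneg _) hx hα.le

lemma mul_g_le (ha : 0 < a) (hα : 0 < α) {x K : ℝ} (hx : |x| ≤ K) :
    x * g a α x ≤ a * K ^ α * x ^ 2 := by
  have h1 : x * g a α x = a * |x| ^ α * x ^ 2 := by unfold g; ring
  rw [h1]
  apply mul_le_mul_of_nonneg_right _ (sq_nonneg x)
  apply mul_le_mul_of_nonneg_left _ ha.le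
  exact Real.rpow_le_rpow (abs_nonneg _) hx hα.le

lemma mul_g_eq (hα : 0 < α) (x : ℝ) : x * g a α x = a * |x| ^ (α + 2) := by
  unfold g
  rcases eq_or_ne x 0 with h | h
  · rw [h]; simp [Real.zero_rpow (by linarith : α + 2 ≠ 0)]
  · have h0 : 0 < |x| := abs_pos.2 h
    rw [show α + 2 = α + (2:ℕ) by norm_num, Real.rpow_add_natCast h0.ne', sq_abs]; ring

/-- Convexity of `x ↦ x g(x)`, homogeneous of degree `α + 2`. -/
lemma mul_g_sub_le (ha : 0 < a) (hα : 0 < α) (x y : ℝ) :
    x * g a α x - y * g a α y ≤ (α + 2) * (g a α x * (x - y)) := by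
  rcases eq_or_ne x 0 with h | h
  · rw [h, g_zero]
    have := mul_g_nonneg (α := α) ha y
    simp; linarith
  · have h0 : 0 < |x| := abs_pos.2 h
    have hb := one_add_mul_self_le_rpow_one_add (s := |y| / |x| - 1) (by
        have : 0 ≤ |y| / |x| := by positivity
        linarith) (p := α + 2) (by linarith)
    have h2 : (1 + (|y| / |x| - 1)) = |y| / |x| := by ring
    rw [h2, Real.div_rpow (abs_nonneg _) (abs_nonneg _)] at hb
    have hxp : 0 < |x| ^ (α + 2) := Real.rpow_pos_of_pos h0 _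
    rw [le_div_iff₀ hxp] at hb
    have h3 : |x| ^ (α + 2) = |x| ^ α * |x| ^ 2 := by
      rw [show α + 2 = α + (2:ℕ) by norm_num, Real.rpow_add_natCast h0.ne']
    have h4 : (1 + (α + 2) * (|y| / |x| - 1)) * |x| ^ (α + 2)
        = |x| ^ (α + 2) + (α + 2) * (|x| ^ α * |x| * (|y| - |x|)) := by
      rw [h3]; field_simp
    rw [h4] at hb
    rw [mul_g_eq hα, mul_g_eq hα]
    have h5 : g a α x * (x - y) = a * (|x| ^ α * (x ^ 2 - x * y)) := by unfold g; ring
    rw [h5]
    have h6 : x * y ≤ |x| * |y| := by rw [← abs_mul]; exact le_abs_self _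
    have h7 : 0 ≤ |x| ^ α := by positivity
    have h8 : |x| ^ α * |x| * (|y| - |x|) ≥ |x| ^ α * (x * y - x ^ 2) := by
      have : |x| ^ α * |x| * (|y| - |x|) = |x| ^ α * (|x| * |y| - |x| ^ 2) := by ring
      rw [this, sq_abs]
      apply mul_le_mul_of_nonneg_left _ h7
      linarith
    have h9 : 0 < α + 2 := by linarith
    have h10 : (α + 2) * (|x| ^ α * |x| * (|y| - |x|)) ≥ (α + 2) * (|x| ^ α * (x * y - x ^ 2)) :=
      mul_le_mul_of_nonneg_left h8 h9.le
    have h11 : |y| ^ (α + 2) ≥ |x| ^ (α + 2) + (α + 2) * (|x| ^ α * (x * y - x ^ 2)) := by linarith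
    nlinarith

end Pool.Agent.MP_4c4330_an
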