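import Pool.Agent.MP_4c4330_an.EDefs
import Pool.Agent.MP_4c4330_an.Nonlin

open MeasureTheory Set Filter Topology
open scoped ENNReal ContDiff

set_option linter.unusedSectionVars false

namespace Pool.Agent.MP_4c4330_an

/-- Integrability of the power `|w|^(α+2)`. -/
lemma pow_int_iff {Y : Type*} [MeasurableSpace Y] {μ : Measure Y} {α : ℝ} (hα : 0 < α) {w : Y → ℝ}
    (hw : AEStronglyMeasurable w μ) :
    Integrable (fun y => |w y| ^ (α + 2)) μ ↔ MemLp w (ENNReal.ofReal (α + 2)) μ := by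
  have h := integrable_norm_rpow_iff (p := ENNReal.ofReal (α + 2)) hw
    (by simp; linarith) ENNReal.ofReal_ne_top
  rw [ENNReal.toReal_ofReal (by linarith)] at h
  simpa only [Real.norm_eq_abs] using h

lemma mul_pow_le {α : ℝ} (hα : 0 < α) (x y : ℝ) :
    |x| ^ (α + 1) * |y| ≤ |x| ^ (α + 2) + |y| ^ (α + 2) := by
  have hx := abs_nonneg x
  have hy := abs_nonneg y
  rcases le_total |x| |y| with h | h
  · have h1 : |x| ^ (α + 1) * |y| ≤ |y| ^ (α + 1) * |y| :=
      mul_le_mul_of_nonneg_right (Real.rpow_le_rpow hx h (by linarith)) hy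
    have h2 : |y| ^ (α + 1) * |y| = |y| ^ (α + 2) := by
      rcases hy.eq_or_lt with h0 | h0
      · rw [← h0, Real.zero_rpow (by linarith), Real.zero_rpow (by linarith)]; simp
      · rw [show α + 2 = (α + 1) + 1 by ring, Real.rpow_add_one h0.ne' (α + 1)]
    have h3 : 0 ≤ |x| ^ (α + 2) := by positivity
    linarith
  · have h1 : |x| ^ (α + 1) * |y| ≤ |x| ^ (α + 1) * |x| :=
      mul_le_mul_of_nonneg_left h (by positivity)
    have h2 : |x| ^ (α + 1) * |x| = |x| ^ (α + 2) := by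
      rcases hx.eq_or_lt with h0 | h0
      · rw [← h0, Real.zero_rpow (by linarith), Real.zero_rpow (by linarith)]; simp
      · rw [show α + 2 = (α + 1) + 1 by ring, Real.rpow_add_one h0.ne' (α + 1)]
    have h3 : 0 ≤ |y| ^ (α + 2) := by positivity
    linarith

lemma abs_g {a α : ℝ} (ha : 0 < a) (hα : 0 < α) (x : ℝ) : |g a α x| = a * |x| ^ (α + 1) := by
  unfold g
  rw [abs_mul, abs_mul, abs_of_pos ha, abs_of_nonneg (by positivity : 0 ≤ |x| ^ α), mul_assoc]
  rcases (abs_nonneg x).eq_or_lt with h0 | h0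
  · rw [← h0, Real.zero_rpow (by linarith), Real.zero_rpow (by linarith)]; simp
  · rw [Real.rpow_add_one h0.ne']

lemma abs_gw_le {a α : ℝ} (ha : 0 < a) (hα : 0 < α) (x y : ℝ) :
    |g a α x * y| ≤ a * (|x| ^ (α + 2) + |y| ^ (α + 2)) := by
  rw [abs_mul, abs_g ha hα, mul_assoc]
  exact mul_le_mul_of_nonneg_left (mul_pow_le hα x y) ha.le

lemma gw_int {Y : Type*} [MeasurableSpace Y] {μ : Measure Y} {a α : ℝ} (ha : 0 < a)
    (hα : 0 < α) {v w : Y → ℝ}
    (hv : AEStronglyMeasurable v μ) (hw : AEStronglyMeasurable w μ)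
    (iv : Integrable (fun y => |v y| ^ (α + 2)) μ) (iw : Integrable (fun y => |w y| ^ (α + 2)) μ) :
    Integrable (fun y => g a α (v y) * w y) μ := by
  refine Integrable.mono' ((iv.add iw).const_mul a)
    (((continuous_g hα).comp_aestronglyMeasurable hv).mul hw) ?_
  exact Eventually.of_forall fun y => abs_gw_le ha hα _ _

section
variable {E : Type*} [NormedAddCommGroup E] [InnerProductSpace ℝ E] [FiniteDimensional ℝ E]
  [MeasurableSpace E] [BorelSpace E] {Ω : Set E} {a α : ℝ}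

lemma inner_Lp_real {μ : Measure E} (f h : Lp ℝ 2 μ) : inner ℝ f h = ∫ y, f y * h y ∂μ := by
  rw [L2.inner_def]
  congr 1
  funext y
  simp [mul_comm]

lemma norm_sq_Lp {F : Type*} [NormedAddCommGroup F] [InnerProductSpace ℝ F] {μ : Measure E}
    (f : Lp F 2 μ) : ‖f‖ ^ 2 = ∫ y, ‖f y‖ ^ 2 ∂μ := by
  rw [← real_inner_self_eq_norm_sq, L2.inner_def]
  congr 1
  funext y
  rw [real_inner_self_eq_norm_sq]

lemma nrg_eq (x : EnergySpace Ω) : nrg Ω x = ‖x‖ ^ 2 := by
  unfold nrg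
  rw [integral_add]
  · rw [← norm_sq_Lp, WithLp.prod_norm_sq_eq_of_L2]
    congr 1
    have := norm_sq_Lp (x.snd)
    rw [this]
    simp only [Real.norm_eq_abs, sq_abs]
  · exact (Lp.memLp _).integrable_norm_pow (by norm_num)
  · exact (Lp.memLp x.snd).integrable_sq

/-- Reformulation of the operator with inner products. -/
lemma waveOp_iff {x ξ : EnergySpace Ω} : WaveOp Ω a α x ξ ↔
    InH10 Ω x.snd (-(ξ.fst : Lp E 2 (volume.restrict Ω))) ∧
    Integrable (fun y => |x.snd y| ^ (α + 2)) (volume.restrict Ω) ∧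
    ∀ w r, InH10 Ω w r → Integrable (fun y => |w y| ^ (α + 2)) (volume.restrict Ω) →
      inner ℝ ξ.snd w = inner ℝ (x.fst : Lp E 2 (volume.restrict Ω)) r
        + ∫ y in Ω, g a α (x.snd y) * w y := by
  unfold WaveOp
  simp only [inner_Lp_real, L2.inner_def (𝕜 := ℝ) (E := E), g]

lemma InH10.add {w w' : Lp ℝ 2 (volume.restrict Ω)} {q q' : Lp E 2 (volume.restrict Ω)}
    (h : InH10 Ω w q) (h' : InH10 Ω w' q') : InH10 Ω (w + w') (q + q') :=
  Submodule.add_mem _ h h'

lemma InH10.sub {w w' : Lp ℝ 2 (volume.restrict Ω)} {q q' : Lp E 2 (volume.restrict Ω)}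
    (h : InH10 Ω w q) (h' : InH10 Ω w' q') : InH10 Ω (w - w') (q - q') :=
  Submodule.sub_mem _ h h'

lemma InH10.smul {w : Lp ℝ 2 (volume.restrict Ω)} {q : Lp E 2 (volume.restrict Ω)}
    (h : InH10 Ω w q) (c : ℝ) : InH10 Ω (c • w) (c • q) :=
  Submodule.smul_mem _ c h

lemma inH10_zero : InH10 Ω (0 : Lp ℝ 2 (volume.restrict Ω)) 0 :=
  Submodule.zero_mem _

lemma InH10.grad_mem {w : Lp ℝ 2 (volume.restrict Ω)} {q : Lp E 2 (volume.restrict Ω)}
    (h : InH10 Ω w q) : q ∈ GradSpace Ω := by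
  have h1 : (w, q) ∈ closure (testPairs Ω : Set _) := h
  have h2 : q ∈ closure ((LinearMap.snd ℝ (Lp ℝ 2 (volume.restrict Ω))
      (Lp E 2 (volume.restrict Ω))) '' (testPairs Ω : Set _)) := by
    have := image_closure_subset_closure_image
      (f := (Prod.snd : Lp ℝ 2 (volume.restrict Ω) × Lp E 2 (volume.restrict Ω) → _))
      (s := (testPairs Ω : Set _)) continuous_snd
    exact this ⟨_, h1, rfl⟩
  exact h2

lemma isClosed_InH10 : IsClosed {z : Lp ℝ 2 (volume.restrict Ω) × Lp E 2 (volume.restrict Ω) |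
    InH10 Ω z.1 z.2} :=
  Submodule.isClosed_topologicalClosure (testPairs Ω)

lemma pow_int_sub (hα : 0 < α) {v w : Lp ℝ 2 (volume.restrict Ω)}
    (iv : Integrable (fun y => |v y| ^ (α + 2)) (volume.restrict Ω))
    (iw : Integrable (fun y => |w y| ^ (α + 2)) (volume.restrict Ω)) :
    Integrable (fun y => |(v - w) y| ^ (α + 2)) (volume.restrict Ω) := by
  rw [pow_int_iff hα (Lp.aestronglyMeasurable _)] at *
  exact (memLp_congr_ae (Lp.coeFn_sub v w)).2 (iv.sub iw)

lemma pow_int_add (hα : 0 < α) {v w : Lp ℝ 2 (volume.restrict Ω)}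
    (iv : Integrable (fun y => |v y| ^ (α + 2)) (volume.restrict Ω))
    (iw : Integrable (fun y => |w y| ^ (α + 2)) (volume.restrict Ω)) :
    Integrable (fun y => |(v + w) y| ^ (α + 2)) (volume.restrict Ω) := by
  rw [pow_int_iff hα (Lp.aestronglyMeasurable _)] at *
  exact (memLp_congr_ae (Lp.coeFn_add v w)).2 (iv.add iw)

lemma pow_int_smul (hα : 0 < α) {v : Lp ℝ 2 (volume.restrict Ω)} (c : ℝ)
    (iv : Integrable (fun y => |v y| ^ (α + 2)) (volume.restrict Ω)) :
    Integrable (fun y => |(c • v) y| ^ (α + 2)) (volume.restrict Ω) := by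
  rw [pow_int_iff hα (Lp.aestronglyMeasurable _)] at *
  exact (memLp_congr_ae (Lp.coeFn_smul c v)).2 (iv.const_smul c)

lemma pow_int_zero (hα : 0 < α) :
    Integrable (fun y => |(0 : Lp ℝ 2 (volume.restrict Ω)) y| ^ (α + 2)) (volume.restrict Ω) := by
  rw [pow_int_iff hα (Lp.aestronglyMeasurable _)]
  exact (memLp_congr_ae (Lp.coeFn_zero ℝ 2 (volume.restrict Ω))).2 MemLp.zero

lemma gw_int' (ha : 0 < a) (hα : 0 < α) {v w : Lp ℝ 2 (volume.restrict Ω)}
    (iv : Integrable (fun y => |v y| ^ (α + 2)) (volume.restrict Ω))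
    (iw : Integrable (fun y => |w y| ^ (α + 2)) (volume.restrict Ω)) :
    Integrable (fun y => g a α (v y) * w y) (volume.restrict Ω) :=
  gw_int ha hα (Lp.aestronglyMeasurable _) (Lp.aestronglyMeasurable _) iv iw

theorem mono_waveOp (ha : 0 < a) (hα : 0 < α) : IsMono (WaveOp Ω a α) := by
  intro x ξ y η hx hy
  rw [waveOp_iff] at hx hy
  obtain ⟨x1, x2, x3⟩ := hx
  obtain ⟨y1, y2, y3⟩ := hy
  have hw : InH10 Ω (x.snd - y.snd) (-(ξ.fst : Lp E 2 (volume.restrict Ω)) - -(η.fst : Lp E 2 _)) :=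
    x1.sub y1
  have iw := pow_int_sub hα x2 y2
  have e1 := x3 _ _ hw iw
  have e2 := y3 _ _ hw iw
  have i1 := gw_int' ha hα x2 iw
  have i2 := gw_int' ha hα y2 iw
  have e3 : 0 ≤ (∫ z in Ω, g a α (x.snd z) * (x.snd - y.snd) z)
      - ∫ z in Ω, g a α (y.snd z) * (x.snd - y.snd) z := by
    rw [← integral_sub i1 i2]
    apply integral_nonneg_of_ae
    filter_upwards [Lp.coeFn_sub x.snd y.snd] with z hz
    rw [hz, ← sub_mul]
    simp only [Pi.zero_apply, Pi.sub_apply]
    rcases le_total (x.snd z) (y.snd z) with h | h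
    · have := g_mono ha hα h
      nlinarith
    · have := g_mono ha hα h
      nlinarith
  have e4 : inner ℝ (ξ - η) (x - y)
      = inner ℝ (ξ.snd - η.snd) (x.snd - y.snd)
        + inner ℝ ((ξ.fst : Lp E 2 (volume.restrict Ω)) - η.fst)
          ((x.fst : Lp E 2 (volume.restrict Ω)) - y.fst) := by
    rw [WithLp.prod_inner_apply, add_comm]
    rfl
  rw [e4, inner_sub_left]
  have e5 : inner ℝ ((ξ.fst : Lp E 2 (volume.restrict Ω)) - η.fst)
          ((x.fst : Lp E 2 (volume.restrict Ω)) - y.fst)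
      = -(inner ℝ (x.fst : Lp E 2 (volume.restrict Ω))
          (-(ξ.fst : Lp E 2 (volume.restrict Ω)) - -(η.fst : Lp E 2 _))
        - inner ℝ (y.fst : Lp E 2 (volume.restrict Ω))
          (-(ξ.fst : Lp E 2 (volume.restrict Ω)) - -(η.fst : Lp E 2 _))) := by
    rw [← inner_sub_left, ← inner_neg_right, real_inner_comm]
    congr 1
    abel
  rw [e5]
  linarith

end

end Pool.Agent.MP_4c4330_an
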