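import Mathlib

open Set Real

namespace Pool.Agent.MP_4c4330_an

/-- Triangle wave: distance to `2ℓℤ`. -/
noncomputable def fold (ℓ x : ℝ) : ℝ := ℓ / π * arccos (cos (π * x / ℓ))

/-- Sign of the slope of the triangle wave. -/
noncomputable def sg (ℓ x : ℝ) : ℝ := Real.sign (sin (π * x / ℓ))

variable {ℓ : ℝ}

lemma fold_cont : Continuous (fold ℓ) := by
  unfold fold
  exact continuous_const.mul (continuous_arccos.comp (by fun_prop))

lemma fold_mem (hℓ : 0 < ℓ) (x : ℝ) : fold ℓ x ∈ Icc 0 ℓ := by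
  unfold fold
  have h1 := arccos_nonneg (cos (π * x / ℓ))
  have h2 := arccos_le_pi (cos (π * x / ℓ))
  have hp := pi_pos
  constructor
  · positivity
  · calc ℓ / π * arccos (cos (π * x / ℓ)) ≤ ℓ / π * π := by gcongr
      _ = ℓ := by field_simp

lemma arg_add (hℓ : 0 < ℓ) (x : ℝ) : π * (x + 2 * ℓ) / ℓ = π * x / ℓ + 2 * π := by
  field_simp

lemma fold_per (hℓ : 0 < ℓ) (x : ℝ) : fold ℓ (x + 2 * ℓ) = fold ℓ x := by
  unfold fold; rw [arg_add hℓ, cos_add_two_pi]

lemma sg_per (hℓ : 0 < ℓ) (x : ℝ) : sg ℓ (x + 2 * ℓ) = sg ℓ x := by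
  unfold sg; rw [arg_add hℓ, sin_add_two_pi]

lemma fold_neg (x : ℝ) : fold ℓ (-x) = fold ℓ x := by
  unfold fold
  rw [show π * -x / ℓ = -(π * x / ℓ) by ring, cos_neg]

lemma sg_neg (x : ℝ) : sg ℓ (-x) = - sg ℓ x := by
  unfold sg
  rw [show π * -x / ℓ = -(π * x / ℓ) by ring, sin_neg, Real.sign_neg]

lemma fold_of_mem (hℓ : 0 < ℓ) {x : ℝ} (hx : x ∈ Icc 0 ℓ) : fold ℓ x = x := by
  unfold fold
  have hp := pi_pos
  have h0 := hx.1
  have h1 := hx.2
  rw [arccos_cos (by positivity) (by rw [div_le_iff₀ hℓ]; gcongr)]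
  field_simp

lemma sg_of_mem (hℓ : 0 < ℓ) {x : ℝ} (hx : x ∈ Ioo 0 ℓ) : sg ℓ x = 1 := by
  unfold sg
  have hp := pi_pos
  have h0 := hx.1
  have h1 := hx.2
  apply Real.sign_of_pos
  apply sin_pos_of_pos_of_lt_pi (by positivity)
  rw [div_lt_iff₀ hℓ]; gcongr

lemma fold_of_sin_zero (x : ℝ) (hs : sin (π * x / ℓ) = 0) :
    fold ℓ x = 0 ∨ fold ℓ x = ℓ := by
  unfold fold
  have hp := pi_pos
  have h1 : cos (π * x / ℓ) = 1 ∨ cos (π * x / ℓ) = -1 := sin_eq_zero_iff_cos_eq.1 hs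
  rcases h1 with h | h
  · left; rw [h, arccos_one, mul_zero]
  · right; rw [h, arccos_neg_one]; field_simp

lemma fold_mem_Ioo (hℓ : 0 < ℓ) {x : ℝ} (hs : sin (π * x / ℓ) ≠ 0) : fold ℓ x ∈ Ioo 0 ℓ := by
  have hp := pi_pos
  have h1 := fold_mem hℓ x
  have h2 : cos (π * x / ℓ) ≠ 1 := fun h => hs (sin_eq_zero_iff_cos_eq.2 (Or.inl h))
  have h3 : cos (π * x / ℓ) ≠ -1 := fun h => hs (sin_eq_zero_iff_cos_eq.2 (Or.inr h))
  constructor
  · apply lt_of_le_of_ne h1.1
    intro h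
    unfold fold at h
    have : arccos (cos (π * x / ℓ)) = 0 := by
      rcases mul_eq_zero.1 h.symm with h' | h'
      · exfalso
        have : 0 < ℓ / π := by positivity
        linarith
      · exact h'
    rw [arccos_eq_zero] at this
    exact h2 (le_antisymm (cos_le_one _) this)
  · apply lt_of_le_of_ne h1.2
    intro h
    unfold fold at h
    have : arccos (cos (π * x / ℓ)) = π := by
      field_simp at h
      exact h
    rw [arccos_eq_pi] at this
    exact h3 (le_antisymm this (neg_one_le_cos _))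

lemma sg_sq {x : ℝ} (hs : sin (π * x / ℓ) ≠ 0) : sg ℓ x * sg ℓ x = 1 := by
  unfold sg
  rcases Real.sign_apply_eq_of_ne_zero _ hs with h | h <;> rw [h] <;> norm_num

lemma sg_abs_le (x : ℝ) : |sg ℓ x| ≤ 1 := by
  unfold sg
  rcases Real.sign_apply_eq (sin (π * x / ℓ)) with h | h | h <;> rw [h] <;> norm_num

lemma fold_deriv (hℓ : 0 < ℓ) {x : ℝ} (hs : sin (π * x / ℓ) ≠ 0) :
    HasDerivAt (fold ℓ) (sg ℓ x) x := by
  have hp := pi_pos
  have h2 : cos (π * x / ℓ) ≠ 1 := fun h => hs (sin_eq_zero_iff_cos_eq.2 (Or.inl h))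
  have h3 : cos (π * x / ℓ) ≠ -1 := fun h => hs (sin_eq_zero_iff_cos_eq.2 (Or.inr h))
  have h4 : HasDerivAt (fun x : ℝ => π * x / ℓ) (π / ℓ) x := by
    have := ((hasDerivAt_id x).const_mul π).div_const ℓ
    simpa using this
  have h5 := (Real.hasDerivAt_cos (π * x / ℓ)).comp x h4
  have h6 := (Real.hasDerivAt_arccos h3 h2).comp x h5
  have h7 := h6.const_mul (ℓ / π)
  refine h7.congr_deriv ?_
  have h8 : √(1 - cos (π * x / ℓ) ^ 2) = |sin (π * x / ℓ)| := by
    rw [← sin_sq, Real.sqrt_sq_eq_abs]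
  rw [h8]
  unfold sg
  rcases lt_or_gt_of_ne hs with h | h
  · rw [abs_of_neg h, Real.sign_of_neg h]
    field_simp
  · rw [abs_of_pos h, Real.sign_of_pos h]
    field_simp

lemma sg_locally_const {x : ℝ} (hs : sin (π * x / ℓ) ≠ 0) :
    ∀ᶠ y in nhds x, sg ℓ y = sg ℓ x := by
  have hc : ContinuousAt (fun y : ℝ => sin (π * y / ℓ)) x := by fun_prop
  rcases lt_or_gt_of_ne hs with h | h
  · filter_upwards [hc.eventually (gt_mem_nhds h)] with y hy
    unfold sg
    rw [Real.sign_of_neg hy, Real.sign_of_neg h]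
  · filter_upwards [hc.eventually (lt_mem_nhds h)] with y hy
    unfold sg
    rw [Real.sign_of_pos hy, Real.sign_of_pos h]

/-- `sg (φ p) * W p` is continuous if `W` vanishes whenever the sine does. -/
lemma sg_mul_continuous {X : Type*} [TopologicalSpace X] {φ W : X → ℝ} (hφ : Continuous φ)
    (hW : Continuous W) (h0 : ∀ p, sin (π * φ p / ℓ) = 0 → W p = 0) :
    Continuous fun p => sg ℓ (φ p) * W p := by
  rw [continuous_iff_continuousAt]
  intro p
  by_cases hs : sin (π * φ p / ℓ) = 0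
  · have hW0 := h0 p hs
    change Filter.Tendsto _ _ (nhds (sg ℓ (φ p) * W p))
    rw [hW0, mul_zero]
    have h1 : Filter.Tendsto (fun q => |W q|) (nhds p) (nhds 0) := by
      have := (hW.abs).tendsto p
      rwa [hW0, abs_zero] at this
    apply squeeze_zero_norm _ h1
    intro q
    rw [Real.norm_eq_abs, abs_mul]
    exact mul_le_of_le_one_left (abs_nonneg _) (sg_abs_le _)
  · have h1 : ∀ᶠ q in nhds p, sg ℓ (φ p) * W q = sg ℓ (φ q) * W q := by
      filter_upwards [hφ.continuousAt.eventually (sg_locally_const hs)] with q hq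
      rw [hq]
    exact ContinuousAt.congr (continuousAt_const.mul hW.continuousAt) h1

lemma sin_zero_countable (hℓ : 0 < ℓ) : {x : ℝ | sin (π * x / ℓ) = 0}.Countable := by
  have hp := pi_pos
  have : {x : ℝ | sin (π * x / ℓ) = 0} ⊆ range (fun n : ℤ => (n:ℝ) * ℓ) := by
    intro x hx
    obtain ⟨n, hn⟩ := Real.sin_eq_zero_iff.1 hx
    refine ⟨n, ?_⟩
    simp only
    field_simp at hn
    linarith
  exact (countable_range _).mono this

end Pool.Agent.MP_4c4330_an
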