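import Pool.Agent.MP_4c4330_an.Char

open Set Real MeasureTheory intervalIntegral Function

namespace Pool.Agent.MP_4c4330_an

lemma sq_integral_le {h : ℝ → ℝ} (hc : Continuous h) {t s : ℝ} (hts : t ≤ s) :
    (∫ x in t..s, h x) ^ 2 ≤ (s - t) * ∫ x in t..s, (h x) ^ 2 := by
  rcases hts.eq_or_lt with rfl | hlt
  · simp
  · set I := ∫ x in t..s, h x with hI
    have h1 : 0 ≤ ∫ x in t..s, ((s - t) * h x - I) ^ 2 :=
      intervalIntegral.integral_nonneg hts (fun x _ => sq_nonneg _)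
    have h2 : ∫ x in t..s, ((s - t) * h x - I) ^ 2
        = (s - t) ^ 2 * (∫ x in t..s, (h x) ^ 2) - 2 * (s - t) * I * I + I ^ 2 * (s - t) := by
      have e : ∀ x, ((s - t) * h x - I) ^ 2
          = ((s - t) ^ 2 * (h x) ^ 2 - (2 * (s - t) * I) * h x) + I ^ 2 := fun x => by ring
      simp_rw [e]
      have c1 : Continuous fun x => (s - t) ^ 2 * (h x) ^ 2 := by fun_prop
      have c2 : Continuous fun x => (2 * (s - t) * I) * h x := by fun_prop
      have c3 : Continuous fun x => (s - t) ^ 2 * (h x) ^ 2 - (2 * (s - t) * I) * h x := by fun_prop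
      rw [intervalIntegral.integral_add (c3.intervalIntegrable _ _)
        (continuous_const.intervalIntegrable _ _), intervalIntegral.integral_sub
        (c1.intervalIntegrable _ _) (c2.intervalIntegrable _ _),
        intervalIntegral.integral_const_mul, intervalIntegral.integral_const_mul,
        intervalIntegral.integral_const, smul_eq_mul, ← hI]
      ring
    rw [h2] at h1
    have h3 : 0 < s - t := by linarith
    have h4 : 0 ≤ (s - t) * ((s - t) * (∫ x in t..s, (h x) ^ 2) - I ^ 2) := by nlinarith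
    have h5 : 0 ≤ (s - t) * (∫ x in t..s, (h x) ^ 2) - I ^ 2 := by
      by_contra hcon
      push Not at hcon
      have := mul_neg_of_pos_of_neg h3 hcon
      linarith
    linarith

section
variable {ℓ a α : ℝ} {f v : ℝ → ℝ → ℝ}

lemma w_abs_le {t y K : ℝ} (hK : ∀ z, |f t z| ≤ K) : |w f t y| ≤ K := by
  unfold w
  rw [abs_div, abs_two, div_le_iff₀ (by norm_num)]
  have := abs_sub (f t y) (f t (2 * t - y))
  linarith [hK y, hK (2 * t - y)]

/-- Bound on the increments of `dl`. -/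
lemma eta_bound (hℓ : 0 < ℓ) (ha : 0 < a) (hα : 0 < α) (hf : CharSol ℓ a α f v) {t K : ℝ}
    (ht : 0 ≤ t) (hK : ∀ τ, t ≤ τ → ∀ z, |f τ z| ≤ K) {s : ℝ} (hs : t ≤ s) (hs' : s ≤ t + ℓ) :
    ∫ y in (0:ℝ)..(2 * ℓ), (dl ℓ f s y - dl ℓ f t y) ^ 2
      ≤ (a * (α + 1) * K ^ α * ℓ) ^ 2 * Nd ℓ f t := by
  have hG := Gd_cont hα hf
  have hd := dl_cont hf
  have hw := w_cont hf
  have hK0 : 0 ≤ K := (abs_nonneg _).trans (hK t le_rfl 0)
  have h1 : ∀ y, (dl ℓ f s y - dl ℓ f t y) ^ 2 ≤ ℓ * ∫ τ in t..s, (Gd ℓ a α f τ y) ^ 2 := by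
    intro y
    have e : ∫ τ in t..s, (-(Gd ℓ a α f τ y)) = dl ℓ f s y - dl ℓ f t y := by
      apply intervalIntegral.integral_eq_sub_of_hasDerivAt_of_le (f := fun s => dl ℓ f s y) hs
      · fun_prop
      · intro τ hτ
        exact dl_deriv hℓ hf τ (lt_of_le_of_lt ht hτ.1) y
      · apply Continuous.intervalIntegrable; fun_prop
    rw [← e, intervalIntegral.integral_neg, neg_sq]
    have h2 := sq_integral_le (h := fun τ => Gd ℓ a α f τ y) (by fun_prop) hs
    refine h2.trans ?_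
    apply mul_le_mul_of_nonneg_right (by linarith)
    exact intervalIntegral.integral_nonneg hs (fun x _ => sq_nonneg _)
  have h3 : ∫ y in (0:ℝ)..(2 * ℓ), (dl ℓ f s y - dl ℓ f t y) ^ 2
      ≤ ∫ y in (0:ℝ)..(2 * ℓ), ℓ * ∫ τ in t..s, (Gd ℓ a α f τ y) ^ 2 := by
    apply intervalIntegral.integral_mono_on (by linarith)
    · apply Continuous.intervalIntegrable; fun_prop
    · apply Continuous.intervalIntegrable; fun_prop
    · intro y _; exact h1 y
  refine h3.trans ?_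
  rw [intervalIntegral.integral_const_mul, ← integral_swap_cont (F := fun τ y =>
    (Gd ℓ a α f τ y) ^ 2) (by fun_prop)]
  have h4 : ∀ τ ∈ Icc t s, ∫ y in (0:ℝ)..(2 * ℓ), (Gd ℓ a α f τ y) ^ 2
      ≤ (a * (α + 1) * K ^ α) ^ 2 * Nd ℓ f t := by
    intro τ hτ
    have h5 : ∀ y, (Gd ℓ a α f τ y) ^ 2 ≤ (a * (α + 1) * K ^ α) ^ 2 *
        (((dl ℓ f τ y) ^ 2 + (dl ℓ f τ (2 * τ - y)) ^ 2) / 2) := by
      intro y
      have h6 := abs_g_sub_le ha hα (x := w f (τ + ℓ) y) (y := w f τ y) (K := K)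
        (w_abs_le (hK _ (by linarith [hτ.1]))) (w_abs_le (hK _ hτ.1))
      have h7 : (Gd ℓ a α f τ y) ^ 2 ≤ (a * (α + 1) * K ^ α * |w f (τ + ℓ) y - w f τ y|) ^ 2 := by
        rw [← sq_abs (Gd ℓ a α f τ y)]
        exact pow_le_pow_left₀ (abs_nonneg _) h6 2
      refine h7.trans ?_
      rw [mul_pow, sq_abs]
      apply mul_le_mul_of_nonneg_left _ (sq_nonneg _)
      rw [w_diff hf]
      nlinarith [sq_nonneg (dl ℓ f τ y + dl ℓ f τ (2 * τ - y))]
    have h8 : ∫ y in (0:ℝ)..(2 * ℓ), (Gd ℓ a α f τ y) ^ 2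
        ≤ ∫ y in (0:ℝ)..(2 * ℓ), (a * (α + 1) * K ^ α) ^ 2 *
        (((dl ℓ f τ y) ^ 2 + (dl ℓ f τ (2 * τ - y)) ^ 2) / 2) := by
      apply intervalIntegral.integral_mono_on (by linarith)
      · apply Continuous.intervalIntegrable; fun_prop
      · apply Continuous.intervalIntegrable; fun_prop
      · intro y _; exact h5 y
    refine h8.trans ?_
    rw [intervalIntegral.integral_const_mul]
    apply mul_le_mul_of_nonneg_left _ (sq_nonneg _)
    have c1 : Continuous fun y => (dl ℓ f τ y) ^ 2 := by fun_prop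
    have c2 : Continuous fun y => (dl ℓ f τ (2 * τ - y)) ^ 2 := by fun_prop
    rw [intervalIntegral.integral_div, intervalIntegral.integral_add (c1.intervalIntegrable _ _)
      (c2.intervalIntegrable _ _), integral_reflect (h := fun y => (dl ℓ f τ y) ^ 2)
      (fun y => by simp only [dl_per hf])]
    have h9 := Nd_anti hℓ ha hα hf ht hτ.1
    unfold Nd at h9 ⊢
    linarith
  have h10 : ∫ τ in t..s, ∫ y in (0:ℝ)..(2 * ℓ), (Gd ℓ a α f τ y) ^ 2
      ≤ ∫ τ in t..s, (a * (α + 1) * K ^ α) ^ 2 * Nd ℓ f t := by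
    apply intervalIntegral.integral_mono_on hs
    · apply Continuous.intervalIntegrable; fun_prop
    · apply Continuous.intervalIntegrable; fun_prop
    · exact h4
  rw [intervalIntegral.integral_const, smul_eq_mul] at h10
  have hN := Nd_nonneg (f := f) hℓ t
  have hC : 0 ≤ (a * (α + 1) * K ^ α) ^ 2 * Nd ℓ f t := by positivity
  calc ℓ * ∫ τ in t..s, ∫ y in (0:ℝ)..(2 * ℓ), (Gd ℓ a α f τ y) ^ 2
      ≤ ℓ * ((s - t) * ((a * (α + 1) * K ^ α) ^ 2 * Nd ℓ f t)) :=
        mul_le_mul_of_nonneg_left h10 hℓ.le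
    _ ≤ ℓ * (ℓ * ((a * (α + 1) * K ^ α) ^ 2 * Nd ℓ f t)) := by
        apply mul_le_mul_of_nonneg_left _ hℓ.le
        exact mul_le_mul_of_nonneg_right (by linarith) hC
    _ = (a * (α + 1) * K ^ α * ℓ) ^ 2 * Nd ℓ f t := by ring

/-- Energy loss over half a period. -/
noncomputable def Ph (ℓ a α : ℝ) (f : ℝ → ℝ → ℝ) (t : ℝ) : ℝ := ∫ s in t..(t + ℓ), Pd ℓ a α f s

lemma Ph_nonneg (hℓ : 0 < ℓ) (ha : 0 < a) (t : ℝ) : 0 ≤ Ph ℓ a α f t := by
  unfold Ph
  apply intervalIntegral.integral_nonneg (by linarith)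
  intro s _
  exact Pd_nonneg hℓ ha s

lemma Q_succ (hℓ : 0 < ℓ) (hα : 0 < α) (hf : CharSol ℓ a α f v) {t : ℝ} (ht : 0 ≤ t) :
    Q ℓ f (t + ℓ) = Q ℓ f t - 2 * Ph ℓ a α f t := by
  have := energy_identity hα hf ht (by linarith : t ≤ t + ℓ)
  unfold Ph
  linarith

/-- Cauchy-Schwarz. -/
lemma cs_step (hℓ : 0 < ℓ) (ha : 0 < a) (hα : 0 < α) (hf : CharSol ℓ a α f v) {t : ℝ}
    (ht : 0 ≤ t) (hQ : 0 < Q ℓ f t) :
    (Ph ℓ a α f t) ^ 2 ≤ Q ℓ f t * Nd ℓ f t := by
  have hc := hf.cont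
  have hd := dl_cont hf
  set Φ := Ph ℓ a α f t with hΦ
  set q := Q ℓ f t with hq
  have hΦ0 : 0 ≤ Φ := Ph_nonneg hℓ ha t
  have hN := Nd_nonneg (f := f) hℓ t
  have c1 : Continuous fun y => (f t y) ^ 2 := by fun_prop
  have c2 : Continuous fun y => f t y * dl ℓ f t y := by fun_prop
  have c3 : Continuous fun y => (dl ℓ f t y) ^ 2 := by fun_prop
  have expand : ∀ A : ℝ, ∫ y in (0:ℝ)..(2 * ℓ), (A * f t y + dl ℓ f t y) ^ 2
      = A ^ 2 * q + 2 * A * (∫ y in (0:ℝ)..(2 * ℓ), f t y * dl ℓ f t y) + Nd ℓ f t := by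
    intro A
    have e : ∀ y, (A * f t y + dl ℓ f t y) ^ 2
        = (A ^ 2 * (f t y) ^ 2 + (2 * A) * (f t y * dl ℓ f t y)) + (dl ℓ f t y) ^ 2 :=
      fun y => by ring
    simp_rw [e]
    have c1' : Continuous fun y => A ^ 2 * (f t y) ^ 2 := by fun_prop
    have c2' : Continuous fun y => (2 * A) * (f t y * dl ℓ f t y) := by fun_prop
    have c12 : Continuous fun y => A ^ 2 * (f t y) ^ 2 + (2 * A) * (f t y * dl ℓ f t y) := by
      fun_prop
    rw [intervalIntegral.integral_add (c12.intervalIntegrable _ _)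
      (c3.intervalIntegrable _ _), intervalIntegral.integral_add (c1'.intervalIntegrable _ _)
      (c2'.intervalIntegrable _ _), intervalIntegral.integral_const_mul,
      intervalIntegral.integral_const_mul]
    rfl
  have hQ1 : Q ℓ f (t + ℓ) = q + 2 * (∫ y in (0:ℝ)..(2 * ℓ), f t y * dl ℓ f t y) + Nd ℓ f t := by
    have := expand 1
    rw [one_pow, one_mul, mul_one] at this
    rw [← this]
    unfold Q dl
    congr 1
    funext y
    ring
  have hQ2 := Q_succ hℓ hα hf ht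
  have hcross : ∫ y in (0:ℝ)..(2 * ℓ), f t y * dl ℓ f t y = -Φ - Nd ℓ f t / 2 := by linarith
  have hnn : 0 ≤ ∫ y in (0:ℝ)..(2 * ℓ), ((Φ / q) * f t y + dl ℓ f t y) ^ 2 :=
    intervalIntegral.integral_nonneg (by linarith) (fun y _ => sq_nonneg _)
  rw [expand, hcross] at hnn
  have e1 : (Φ / q) ^ 2 * q + 2 * (Φ / q) * (-Φ - Nd ℓ f t / 2) + Nd ℓ f t
      = Nd ℓ f t - Φ ^ 2 / q - (Φ / q) * Nd ℓ f t := by field_simp; ring
  rw [e1] at hnn
  have h3 : 0 ≤ (Φ / q) * Nd ℓ f t := by positivity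
  have h4 : Φ ^ 2 / q ≤ Nd ℓ f t := by linarith
  rw [div_le_iff₀ hQ] at h4
  linarith

lemma Pd_le (hℓ : 0 < ℓ) (ha : 0 < a) (hα : 0 < α) (hf : CharSol ℓ a α f v) {t K : ℝ}
    (hK : ∀ z, |f t z| ≤ K) : Pd ℓ a α f t ≤ a * K ^ α * Q ℓ f t := by
  have hc := hf.cont
  have hw := w_cont hf
  have hg := continuous_g (a := a) hα
  have hK0 : 0 ≤ K := (abs_nonneg _).trans (hK 0)
  have h1 : Pd ℓ a α f t ≤ ∫ y in (0:ℝ)..(2 * ℓ), a * K ^ α *
      (((f t y) ^ 2 + (f t (2 * t - y)) ^ 2) / 2) := by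
    unfold Pd
    apply intervalIntegral.integral_mono_on (by linarith)
    · apply Continuous.intervalIntegrable; fun_prop
    · apply Continuous.intervalIntegrable; fun_prop
    · intro y _
      refine (mul_g_le ha hα (w_abs_le hK)).trans ?_
      apply mul_le_mul_of_nonneg_left _ (by positivity)
      unfold w
      nlinarith [sq_nonneg (f t y + f t (2 * t - y))]
  refine h1.trans (le_of_eq ?_)
  have c1 : Continuous fun y => (f t y) ^ 2 := by fun_prop
  have c2 : Continuous fun y => (f t (2 * t - y)) ^ 2 := by fun_prop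
  rw [intervalIntegral.integral_const_mul, intervalIntegral.integral_div,
    intervalIntegral.integral_add (c1.intervalIntegrable _ _)
    (c2.intervalIntegrable _ _), integral_reflect (h := fun y => (f t y) ^ 2)
    (fun y => by simp only [hf.per])]
  unfold Q
  ring

lemma Ph_le (hℓ : 0 < ℓ) (ha : 0 < a) (hα : 0 < α) (hf : CharSol ℓ a α f v) {t K : ℝ}
    (ht : 0 ≤ t) (hK : ∀ τ, t ≤ τ → ∀ z, |f τ z| ≤ K) :
    Ph ℓ a α f t ≤ a * ℓ * K ^ α * Q ℓ f t := by
  have hK0 : 0 ≤ K := (abs_nonneg _).trans (hK t le_rfl 0)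
  have h1 : Ph ℓ a α f t ≤ ∫ _s in t..(t + ℓ), a * K ^ α * Q ℓ f t := by
    unfold Ph
    apply intervalIntegral.integral_mono_on (by linarith)
    · exact (Pd_cont hα hf).intervalIntegrable _ _
    · apply Continuous.intervalIntegrable; fun_prop
    · intro s hs
      refine (Pd_le hℓ ha hα hf (hK s hs.1)).trans ?_
      apply mul_le_mul_of_nonneg_left _ (by positivity)
      exact Q_anti hℓ ha hα hf ht hs.1
  rw [intervalIntegral.integral_const, smul_eq_mul] at h1
  refine h1.trans (le_of_eq ?_)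
  ring

/-- The main inequality over two consecutive half periods. -/
lemma main_step (hℓ : 0 < ℓ) (ha : 0 < a) (hα : 0 < α) (hf : CharSol ℓ a α f v) {t K : ℝ}
    (ht : 0 ≤ t) (hK0 : 0 < K) (hK : ∀ τ, t ≤ τ → ∀ z, |f τ z| ≤ K) :
    Ph ℓ a α f (t + ℓ) - Ph ℓ a α f t ≤ (α + 2) *
      (-(1 - a * (α + 1) * K ^ α * ℓ) * Nd ℓ f t + (1/2) * a * (K ^ α) ^ 2 * Ph ℓ a α f (t + ℓ)
        + (1/2) * K ^ α * (a * (α + 1)) ^ 2 * ℓ ^ 3 * Nd ℓ f t) := by
  have hc := hf.cont
  have hd := dl_cont hf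
  have hw := w_cont hf
  have hg := continuous_g (a := a) hα
  have hP := Pd_cont hα hf
  set κ := K ^ α with hκ
  have hκ0 : 0 < κ := Real.rpow_pos_of_pos hK0 _
  set L := a * (α + 1) with hL
  have hL0 : 0 < L := by positivity
  set N := Nd ℓ f t with hN
  have hN0 : 0 ≤ N := Nd_nonneg hℓ t
  -- Step A
  have hA : Ph ℓ a α f (t + ℓ) = ∫ s in t..(t + ℓ), Pd ℓ a α f (s + ℓ) := by
    unfold Ph
    rw [intervalIntegral.integral_comp_add_right]
  -- Steps B and C
  have hB : ∀ s ∈ Icc t (t + ℓ), Pd ℓ a α f (s + ℓ) - Pd ℓ a α f s ≤ (α + 2) *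
      ((∫ y in (0:ℝ)..(2 * ℓ), g a α (w f (s + ℓ) y) * dl ℓ f t y)
        + ((1/2) * a * κ ^ 2 * Pd ℓ a α f (s + ℓ) + (1 / (2 * κ)) * ((L * κ * ℓ) ^ 2 * N))) := by
    intro s hs
    have c0 : Continuous fun y => g a α (w f (s + ℓ) y) := by fun_prop
    have c1 : Continuous fun y => w f (s + ℓ) y * g a α (w f (s + ℓ) y) := by fun_prop
    have c2 : Continuous fun y => w f s y * g a α (w f s y) := by fun_prop
    have c3 : Continuous fun y => (w f (s + ℓ) y - w f s y) * g a α (w f (s + ℓ) y) := by fun_prop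
    have b1 : Pd ℓ a α f (s + ℓ) - Pd ℓ a α f s ≤
        ∫ y in (0:ℝ)..(2 * ℓ), (α + 2) * ((w f (s + ℓ) y - w f s y) * g a α (w f (s + ℓ) y)) := by
      unfold Pd
      rw [← intervalIntegral.integral_sub (c1.intervalIntegrable _ _) (c2.intervalIntegrable _ _)]
      apply intervalIntegral.integral_mono_on (by linarith)
      · apply Continuous.intervalIntegrable; fun_prop
      · apply Continuous.intervalIntegrable; fun_prop
      · intro y _
        have := mul_g_sub_le ha hα (w f (s + ℓ) y) (w f s y)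
        linarith
    refine b1.trans ?_
    rw [intervalIntegral.integral_const_mul]
    apply mul_le_mul_of_nonneg_left _ (by linarith)
    have b2 : ∫ y in (0:ℝ)..(2 * ℓ), (w f (s + ℓ) y - w f s y) * g a α (w f (s + ℓ) y)
        = ∫ y in (0:ℝ)..(2 * ℓ), dl ℓ f s y * g a α (w f (s + ℓ) y) := by
      rw [integral_symm_odd (F := dl ℓ f s) (G := fun y => g a α (w f (s + ℓ) y)) (d := 2 * s)
        (by fun_prop) (by fun_prop) (dl_per hf s) (fun y => by simp only [w_per hf])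
        (fun y => by simp only [w_shift_odd hf, g_neg])]
      congr 1
      funext y
      rw [w_diff hf]
    rw [b2]
    have b3 : ∀ y, dl ℓ f s y * g a α (w f (s + ℓ) y) ≤ g a α (w f (s + ℓ) y) * dl ℓ f t y
        + ((1/2) * a * κ ^ 2 * (w f (s + ℓ) y * g a α (w f (s + ℓ) y))
          + (1 / (2 * κ)) * (dl ℓ f s y - dl ℓ f t y) ^ 2) := by
      intro y
      have h1 := g_sq_le ha hα (x := w f (s + ℓ) y) (K := K)
        (w_abs_le (hK _ (by linarith [hs.1])))
      rw [← hκ] at h1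
      set G := g a α (w f (s + ℓ) y) with hG
      set D := dl ℓ f s y - dl ℓ f t y with hD
      have h2 : G * D ≤ (κ / 2) * G ^ 2 + (1 / (2 * κ)) * D ^ 2 := by
        have : (κ / 2) * G ^ 2 + (1 / (2 * κ)) * D ^ 2 - G * D
            = (1 / (2 * κ)) * (κ * G - D) ^ 2 := by
          field_simp; ring
        have h3 : 0 ≤ (1 / (2 * κ)) * (κ * G - D) ^ 2 := by positivity
        linarith
      have h4 : (κ / 2) * G ^ 2 ≤ (κ / 2) * (a * κ * (w f (s + ℓ) y * G)) :=
        mul_le_mul_of_nonneg_left h1 (by positivity)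
      have h5 : dl ℓ f s y = dl ℓ f t y + D := by rw [hD]; ring
      rw [h5]
      nlinarith
    have c4 : Continuous fun y => g a α (w f (s + ℓ) y) * dl ℓ f t y := by fun_prop
    have c5 : Continuous fun y => (dl ℓ f s y - dl ℓ f t y) ^ 2 := by fun_prop
    have c6 : Continuous fun y => (1/2) * a * κ ^ 2 * (w f (s + ℓ) y * g a α (w f (s + ℓ) y)) := by
      fun_prop
    have c7 : Continuous fun y => (1 / (2 * κ)) * (dl ℓ f s y - dl ℓ f t y) ^ 2 := by fun_prop
    have b4 : ∫ y in (0:ℝ)..(2 * ℓ), dl ℓ f s y * g a α (w f (s + ℓ) y)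
        ≤ ∫ y in (0:ℝ)..(2 * ℓ), (g a α (w f (s + ℓ) y) * dl ℓ f t y
        + ((1/2) * a * κ ^ 2 * (w f (s + ℓ) y * g a α (w f (s + ℓ) y))
          + (1 / (2 * κ)) * (dl ℓ f s y - dl ℓ f t y) ^ 2)) := by
      apply intervalIntegral.integral_mono_on (by linarith)
      · apply Continuous.intervalIntegrable; fun_prop
      · apply Continuous.intervalIntegrable; fun_prop
      · intro y _; exact b3 y
    refine b4.trans ?_
    have c67 : Continuous fun y => (1/2) * a * κ ^ 2 * (w f (s + ℓ) y * g a α (w f (s + ℓ) y))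
        + (1 / (2 * κ)) * (dl ℓ f s y - dl ℓ f t y) ^ 2 := by fun_prop
    rw [intervalIntegral.integral_add (c4.intervalIntegrable _ _)
      (c67.intervalIntegrable _ _), intervalIntegral.integral_add
      (c6.intervalIntegrable _ _) (c7.intervalIntegrable _ _),
      intervalIntegral.integral_const_mul, intervalIntegral.integral_const_mul]
    have b5 := eta_bound hℓ ha hα hf ht hK hs.1 hs.2
    have b6 : 1 / (2 * κ) * ∫ y in (0:ℝ)..(2 * ℓ), (dl ℓ f s y - dl ℓ f t y) ^ 2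
        ≤ 1 / (2 * κ) * ((L * κ * ℓ) ^ 2 * N) :=
      mul_le_mul_of_nonneg_left b5 (by positivity)
    unfold Pd
    linarith
  -- Step D
  have hD : ∫ s in t..(t + ℓ), (∫ y in (0:ℝ)..(2 * ℓ), g a α (w f (s + ℓ) y) * dl ℓ f t y)
      = - ∫ y in (0:ℝ)..(2 * ℓ), dl ℓ f t y * dl ℓ f (t + ℓ) y := by
    rw [integral_swap_cont (F := fun s y => g a α (w f (s + ℓ) y) * dl ℓ f t y) (by fun_prop),
      ← intervalIntegral.integral_neg]
    congr 1
    funext y
    rw [intervalIntegral.integral_mul_const]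
    have e : ∫ s in t..(t + ℓ), (-(g a α (w f (s + ℓ) y)))
        = f (t + ℓ + ℓ) y - f (t + ℓ) y := by
      apply intervalIntegral.integral_eq_sub_of_hasDerivAt_of_le (f := fun s => f (s + ℓ) y)
        (by linarith)
      · fun_prop
      · intro s hs
        have := hf.deriv (s + ℓ) (by linarith [hs.1]) y
        exact this.comp_add_const s ℓ
      · apply Continuous.intervalIntegrable; fun_prop
    rw [intervalIntegral.integral_neg] at e
    have e' : ∫ s in t..(t + ℓ), g a α (w f (s + ℓ) y) = -(dl ℓ f (t + ℓ) y) := by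
      unfold dl; linarith
    rw [e']; ring
  -- Step E
  have hE : - ∫ y in (0:ℝ)..(2 * ℓ), dl ℓ f t y * dl ℓ f (t + ℓ) y ≤ -(1 - L * κ * ℓ) * N := by
    have hLκ : 0 < L * κ * ℓ := by positivity
    have e1 : ∀ y, -(dl ℓ f t y * dl ℓ f (t + ℓ) y) ≤ (-1 + (L * κ * ℓ) / 2) * (dl ℓ f t y) ^ 2
        + (1 / (2 * (L * κ * ℓ))) * (dl ℓ f (t + ℓ) y - dl ℓ f t y) ^ 2 := by
      intro y
      set A := dl ℓ f t y
      set D := dl ℓ f (t + ℓ) y - A with hD
      set c := L * κ * ℓ with hc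
      have h5 : dl ℓ f (t + ℓ) y = A + D := by rw [hD]; ring
      rw [h5]
      have : (c / 2) * A ^ 2 + (1 / (2 * c)) * D ^ 2 + A * D
            = (1 / (2 * c)) * (c * A + D) ^ 2 := by
          field_simp; ring
      have h3 : 0 ≤ (1 / (2 * c)) * (c * A + D) ^ 2 := by positivity
      nlinarith
    have c1 : Continuous fun y => (-1 + (L * κ * ℓ) / 2) * (dl ℓ f t y) ^ 2 := by fun_prop
    have c2 : Continuous fun y => (1 / (2 * (L * κ * ℓ))) *
      (dl ℓ f (t + ℓ) y - dl ℓ f t y) ^ 2 := by fun_prop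
    have e2 : ∫ y in (0:ℝ)..(2 * ℓ), (-(dl ℓ f t y * dl ℓ f (t + ℓ) y))
        ≤ ∫ y in (0:ℝ)..(2 * ℓ), ((-1 + (L * κ * ℓ) / 2) * (dl ℓ f t y) ^ 2
        + (1 / (2 * (L * κ * ℓ))) * (dl ℓ f (t + ℓ) y - dl ℓ f t y) ^ 2) := by
      apply intervalIntegral.integral_mono_on (by linarith)
      · apply Continuous.intervalIntegrable; fun_prop
      · apply Continuous.intervalIntegrable; fun_prop
      · intro y _; exact e1 y
    rw [intervalIntegral.integral_neg] at e2
    refine e2.trans ?_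
    rw [intervalIntegral.integral_add (c1.intervalIntegrable _ _) (c2.intervalIntegrable _ _),
      intervalIntegral.integral_const_mul, intervalIntegral.integral_const_mul]
    have e3 := eta_bound hℓ ha hα hf ht hK (s := t + ℓ) (by linarith) le_rfl
    have e4 : (1 / (2 * (L * κ * ℓ))) * ∫ y in (0:ℝ)..(2 * ℓ), (dl ℓ f (t + ℓ) y - dl ℓ f t y) ^ 2
        ≤ (1 / (2 * (L * κ * ℓ))) * ((L * κ * ℓ) ^ 2 * N) :=
      mul_le_mul_of_nonneg_left e3 (by positivity)
    have e5 : (1 / (2 * (L * κ * ℓ))) * ((L * κ * ℓ) ^ 2 * N) = (L * κ * ℓ) / 2 * N := by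
      field_simp
    rw [e5] at e4
    have e6 : ∫ y in (0:ℝ)..(2 * ℓ), (dl ℓ f t y) ^ 2 = N := rfl
    rw [e6]
    nlinarith
  -- integrate over s
  have hF : Ph ℓ a α f (t + ℓ) - Ph ℓ a α f t ≤ ∫ s in t..(t + ℓ), (α + 2) *
      ((∫ y in (0:ℝ)..(2 * ℓ), g a α (w f (s + ℓ) y) * dl ℓ f t y)
        + ((1/2) * a * κ ^ 2 * Pd ℓ a α f (s + ℓ) + (1 / (2 * κ)) * ((L * κ * ℓ) ^ 2 * N))) := by
    rw [hA]
    unfold Ph
    have c1 : Continuous fun s => Pd ℓ a α f (s + ℓ) := by fun_prop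
    rw [← intervalIntegral.integral_sub (c1.intervalIntegrable _ _) (hP.intervalIntegrable _ _)]
    apply intervalIntegral.integral_mono_on (by linarith)
    · apply Continuous.intervalIntegrable; fun_prop
    · apply Continuous.intervalIntegrable; fun_prop
    · exact hB
  refine hF.trans ?_
  rw [intervalIntegral.integral_const_mul]
  apply mul_le_mul_of_nonneg_left _ (by linarith)
  have c1 : Continuous fun s => ∫ y in (0:ℝ)..(2 * ℓ), g a α (w f (s + ℓ) y) * dl ℓ f t y := by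
    fun_prop
  have c2 : Continuous fun s => (1/2) * a * κ ^ 2 * Pd ℓ a α f (s + ℓ) := by fun_prop
  have c3 : Continuous fun _s : ℝ => (1 / (2 * κ)) * ((L * κ * ℓ) ^ 2 * N) := continuous_const
  have c23 : Continuous fun s => (1/2) * a * κ ^ 2 * Pd ℓ a α f (s + ℓ)
      + (1 / (2 * κ)) * ((L * κ * ℓ) ^ 2 * N) := by fun_prop
  rw [intervalIntegral.integral_add (c1.intervalIntegrable _ _)
    (c23.intervalIntegrable _ _), intervalIntegral.integral_add
    (c2.intervalIntegrable _ _) (c3.intervalIntegrable _ _),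
    intervalIntegral.integral_const_mul, intervalIntegral.integral_const, smul_eq_mul, hD, ← hA]
  have e7 : (t + ℓ - t) * (1 / (2 * κ) * ((L * κ * ℓ) ^ 2 * N))
      = (1/2) * κ * L ^ 2 * ℓ ^ 3 * N := by
    field_simp; ring
  rw [e7]
  linarith

end

end Pool.Agent.MP_4c4330_an
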