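import Pool.Agent.MP_4c4330_an.Defs
import Pool.Agent.MP_4c4330_an.Fold
import Pool.Agent.MP_4c4330_an.Step

open Set Real MeasureTheory intervalIntegral Function

namespace Pool.Agent.MP_4c4330_an

section
variable {A B a α : ℝ} {u : ℝ → ℝ → ℝ}

/-- The derivative up to the boundary. -/
noncomputable def Dw (A B : ℝ) (u : ℝ → ℝ → ℝ) (p : ℝ × ℝ) : ℝ × ℝ →L[ℝ] ℝ :=
  fderivWithin ℝ (fun p : ℝ × ℝ => u p.1 p.2) (Ici 0 ×ˢ Icc A B) p

lemma udS (hAB : A < B) : UniqueDiffOn ℝ (Ici (0:ℝ) ×ˢ Icc A B) :=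
  (uniqueDiffOn_Ici 0).prod (uniqueDiffOn_Icc hAB)

lemma Dw_cont (hAB : A < B) (hu : IsClassicalSolution A B a α u) :
    ContinuousOn (Dw A B u) (Ici 0 ×ˢ Icc A B) :=
  hu.c1.continuousOn_fderivWithin (udS hAB) le_rfl

lemma Dw_has (hu : IsClassicalSolution A B a α u) {t x : ℝ} (ht : 0 ≤ t)
    (hx : x ∈ Icc A B) :
    HasFDerivWithinAt (fun p : ℝ × ℝ => u p.1 p.2) (Dw A B u (t, x)) (Ici 0 ×ˢ Icc A B) (t, x) :=
  ((hu.c1.differentiableOn one_ne_zero) (t, x) ⟨ht, hx⟩).hasFDerivWithinAt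

lemma Dw_time (hu : IsClassicalSolution A B a α u) {t x : ℝ} (ht : 0 ≤ t)
    (hx : x ∈ Icc A B) :
    HasDerivWithinAt (fun s => u s x) (Dw A B u (t, x) (1, 0)) (Ici 0) t := by
  have h1 : HasDerivWithinAt (fun s : ℝ => ((s, x) : ℝ × ℝ)) (1, 0) (Ici 0) t :=
    (hasDerivWithinAt_id t _).prodMk (hasDerivWithinAt_const t _ x)
  exact (Dw_has hu ht hx).comp_hasDerivWithinAt t h1
    (fun s hs => (show (s, x) ∈ Ici (0:ℝ) ×ˢ Icc A B from ⟨hs, hx⟩))

lemma Dw_space (hu : IsClassicalSolution A B a α u) {t x : ℝ} (ht : 0 ≤ t)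
    (hx : x ∈ Icc A B) :
    HasDerivWithinAt (fun y => u t y) (Dw A B u (t, x) (0, 1)) (Icc A B) x := by
  have h1 : HasDerivWithinAt (fun y : ℝ => ((t, y) : ℝ × ℝ)) (0, 1) (Icc A B) x :=
    (hasDerivWithinAt_const x _ t).prodMk (hasDerivWithinAt_id x _)
  exact (Dw_has hu ht hx).comp_hasDerivWithinAt x h1
    (fun y hy => (show (t, y) ∈ Ici (0:ℝ) ×ˢ Icc A B from ⟨ht, hy⟩))

lemma timeDeriv_eq (hu : IsClassicalSolution A B a α u) {t x : ℝ} (ht : 0 ≤ t)
    (hx : x ∈ Icc A B) : timeDeriv u t x = Dw A B u (t, x) (1, 0) :=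
  (Dw_time hu ht hx).derivWithin (uniqueDiffOn_Ici 0 t ht)

lemma spaceDeriv_eq (hu : IsClassicalSolution A B a α u) {t x : ℝ} (ht : 0 ≤ t)
    (hx : x ∈ Ioo A B) : spaceDeriv u t x = Dw A B u (t, x) (0, 1) :=
  ((Dw_space hu ht ⟨hx.1.le, hx.2.le⟩).hasDerivAt (Icc_mem_nhds hx.1 hx.2)).deriv

lemma Dw_time_left (hu : IsClassicalSolution A B a α u) (hAB : A < B) {t : ℝ} (ht : 0 ≤ t) :
    Dw A B u (t, A) (1, 0) = 0 := by
  have h1 := (Dw_time hu ht (x := A) ⟨le_rfl, hAB.le⟩).derivWithin (uniqueDiffOn_Ici 0 t ht)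
  rw [← h1]
  have h2 : derivWithin (fun s => u s A) (Ici 0) t = derivWithin (fun _ => (0:ℝ)) (Ici 0) t :=
    derivWithin_congr (fun s hs => hu.bdry_left s hs) (hu.bdry_left t ht)
  rw [h2]; simp

lemma Dw_time_right (hu : IsClassicalSolution A B a α u) (hAB : A < B) {t : ℝ} (ht : 0 ≤ t) :
    Dw A B u (t, B) (1, 0) = 0 := by
  have h1 := (Dw_time hu ht (x := B) ⟨hAB.le, le_rfl⟩).derivWithin (uniqueDiffOn_Ici 0 t ht)
  rw [← h1]
  have h2 : derivWithin (fun s => u s B) (Ici 0) t = derivWithin (fun _ => (0:ℝ)) (Ici 0) t :=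
    derivWithin_congr (fun s hs => hu.bdry_right s hs) (hu.bdry_right t ht)
  rw [h2]; simp

/-- The folding map into the closed strip. -/
noncomputable def mp (A B : ℝ) (t x : ℝ) : ℝ × ℝ := (max t 0, A + fold (B - A) x)

lemma mp_mem (hAB : A < B) (t x : ℝ) : mp A B t x ∈ Ici (0:ℝ) ×ˢ Icc A B := by
  have h := fold_mem (sub_pos.2 hAB) x
  have h1 : (0:ℝ) ≤ max t 0 := le_max_right _ _
  have h2 : A + fold (B - A) x ∈ Icc A B := ⟨by linarith [h.1], by linarith [h.2]⟩
  exact ⟨h1, h2⟩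

/-- The Riemann invariant on the circle. -/
noncomputable def rt (A B : ℝ) (u : ℝ → ℝ → ℝ) (t x : ℝ) : ℝ :=
  sg (B - A) x * Dw A B u (mp A B t x) (1, 0) + Dw A B u (mp A B t x) (0, 1)

/-- The Riemann invariant in characteristic variables. -/
noncomputable def fB (A B : ℝ) (u : ℝ → ℝ → ℝ) (t y : ℝ) : ℝ := rt A B u t (y - max t 0)

/-- The displacement along the other family of characteristics. -/
noncomputable def vB (A B : ℝ) (u : ℝ → ℝ → ℝ) (t y : ℝ) : ℝ :=
  sg (B - A) (t - y) * u (max t 0) (A + fold (B - A) (t - y))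

lemma Dw_mp_cont (hAB : A < B) (hu : IsClassicalSolution A B a α u) :
    Continuous fun p : ℝ × ℝ => Dw A B u (mp A B p.1 p.2) := by
  apply (Dw_cont hAB hu).comp_continuous
  · unfold mp
    have := fold_cont (ℓ := B - A)
    fun_prop
  · intro p; exact mp_mem hAB _ _

lemma Dw_mp_zero (hAB : A < B) (hu : IsClassicalSolution A B a α u) {t x : ℝ}
    (h : sin (π * x / (B - A)) = 0) : Dw A B u (mp A B t x) (1, 0) = 0 := by
  unfold mp
  rcases fold_of_sin_zero x h with h' | h'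
  · rw [h', add_zero]; exact Dw_time_left hu hAB (le_max_right _ _)
  · rw [h', add_sub_cancel]; exact Dw_time_right hu hAB (le_max_right _ _)

lemma rt_cont (hAB : A < B) (hu : IsClassicalSolution A B a α u) :
    Continuous fun p : ℝ × ℝ => rt A B u p.1 p.2 := by
  have h := Dw_mp_cont hAB hu
  unfold rt
  apply Continuous.add
  · apply sg_mul_continuous continuous_snd
    · exact h.clm_apply continuous_const
    · intro p hp; exact Dw_mp_zero hAB hu hp
  · exact h.clm_apply continuous_const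

lemma rt_per (hAB : A < B) (u : ℝ → ℝ → ℝ) (t x : ℝ) : rt A B u t (x + 2 * (B - A)) = rt A B u t x := by
  unfold rt mp
  rw [sg_per (sub_pos.2 hAB), fold_per (sub_pos.2 hAB)]

lemma rt_neg (t x : ℝ) : rt A B u t (-x) =
    -(sg (B - A) x * Dw A B u (mp A B t x) (1, 0)) + Dw A B u (mp A B t x) (0, 1) := by
  unfold rt mp
  rw [sg_neg, fold_neg]; ring

lemma Dw_eventually (hu : IsClassicalSolution A B a α u) {t x : ℝ} (ht : 0 < t)
    (hx : x ∈ Ioo A B) :
    (Dw A B u) =ᶠ[nhds (t, x)] fderiv ℝ (fun p : ℝ × ℝ => u p.1 p.2) := by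
  have hopen : IsOpen (Ioi (0:ℝ) ×ˢ Ioo A B) := isOpen_Ioi.prod isOpen_Ioo
  filter_upwards [hopen.mem_nhds (show (t, x) ∈ Ioi (0:ℝ) ×ˢ Ioo A B from ⟨ht, hx⟩)] with p hp
  unfold Dw
  apply fderivWithin_of_mem_nhds
  apply Filter.mem_of_superset (hopen.mem_nhds hp)
  exact prod_mono Ioi_subset_Ici_self Ioo_subset_Icc_self

lemma c2At (hu : IsClassicalSolution A B a α u) {t x : ℝ} (ht : 0 < t)
    (hx : x ∈ Ioo A B) : ContDiffAt ℝ 2 (fun p : ℝ × ℝ => u p.1 p.2) (t, x) :=
  hu.c2.contDiffAt ((isOpen_Ioi.prod isOpen_Ioo).mem_nhds ⟨ht, hx⟩)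

lemma Dw_hasFDerivAt (hu : IsClassicalSolution A B a α u) {t x : ℝ} (ht : 0 < t)
    (hx : x ∈ Ioo A B) :
    HasFDerivAt (Dw A B u)
      (fderiv ℝ (fderiv ℝ (fun p : ℝ × ℝ => u p.1 p.2)) (t, x)) (t, x) := by
  have h1 : ContDiffAt ℝ 1 (fderiv ℝ (fun p : ℝ × ℝ => u p.1 p.2)) (t, x) :=
    (c2At hu ht hx).fderiv_right (by norm_num)
  exact (h1.differentiableAt one_ne_zero).hasFDerivAt.congr_of_eventuallyEq
    (Dw_eventually hu ht hx)

lemma utt_eq (hu : IsClassicalSolution A B a α u) {t x : ℝ} (ht : 0 < t)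
    (hx : x ∈ Ioo A B) :
    iteratedDeriv 2 (fun s => u s x) t
      = fderiv ℝ (fderiv ℝ (fun p : ℝ × ℝ => u p.1 p.2)) (t, x) (1, 0) (1, 0) := by
  have h1 : iteratedDeriv 2 (fun s => u s x) t = deriv (deriv (fun s => u s x)) t := by
    rw [iteratedDeriv_succ, iteratedDeriv_one]
  rw [h1]
  have h2 : deriv (fun s => u s x) =ᶠ[nhds t] fun s => Dw A B u (s, x) (1, 0) := by
    filter_upwards [Ioi_mem_nhds ht] with s hs
    exact ((Dw_time hu (le_of_lt hs) ⟨hx.1.le, hx.2.le⟩).hasDerivAt (Ici_mem_nhds hs)).deriv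
  rw [h2.deriv_eq]
  have h3 : HasDerivAt (fun s : ℝ => ((s, x) : ℝ × ℝ)) (1, 0) t :=
    (hasDerivAt_id t).prodMk (hasDerivAt_const t x)
  have h4 : HasDerivAt (fun s : ℝ => Dw A B u (s, x))
      (fderiv ℝ (fderiv ℝ (fun p : ℝ × ℝ => u p.1 p.2)) (t, x) (1, 0)) t :=
    (Dw_hasFDerivAt hu ht hx).comp_hasDerivAt t h3
  exact (h4.clm_apply (hasDerivAt_const t ((1:ℝ), (0:ℝ)))).deriv.trans (by simp)

lemma uxx_eq (hu : IsClassicalSolution A B a α u) {t x : ℝ} (ht : 0 < t)
    (hx : x ∈ Ioo A B) :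
    iteratedDeriv 2 (fun y => u t y) x
      = fderiv ℝ (fderiv ℝ (fun p : ℝ × ℝ => u p.1 p.2)) (t, x) (0, 1) (0, 1) := by
  have h1 : iteratedDeriv 2 (fun y => u t y) x = deriv (deriv (fun y => u t y)) x := by
    rw [iteratedDeriv_succ, iteratedDeriv_one]
  rw [h1]
  have h2 : deriv (fun y => u t y) =ᶠ[nhds x] fun y => Dw A B u (t, y) (0, 1) := by
    filter_upwards [Ioo_mem_nhds hx.1 hx.2] with y hy
    exact spaceDeriv_eq hu ht.le hy
  rw [h2.deriv_eq]
  have h3 : HasDerivAt (fun y : ℝ => ((t, y) : ℝ × ℝ)) (0, 1) x :=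
    (hasDerivAt_const x t).prodMk (hasDerivAt_id x)
  have h4 : HasDerivAt (fun y : ℝ => Dw A B u (t, y))
      (fderiv ℝ (fderiv ℝ (fun p : ℝ × ℝ => u p.1 p.2)) (t, x) (0, 1)) x :=
    (Dw_hasFDerivAt hu ht hx).comp_hasDerivAt x h3
  exact (h4.clm_apply (hasDerivAt_const x ((0:ℝ), (1:ℝ)))).deriv.trans (by simp)

/-- Derivative of the Riemann invariant along its characteristic, away from the boundary. -/
lemma fB_deriv_off (hAB : A < B) (hu : IsClassicalSolution A B a α u) {t y : ℝ} (ht : 0 < t)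
    (hs : sin (π * (y - t) / (B - A)) ≠ 0) :
    HasDerivAt (fun s => fB A B u s y)
      (-(g a α ((fB A B u t y - fB A B u t (2 * t - y)) / 2))) t := by
  have hℓ : 0 < B - A := sub_pos.2 hAB
  set σ := sg (B - A) (y - t) with hσ
  have hσσ : σ * σ = 1 := sg_sq hs
  set x := A + fold (B - A) (y - t) with hx
  have hfm := fold_mem_Ioo hℓ hs
  have hxI : x ∈ Ioo A B := ⟨by linarith [hfm.1], by linarith [hfm.2]⟩
  set D2 := fderiv ℝ (fderiv ℝ (fun p : ℝ × ℝ => u p.1 p.2)) (t, x) with hD2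
  -- the curve
  have hγ : HasDerivAt (fun s : ℝ => ((s, A + fold (B - A) (y - s)) : ℝ × ℝ)) (1, -σ) t := by
    have h1 : HasDerivAt (fun s : ℝ => y - s) (-1) t := by
      simpa using (hasDerivAt_id t).const_sub y
    have h2 := (fold_deriv hℓ hs).comp t h1
    have h3 := h2.const_add A
    have h4 : sg (B - A) (y - t) * -1 = -σ := by rw [hσ]; ring
    rw [h4] at h3
    exact (hasDerivAt_id t).prodMk h3
  have hD : HasDerivAt (fun s : ℝ => Dw A B u (s, A + fold (B - A) (y - s))) (D2 (1, -σ)) t := by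
    have := (Dw_hasFDerivAt hu ht hxI)
    exact this.comp_hasDerivAt t hγ
  have hD10 : HasDerivAt (fun s : ℝ => Dw A B u (s, A + fold (B - A) (y - s)) (1, 0))
      (D2 (1, -σ) (1, 0)) t :=
    (hD.clm_apply (hasDerivAt_const t ((1:ℝ), (0:ℝ)))).congr_deriv (by simp)
  have hD01 : HasDerivAt (fun s : ℝ => Dw A B u (s, A + fold (B - A) (y - s)) (0, 1))
      (D2 (1, -σ) (0, 1)) t :=
    (hD.clm_apply (hasDerivAt_const t ((0:ℝ), (1:ℝ)))).congr_deriv (by simp)
  have hsum := (hD10.const_mul σ).fun_add hD01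
  have hev : (fun s => fB A B u s y) =ᶠ[nhds t] fun s =>
      σ * Dw A B u (s, A + fold (B - A) (y - s)) (1, 0)
        + Dw A B u (s, A + fold (B - A) (y - s)) (0, 1) := by
    have hcont : ContinuousAt (fun s : ℝ => y - s) t := by fun_prop
    filter_upwards [Ioi_mem_nhds ht, hcont.eventually (sg_locally_const hs)] with s hs1 hs2
    have hmax : max s 0 = s := max_eq_left (le_of_lt hs1)
    simp only [fB, rt, mp, hmax]
    rw [hs2]
  refine (hsum.congr_of_eventuallyEq hev).congr_deriv ?_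
  -- values
  have hmax : max t 0 = t := max_eq_left ht.le
  have e1 : fB A B u t y = σ * Dw A B u (t, x) (1, 0) + Dw A B u (t, x) (0, 1) := by
    simp only [fB, rt, mp, hmax]; rfl
  have e2 : fB A B u t (2 * t - y) = -(σ * Dw A B u (t, x) (1, 0)) + Dw A B u (t, x) (0, 1) := by
    simp only [fB, hmax]
    rw [show 2 * t - y - t = -(y - t) by ring, rt_neg]
    simp only [mp, hmax]; rfl
  have e3 : (fB A B u t y - fB A B u t (2 * t - y)) / 2 = σ * Dw A B u (t, x) (1, 0) := by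
    rw [e1, e2]; ring
  have e4 : deriv (fun s => u s x) t = Dw A B u (t, x) (1, 0) :=
    ((Dw_time hu ht.le ⟨hxI.1.le, hxI.2.le⟩).hasDerivAt (Ici_mem_nhds ht)).deriv
  have hpde := hu.pde t ht x hxI
  rw [utt_eq hu ht hxI, uxx_eq hu ht hxI, e4, ← hD2] at hpde
  have hg : g a α (σ * Dw A B u (t, x) (1, 0)) = σ * g a α (Dw A B u (t, x) (1, 0)) := by
    have : σ = 1 ∨ σ = -1 := mul_self_eq_one_iff.1 hσσ
    rcases this with h | h
    · rw [h, one_mul, one_mul]
    · rw [h, neg_one_mul, neg_one_mul, g_neg]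
  rw [e3, hg]
  have hsym : D2 (1, 0) (0, 1) = D2 (0, 1) (1, 0) :=
    (c2At hu ht hxI).isSymmSndFDerivAt (by simp) _ _
  have hlin : D2 (1, -σ) = D2 (1, 0) - σ • D2 (0, 1) := by
    have : ((1:ℝ), -σ) = ((1:ℝ), (0:ℝ)) - σ • ((0:ℝ), (1:ℝ)) := by simp
    rw [this, map_sub, map_smul]
  rw [hlin]
  simp only [sub_apply, smul_apply, smul_eq_mul]
  have hpde' : g a α (Dw A B u (t, x) (1, 0)) = -(D2 (1, 0) (1, 0) - D2 (0, 1) (0, 1)) := by
    unfold g; linarith
  rw [hpde', hsym]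
  have : σ * (D2 (1, 0) (1, 0) - σ * D2 (0, 1) (1, 0)) + (D2 (0, 1) (1, 0) - σ * D2 (0, 1) (0, 1))
      = σ * (D2 (1, 0) (1, 0) - D2 (0, 1) (0, 1)) + (1 - σ * σ) * D2 (0, 1) (1, 0) := by ring
  rw [this, hσσ]; ring

lemma fB_cont (hAB : A < B) (hu : IsClassicalSolution A B a α u) :
    Continuous (uncurry (fB A B u)) := by
  have h := rt_cont hAB hu
  have h2 : Continuous fun p : ℝ × ℝ => ((p.1, p.2 - max p.1 0) : ℝ × ℝ) := by fun_prop
  have h3 := h.comp h2
  have h4 : uncurry (fB A B u) = (fun p : ℝ × ℝ => rt A B u p.1 p.2) ∘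
      fun p : ℝ × ℝ => ((p.1, p.2 - max p.1 0) : ℝ × ℝ) := by
    funext p
    simp only [uncurry, fB, Function.comp]
  rw [h4]
  exact h3

lemma fB_per (hAB : A < B) (t y : ℝ) : fB A B u t (y + 2 * (B - A)) = fB A B u t y := by
  unfold fB
  rw [show y + 2 * (B - A) - max t 0 = (y - max t 0) + 2 * (B - A) by ring, rt_per hAB]

lemma bad_countable (hAB : A < B) (y : ℝ) : {s : ℝ | sin (π * (y - s) / (B - A)) = 0}.Countable := by
  have h := sin_zero_countable (sub_pos.2 hAB)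
  have h2 : {s : ℝ | sin (π * (y - s) / (B - A)) = 0}
      = (fun s => y - s) ⁻¹' {x | sin (π * x / (B - A)) = 0} := rfl
  rw [h2]
  apply Set.Countable.preimage h
  intro p q hpq
  have hpq' : y - p = y - q := hpq
  linarith

lemma fB_integral (hAB : A < B) (hα : 0 < α) (hu : IsClassicalSolution A B a α u) (y : ℝ)
    {t₁ t₂ : ℝ} (h0 : 0 ≤ t₁) (h12 : t₁ ≤ t₂) :
    ∫ s in t₁..t₂, (-(g a α ((fB A B u s y - fB A B u s (2 * s - y)) / 2)))
      = fB A B u t₂ y - fB A B u t₁ y := by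
  have hc := fB_cont hAB hu
  have hg := continuous_g (a := a) hα
  apply integral_eq_of_hasDerivAt_off_countable_of_le (fun s => fB A B u s y) _ h12
    (bad_countable hAB y)
  · fun_prop
  · intro s hs
    exact fB_deriv_off hAB hu (lt_of_le_of_lt h0 hs.1.1) hs.2
  · apply Continuous.intervalIntegrable; fun_prop

lemma fB_deriv (hAB : A < B) (hα : 0 < α) (hu : IsClassicalSolution A B a α u) {t : ℝ}
    (ht : 0 < t) (y : ℝ) :
    HasDerivAt (fun s => fB A B u s y)
      (-(g a α ((fB A B u t y - fB A B u t (2 * t - y)) / 2))) t := by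
  have hc := fB_cont hAB hu
  have hg := continuous_g (a := a) hα
  have hh : Continuous fun s => -(g a α ((fB A B u s y - fB A B u s (2 * s - y)) / 2)) := by
    fun_prop
  have h1 : HasDerivAt (fun s => ∫ τ in (0:ℝ)..s,
      (-(g a α ((fB A B u τ y - fB A B u τ (2 * τ - y)) / 2))))
      (-(g a α ((fB A B u t y - fB A B u t (2 * t - y)) / 2))) t :=
    (hh.integral_hasStrictDerivAt 0 t).hasDerivAt
  have h2 := h1.const_add (fB A B u 0 y)
  apply h2.congr_of_eventuallyEq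
  filter_upwards [Ioi_mem_nhds ht] with s hs
  rw [fB_integral hAB hα hu y le_rfl (le_of_lt hs)]
  ring

lemma ux_bound (hAB : A < B) (hu : IsClassicalSolution A B a α u) {t K : ℝ} (ht : 0 ≤ t)
    (hK : ∀ z, |fB A B u t z| ≤ K) {x : ℝ} (hx : x ∈ Icc A B) :
    |Dw A B u (t, x) (0, 1)| ≤ K := by
  have hℓ : 0 < B - A := sub_pos.2 hAB
  have hmax : max t 0 = t := max_eq_left ht
  have hf : A + fold (B - A) (x - A) = x := by
    rw [fold_of_mem hℓ ⟨by linarith [hx.1], by linarith [hx.2]⟩]; ring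
  have e1 : fB A B u t (x - A + t) = sg (B - A) (x - A) * Dw A B u (t, x) (1, 0)
      + Dw A B u (t, x) (0, 1) := by
    simp only [fB, rt, mp, hmax]
    rw [show x - A + t - t = x - A by ring, hf]
  have e2 : fB A B u t (-(x - A) + t) = -(sg (B - A) (x - A) * Dw A B u (t, x) (1, 0))
      + Dw A B u (t, x) (0, 1) := by
    simp only [fB, hmax]
    rw [show -(x - A) + t - t = -(x - A) by ring, rt_neg]
    simp only [mp, hmax]
    rw [hf]
  have e3 : Dw A B u (t, x) (0, 1)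
      = (fB A B u t (x - A + t) + fB A B u t (-(x - A) + t)) / 2 := by
    rw [e1, e2]; ring
  rw [e3, abs_div, abs_two, div_le_iff₀ (by norm_num)]
  have := abs_add_le (fB A B u t (x - A + t)) (fB A B u t (-(x - A) + t))
  linarith [hK (x - A + t), hK (-(x - A) + t)]

lemma u_bound (hAB : A < B) (hu : IsClassicalSolution A B a α u) {t K : ℝ} (ht : 0 ≤ t)
    (hK : ∀ z, |fB A B u t z| ≤ K) {x : ℝ} (hx : x ∈ Icc A B) :
    |u t x| ≤ (B - A) * K := by
  have h1 := (convex_Icc A B).norm_image_sub_le_of_norm_hasDerivWithin_le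
    (f := fun y => u t y) (f' := fun y => Dw A B u (t, y) (0, 1)) (C := K)
    (fun y hy => Dw_space hu ht hy)
    (fun y hy => by rw [Real.norm_eq_abs]; exact ux_bound hAB hu ht hK hy)
    (left_mem_Icc.2 hAB.le) hx
  simp only [hu.bdry_left t ht, sub_zero, Real.norm_eq_abs] at h1
  have hK0 : 0 ≤ K := (abs_nonneg _).trans (hK 0)
  refine h1.trans ?_
  rw [abs_of_nonneg (by linarith [hx.1])]
  nlinarith [hx.2]

lemma vB_abs_le (hAB : A < B) {t y M : ℝ} (ht : 0 ≤ t)
    (hM : ∀ x ∈ Icc A B, |u t x| ≤ M) : |vB A B u t y| ≤ M := by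
  have hℓ : 0 < B - A := sub_pos.2 hAB
  have hmax : max t 0 = t := max_eq_left ht
  unfold vB
  rw [abs_mul, hmax]
  have h1 := sg_abs_le (ℓ := B - A) (t - y)
  have h2 := fold_mem hℓ (t - y)
  have h3 := hM (A + fold (B - A) (t - y)) ⟨by linarith [h2.1], by linarith [h2.2]⟩
  calc |sg (B - A) (t - y)| * |u t (A + fold (B - A) (t - y))|
      ≤ 1 * |u t (A + fold (B - A) (t - y))| := mul_le_mul_of_nonneg_right h1 (abs_nonneg _)
    _ ≤ M := by rw [one_mul]; exact h3

lemma u_cont (hu : IsClassicalSolution A B a α u) :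
    ContinuousOn (fun p : ℝ × ℝ => u p.1 p.2) (Ici 0 ×ˢ Icc A B) := hu.c1.continuousOn

lemma vB_cont (hAB : A < B) (hu : IsClassicalSolution A B a α u) (y : ℝ) :
    Continuous fun t => vB A B u t y := by
  have hℓ : 0 < B - A := sub_pos.2 hAB
  unfold vB
  apply sg_mul_continuous (by fun_prop)
  · have h1 : Continuous fun t : ℝ => ((max t 0, A + fold (B - A) (t - y)) : ℝ × ℝ) := by
      have := fold_cont (ℓ := B - A)
      fun_prop
    apply (u_cont hu).comp_continuous h1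
    intro t
    exact mp_mem hAB t (t - y)
  · intro t h
    rcases fold_of_sin_zero (t - y) h with h' | h'
    · rw [h', add_zero]; exact hu.bdry_left _ (le_max_right _ _)
    · rw [h', add_sub_cancel]; exact hu.bdry_right _ (le_max_right _ _)

lemma vB_deriv_off (hAB : A < B) (hu : IsClassicalSolution A B a α u) {t y : ℝ} (ht : 0 < t)
    (hs : sin (π * (t - y) / (B - A)) ≠ 0) :
    HasDerivAt (fun s => vB A B u s y) (fB A B u t (2 * t - y)) t := by
  have hℓ : 0 < B - A := sub_pos.2 hAB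
  set σ := sg (B - A) (t - y) with hσ
  have hσσ : σ * σ = 1 := sg_sq hs
  set x := A + fold (B - A) (t - y) with hx
  have hfm := fold_mem_Ioo hℓ hs
  have hxI : x ∈ Ioo A B := ⟨by linarith [hfm.1], by linarith [hfm.2]⟩
  have hγ : HasDerivAt (fun s : ℝ => ((s, A + fold (B - A) (s - y)) : ℝ × ℝ)) (1, σ) t := by
    have h1 : HasDerivAt (fun s : ℝ => s - y) 1 t := (hasDerivAt_id t).sub_const y
    have h2 := (fold_deriv hℓ hs).comp t h1
    have h3 := h2.const_add A
    rw [mul_one] at h3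
    exact (hasDerivAt_id t).prodMk h3
  have hU : HasFDerivAt (fun p : ℝ × ℝ => u p.1 p.2) (Dw A B u (t, x)) (t, x) := by
    apply (Dw_has hu ht.le ⟨hxI.1.le, hxI.2.le⟩).hasFDerivAt
    exact prod_mem_nhds (Ici_mem_nhds ht) (Icc_mem_nhds hxI.1 hxI.2)
  have hcomp : HasDerivAt (fun s : ℝ => u s (A + fold (B - A) (s - y)))
      (Dw A B u (t, x) (1, σ)) t := by
    have := hU.comp_hasDerivAt t hγ
    exact this
  have hev : (fun s => vB A B u s y) =ᶠ[nhds t] fun s =>
      σ * u s (A + fold (B - A) (s - y)) := by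
    have hcont : ContinuousAt (fun s : ℝ => s - y) t := by fun_prop
    filter_upwards [Ioi_mem_nhds ht, hcont.eventually (sg_locally_const hs)] with s hs1 hs2
    have hmax : max s 0 = s := max_eq_left (le_of_lt hs1)
    simp only [vB, hmax]
    rw [hs2]
  refine ((hcomp.const_mul σ).congr_of_eventuallyEq hev).congr_deriv ?_
  have hmax : max t 0 = t := max_eq_left ht.le
  simp only [fB, rt, mp, hmax]
  rw [show 2 * t - y - t = t - y by ring, ← hσ, ← hx]
  have : ((1:ℝ), σ) = ((1:ℝ), (0:ℝ)) + σ • ((0:ℝ), (1:ℝ)) := by simp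
  rw [this, map_add, map_smul, smul_eq_mul]
  have e : σ * (Dw A B u (t, x) (1, 0) + σ * Dw A B u (t, x) (0, 1))
      = σ * Dw A B u (t, x) (1, 0) + (σ * σ) * Dw A B u (t, x) (0, 1) := by ring
  rw [e, hσσ, one_mul]

lemma vB_prim (hAB : A < B) (hu : IsClassicalSolution A B a α u) (y : ℝ)
    {t₁ t₂ : ℝ} (h0 : 0 ≤ t₁) (h12 : t₁ ≤ t₂) :
    ∫ s in t₁..t₂, fB A B u s (2 * s - y) = vB A B u t₂ y - vB A B u t₁ y := by
  have hc := fB_cont hAB hu
  have hcount : {s : ℝ | sin (π * (s - y) / (B - A)) = 0}.Countable := by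
    have h := sin_zero_countable (sub_pos.2 hAB)
    have h2 : {s : ℝ | sin (π * (s - y) / (B - A)) = 0}
        = (fun s => s - y) ⁻¹' {x | sin (π * x / (B - A)) = 0} := rfl
    rw [h2]
    apply Set.Countable.preimage h
    intro p q hpq
    have hpq' : p - y = q - y := hpq
    linarith
  apply integral_eq_of_hasDerivAt_off_countable_of_le (fun s => vB A B u s y) _ h12 hcount
  · exact (vB_cont hAB hu y).continuousOn
  · intro s hs
    exact vB_deriv_off hAB hu (lt_of_le_of_lt h0 hs.1.1) hs.2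
  · apply Continuous.intervalIntegrable; fun_prop

/-- Energy of a classical solution. -/
lemma energy_eq (hAB : A < B) (hu : IsClassicalSolution A B a α u) {t : ℝ} (ht : 0 ≤ t) :
    Q (B - A) (fB A B u) t
      = 2 * ∫ x in A..B, ((timeDeriv u t x) ^ 2 + (spaceDeriv u t x) ^ 2) := by
  have hℓ : 0 < B - A := sub_pos.2 hAB
  have hmax : max t 0 = t := max_eq_left ht
  have hr := rt_cont hAB hu
  have hrc : Continuous fun x => rt A B u t x := by fun_prop
  have hrc2 : Continuous fun x => (rt A B u t x) ^ 2 := by fun_prop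
  have h1 : Q (B - A) (fB A B u) t = ∫ x in (0:ℝ)..(2 * (B - A)), (rt A B u t x) ^ 2 := by
    unfold Q fB
    rw [hmax, intervalIntegral.integral_comp_sub_right (fun x => (rt A B u t x) ^ 2)]
    have hper : Function.Periodic (fun x => (rt A B u t x) ^ 2) (2 * (B - A)) := fun x => by
      simp only [rt_per hAB]
    have := hper.intervalIntegral_add_eq (0 - t) 0
    rw [zero_add] at this
    rw [← this]
    congr 1
    ring
  have h2 : ∫ x in (0:ℝ)..(2 * (B - A)), (rt A B u t x) ^ 2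
      = (∫ x in (0:ℝ)..(B - A), (rt A B u t x) ^ 2) + ∫ x in (B - A)..(2 * (B - A)),
        (rt A B u t x) ^ 2 :=
    (intervalIntegral.integral_add_adjacent_intervals (hrc2.intervalIntegrable _ _)
      (hrc2.intervalIntegrable _ _)).symm
  have h3 : ∫ x in (B - A)..(2 * (B - A)), (rt A B u t x) ^ 2
      = ∫ x in (0:ℝ)..(B - A), (rt A B u t (-x)) ^ 2 := by
    have := intervalIntegral.integral_comp_sub_left (fun x => (rt A B u t x) ^ 2) (2 * (B - A))
      (a := 0) (b := B - A)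
    rw [sub_zero, show 2 * (B - A) - (B - A) = B - A by ring] at this
    rw [← this]
    congr 1
    funext x
    rw [show 2 * (B - A) - x = -x + 2 * (B - A) by ring, rt_per hAB]
  have c1 : Continuous fun x => (rt A B u t (-x)) ^ 2 := by fun_prop
  rw [h1, h2, h3, ← intervalIntegral.integral_add (hrc2.intervalIntegrable _ _)
    (c1.intervalIntegrable _ _), ← intervalIntegral.integral_const_mul]
  have h4 : ∫ x in A..B, 2 * ((timeDeriv u t x) ^ 2 + (spaceDeriv u t x) ^ 2)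
      = ∫ x in (0:ℝ)..(B - A), 2 * ((timeDeriv u t (x + A)) ^ 2
        + (spaceDeriv u t (x + A)) ^ 2) := by
    rw [intervalIntegral.integral_comp_add_right
      (fun x => 2 * ((timeDeriv u t x) ^ 2 + (spaceDeriv u t x) ^ 2))]
    congr 1 <;> ring
  rw [h4]
  apply intervalIntegral.integral_congr_ae
  have hnull : ({B - A} : Set ℝ)ᶜ ∈ ae volume := by
    rw [mem_ae_iff, compl_compl]; simp
  filter_upwards [hnull] with x hx hx'
  rw [uIoc_of_le hℓ.le] at hx'
  have hxI : x ∈ Ioo 0 (B - A) := ⟨hx'.1, lt_of_le_of_ne hx'.2 hx⟩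
  have hxAB : x + A ∈ Ioo A B := ⟨by linarith [hxI.1], by linarith [hxI.2]⟩
  rw [timeDeriv_eq hu ht ⟨hxAB.1.le, hxAB.2.le⟩, spaceDeriv_eq hu ht hxAB, rt_neg]
  unfold rt mp
  rw [sg_of_mem hℓ hxI, fold_of_mem hℓ ⟨hxI.1.le, hxI.2.le⟩, hmax, add_comm A x]
  ring

lemma u_sq_le (hAB : A < B) (hu : IsClassicalSolution A B a α u) {t : ℝ} (ht : 0 ≤ t) {x : ℝ}
    (hx : x ∈ Icc A B) : (u t x) ^ 2 ≤ (B - A) * Q (B - A) (fB A B u) t := by
  have hℓ : 0 < B - A := sub_pos.2 hAB
  have hmax : max t 0 = t := max_eq_left ht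
  have hfc := fB_cont hAB hu
  -- ux as a continuous function on the line
  set h : ℝ → ℝ := fun z => (fB A B u t (z + t) + fB A B u t (-z + t)) / 2 with hh
  have hc : Continuous h := by fun_prop
  have hux : ∀ z ∈ Icc 0 (B - A), Dw A B u (t, A + z) (0, 1) = h z := by
    intro z hz
    have hf : fold (B - A) z = z := fold_of_mem hℓ hz
    have e1 : fB A B u t (z + t) = sg (B - A) z * Dw A B u (t, A + z) (1, 0)
        + Dw A B u (t, A + z) (0, 1) := by
      simp only [fB, rt, mp, hmax]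
      rw [show z + t - t = z by ring, hf]
    have e2 : fB A B u t (-z + t) = -(sg (B - A) z * Dw A B u (t, A + z) (1, 0))
        + Dw A B u (t, A + z) (0, 1) := by
      simp only [fB, hmax]
      rw [show -z + t - t = -z by ring, rt_neg]
      simp only [mp, hmax]
      rw [hf]
    rw [hh]
    simp only
    rw [e1, e2]; ring
  have hxA : x - A ∈ Icc 0 (B - A) := ⟨by linarith [hx.1], by linarith [hx.2]⟩
  have h1 : ∫ z in (0:ℝ)..(x - A), h z = u t x - u t A := by
    have e : ∫ z in (0:ℝ)..(x - A), h z = (fun z => u t (A + z)) (x - A) - (fun z => u t (A + z)) 0 := by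
      apply intervalIntegral.integral_eq_sub_of_hasDerivAt_of_le (f := fun z => u t (A + z)) hxA.1
      · have h2 : ContinuousOn (fun y => u t y) (Icc A B) := fun y hy =>
          (Dw_space hu ht hy).continuousWithinAt
        apply h2.comp (by fun_prop)
        intro z hz
        have := hz.1
        have := hz.2
        exact ⟨by linarith, by linarith [hx.2]⟩
      · intro z hz
        have hz' : z ∈ Ioo 0 (B - A) := ⟨hz.1, by linarith [hz.2, hx.2]⟩
        have hzAB : A + z ∈ Ioo A B := ⟨by linarith [hz'.1], by linarith [hz'.2]⟩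
        have h3 := (Dw_space hu ht ⟨hzAB.1.le, hzAB.2.le⟩).hasDerivAt
          (Icc_mem_nhds hzAB.1 hzAB.2)
        rw [hux z ⟨hz'.1.le, hz'.2.le⟩] at h3
        exact h3.comp_const_add A z
      · exact hc.intervalIntegrable _ _
    rw [e]; simp
  rw [hu.bdry_left t ht, sub_zero] at h1
  rw [← h1]
  have h2 := sq_integral_le hc hxA.1
  rw [sub_zero] at h2
  refine h2.trans ?_
  have hnn : ∀ p q : ℝ, p ≤ q → 0 ≤ ∫ z in p..q, (h z) ^ 2 := fun p q hpq =>
    intervalIntegral.integral_nonneg hpq (fun z _ => sq_nonneg _)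
  have hc2 : Continuous fun z => (h z) ^ 2 := by fun_prop
  have h3 : ∫ z in (0:ℝ)..(x - A), (h z) ^ 2 ≤ ∫ z in (0:ℝ)..(2 * (B - A)), (h z) ^ 2 := by
    rw [← intervalIntegral.integral_add_adjacent_intervals (hc2.intervalIntegrable 0 (x - A))
      (hc2.intervalIntegrable (x - A) (2 * (B - A)))]
    have := hnn (x - A) (2 * (B - A)) (by linarith [hxA.2])
    linarith
  have h4 : ∫ z in (0:ℝ)..(2 * (B - A)), (h z) ^ 2 ≤ Q (B - A) (fB A B u) t := by
    have c1 : Continuous fun z => (fB A B u t (z + t)) ^ 2 := by fun_prop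
    have c2 : Continuous fun z => (fB A B u t (-z + t)) ^ 2 := by fun_prop
    have e1 : ∫ z in (0:ℝ)..(2 * (B - A)), (h z) ^ 2 ≤ ∫ z in (0:ℝ)..(2 * (B - A)),
        ((fB A B u t (z + t)) ^ 2 + (fB A B u t (-z + t)) ^ 2) / 2 := by
      apply intervalIntegral.integral_mono_on (by linarith)
      · exact hc2.intervalIntegrable _ _
      · apply Continuous.intervalIntegrable; fun_prop
      · intro z _
        rw [hh]
        simp only
        nlinarith [sq_nonneg (fB A B u t (z + t) - fB A B u t (-z + t))]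
    refine e1.trans (le_of_eq ?_)
    rw [intervalIntegral.integral_div, intervalIntegral.integral_add (c1.intervalIntegrable _ _)
      (c2.intervalIntegrable _ _)]
    have hper : Function.Periodic (fun z => (fB A B u t z) ^ 2) (2 * (B - A)) := fun z => by
      simp only [fB_per hAB]
    have e2 : ∫ z in (0:ℝ)..(2 * (B - A)), (fB A B u t (z + t)) ^ 2 = Q (B - A) (fB A B u) t := by
      rw [intervalIntegral.integral_comp_add_right (fun z => (fB A B u t z) ^ 2)]
      have hpq := hper.intervalIntegral_add_eq (0 + t) 0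
      rw [zero_add (2 * (B - A))] at hpq
      unfold Q
      rw [← hpq]
      congr 1
      ring
    have e3 : ∫ z in (0:ℝ)..(2 * (B - A)), (fB A B u t (-z + t)) ^ 2 = Q (B - A) (fB A B u) t := by
      have := integral_reflect (ℓ := B - A) (h := fun z => (fB A B u t z) ^ 2)
        (fun z => by simp only [fB_per hAB]) t
      unfold Q
      rw [← this]
      congr 1
      funext z
      rw [show -z + t = t - z by ring]
    rw [e2, e3]; ring
  have hQ := Q_nonneg (f := fB A B u) hℓ t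
  calc (x - A) * ∫ z in (0:ℝ)..(x - A), (h z) ^ 2
      ≤ (B - A) * Q (B - A) (fB A B u) t := by
        apply mul_le_mul hxA.2 (h3.trans h4) (hnn _ _ hxA.1) hℓ.le
    _ = _ := rfl

/-- Classical solutions give solutions in characteristic variables. -/
theorem charSol (hAB : A < B) (hα : 0 < α) (hu : IsClassicalSolution A B a α u) :
    CharSol (B - A) a α (fB A B u) (vB A B u) := by
  refine ⟨fB_cont hAB hu, fB_per hAB, fun t ht y => fB_deriv hAB hα hu ht y,
    fun y t₁ t₂ h0 h12 => vB_prim hAB hu y h0 h12, ?_, ?_⟩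
  · intro t ht y K hK
    exact vB_abs_le hAB ht (fun x hx => u_bound hAB hu ht hK hx)
  · intro t ht y
    have h1 : |vB A B u t y| ≤ Real.sqrt ((B - A) * Q (B - A) (fB A B u) t) := by
      apply vB_abs_le hAB ht
      intro x hx
      rw [← Real.sqrt_sq_eq_abs]
      exact Real.sqrt_le_sqrt (u_sq_le hAB hu ht hx)
    have h2 : 0 ≤ (B - A) * Q (B - A) (fB A B u) t :=
      mul_nonneg (sub_pos.2 hAB).le (Q_nonneg (sub_pos.2 hAB) t)
    rw [← sq_abs]
    calc |vB A B u t y| ^ 2 ≤ (Real.sqrt ((B - A) * Q (B - A) (fB A B u) t)) ^ 2 :=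
          pow_le_pow_left₀ (abs_nonneg _) h1 2
      _ = (B - A) * Q (B - A) (fB A B u) t := Real.sq_sqrt h2

end

end Pool.Agent.MP_4c4330_an
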