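import Pool.Agent.MP_4c4330_an.Nonlin

open Set Real MeasureTheory intervalIntegral Function

namespace Pool.Agent.MP_4c4330_an

/-- Solutions in characteristic variables on the circle of length `2ℓ`. -/
structure CharSol (ℓ a α : ℝ) (f v : ℝ → ℝ → ℝ) : Prop where
  cont : Continuous (uncurry f)
  per : ∀ t y, f t (y + 2 * ℓ) = f t y
  deriv : ∀ t > 0, ∀ y, HasDerivAt (fun s => f s y) (-(g a α ((f t y - f t (2 * t - y)) / 2))) t
  prim : ∀ y t₁ t₂, 0 ≤ t₁ → t₁ ≤ t₂ → ∫ s in t₁..t₂, f s (2 * s - y) = v t₂ y - v t₁ y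
  v_sup : ∀ t ≥ 0, ∀ y K, (∀ z, |f t z| ≤ K) → |v t y| ≤ ℓ * K
  v_energy : ∀ t ≥ 0, ∀ y, (v t y) ^ 2 ≤ ℓ * ∫ z in (0:ℝ)..(2 * ℓ), (f t z) ^ 2

/-- Reflection of a periodic integral. -/
lemma integral_reflect {ℓ : ℝ} {h : ℝ → ℝ} (hp : ∀ y, h (y + 2 * ℓ) = h y) (d : ℝ) :
    ∫ y in (0:ℝ)..(2 * ℓ), h (d - y) = ∫ y in (0:ℝ)..(2 * ℓ), h y := by
  rw [intervalIntegral.integral_comp_sub_left]
  have hper : Function.Periodic h (2 * ℓ) := hp
  have := hper.intervalIntegral_add_eq (d - 2 * ℓ) 0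
  rw [zero_add] at this
  rw [← this]
  congr 1
  ring

/-- Symmetrization. -/
lemma integral_symm_odd {ℓ : ℝ} {F G : ℝ → ℝ} (hF : Continuous F) (hG : Continuous G)
    (pF : ∀ y, F (y + 2 * ℓ) = F y) (pG : ∀ y, G (y + 2 * ℓ) = G y) {d : ℝ}
    (odd : ∀ y, G (d - y) = - G y) :
    ∫ y in (0:ℝ)..(2 * ℓ), F y * G y
      = ∫ y in (0:ℝ)..(2 * ℓ), ((F y - F (d - y)) / 2) * G y := by
  have h1 : ∫ y in (0:ℝ)..(2 * ℓ), F y * G y = - ∫ y in (0:ℝ)..(2 * ℓ), F (d - y) * G y := by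
    rw [← integral_reflect (h := fun y => F y * G y) (fun y => by rw [pF, pG]) d,
      ← intervalIntegral.integral_neg]
    congr 1
    funext y
    rw [odd]; ring
  have hFd : Continuous fun y => F (d - y) := by fun_prop
  have h2 : ∫ y in (0:ℝ)..(2 * ℓ), ((F y - F (d - y)) / 2) * G y
      = (1/2) * ((∫ y in (0:ℝ)..(2 * ℓ), F y * G y) - ∫ y in (0:ℝ)..(2 * ℓ), F (d - y) * G y) := by
    have c1 : Continuous fun y => F y * G y := by fun_prop
    have c2 : Continuous fun y => F (d - y) * G y := by fun_prop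
    rw [← intervalIntegral.integral_sub (c1.intervalIntegrable _ _)
      (c2.intervalIntegrable _ _), ← intervalIntegral.integral_const_mul]
    congr 1
    funext y
    ring
  rw [h2]
  linarith

/-- Fubini for continuous functions on rectangles. -/
lemma integral_swap_cont {F : ℝ → ℝ → ℝ} (hF : Continuous (uncurry F)) (a b c d : ℝ) :
    ∫ x in a..b, ∫ y in c..d, F x y = ∫ y in c..d, ∫ x in a..b, F x y := by
  apply intervalIntegral_intervalIntegral_swap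
  have h1 : IntegrableOn (uncurry F) (uIcc a b ×ˢ uIcc c d) := by
    apply ContinuousOn.integrableOn_compact
    · exact isCompact_uIcc.prod isCompact_uIcc
    · exact hF.continuousOn
  exact h1.mono_set (prod_mono uIoc_subset_uIcc uIoc_subset_uIcc)

/-- Evolution of the `L²` norm. -/
lemma sq_identity {ℓ : ℝ} {φ Γ : ℝ → ℝ → ℝ} (hφ : Continuous (uncurry φ))
    (hΓ : Continuous (uncurry Γ)) (hd : ∀ t > 0, ∀ y, HasDerivAt (fun s => φ s y) (-(Γ t y)) t)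
    {t₁ t₂ : ℝ} (h0 : 0 ≤ t₁) (h12 : t₁ ≤ t₂) :
    (∫ y in (0:ℝ)..(2 * ℓ), (φ t₂ y) ^ 2) - ∫ y in (0:ℝ)..(2 * ℓ), (φ t₁ y) ^ 2
      = -2 * ∫ s in t₁..t₂, ∫ y in (0:ℝ)..(2 * ℓ), φ s y * Γ s y := by
  have c2 : Continuous fun y => (φ t₂ y) ^ 2 := by fun_prop
  have c1 : Continuous fun y => (φ t₁ y) ^ 2 := by fun_prop
  rw [← intervalIntegral.integral_sub (c2.intervalIntegrable _ _) (c1.intervalIntegrable _ _),
    integral_swap_cont (F := fun s y => φ s y * Γ s y) (by fun_prop),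
    ← intervalIntegral.integral_const_mul]
  apply intervalIntegral.integral_congr
  intro y _
  simp only
  have h3 : ∫ s in t₁..t₂, 2 * φ s y * (-(Γ s y)) = (φ t₂ y) ^ 2 - (φ t₁ y) ^ 2 := by
    apply intervalIntegral.integral_eq_sub_of_hasDerivAt_of_le (f := fun s => (φ s y) ^ 2) h12
    · fun_prop
    · intro s hs
      have h4 := (hd s (lt_of_le_of_lt h0 hs.1) y)
      have h5 := h4.fun_pow 2
      refine h5.congr_deriv ?_
      norm_num
    · apply Continuous.intervalIntegrable; fun_prop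
  rw [← h3, ← intervalIntegral.integral_const_mul]
  congr 1
  funext s
  ring

section
variable {ℓ a α : ℝ} {f v : ℝ → ℝ → ℝ}

/-- The velocity in characteristic variables. -/
noncomputable def w (f : ℝ → ℝ → ℝ) (t y : ℝ) : ℝ := (f t y - f t (2 * t - y)) / 2

lemma w_cont (hf : CharSol ℓ a α f v) : Continuous (uncurry (w f)) := by
  have := hf.cont
  unfold w
  fun_prop

lemma w_odd (t y : ℝ) : w f t (2 * t - y) = - w f t y := by
  unfold w
  rw [show 2 * t - (2 * t - y) = y by ring]; ring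

lemma per_sub (hf : CharSol ℓ a α f v) (t y : ℝ) : f t (y - 2 * ℓ) = f t y := by
  have := hf.per t (y - 2 * ℓ)
  rw [sub_add_cancel] at this
  exact this.symm

lemma w_per (hf : CharSol ℓ a α f v) (t y : ℝ) : w f t (y + 2 * ℓ) = w f t y := by
  unfold w
  rw [hf.per, show 2 * t - (y + 2 * ℓ) = (2 * t - y) - 2 * ℓ by ring, per_sub hf]

lemma w_shift (hf : CharSol ℓ a α f v) (t y : ℝ) :
    w f (t + ℓ) y = (f (t + ℓ) y - f (t + ℓ) (2 * t - y)) / 2 := by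
  unfold w
  rw [show 2 * (t + ℓ) - y = (2 * t - y) + 2 * ℓ by ring, hf.per]

/-- `L²` norm squared. -/
noncomputable def Q (ℓ : ℝ) (f : ℝ → ℝ → ℝ) (t : ℝ) : ℝ := ∫ y in (0:ℝ)..(2 * ℓ), (f t y) ^ 2

/-- Dissipation. -/
noncomputable def Pd (ℓ a α : ℝ) (f : ℝ → ℝ → ℝ) (t : ℝ) : ℝ :=
  ∫ y in (0:ℝ)..(2 * ℓ), w f t y * g a α (w f t y)

lemma Pd_cont (hα : 0 < α) (hf : CharSol ℓ a α f v) : Continuous (Pd ℓ a α f) := by
  have h1 := w_cont hf
  have h2 := continuous_g (a := a) hα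
  unfold Pd
  fun_prop

lemma Pd_nonneg (hℓ : 0 < ℓ) (ha : 0 < a) (t : ℝ) : 0 ≤ Pd ℓ a α f t := by
  unfold Pd
  apply intervalIntegral.integral_nonneg (by linarith)
  intro y _
  exact mul_g_nonneg ha _

lemma Q_nonneg (hℓ : 0 < ℓ) (t : ℝ) : 0 ≤ Q ℓ f t := by
  unfold Q
  apply intervalIntegral.integral_nonneg (by linarith)
  intro y _
  positivity

/-- Energy identity. -/
lemma energy_identity (hα : 0 < α) (hf : CharSol ℓ a α f v) {t₁ t₂ : ℝ}
    (h0 : 0 ≤ t₁) (h12 : t₁ ≤ t₂) :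
    Q ℓ f t₂ - Q ℓ f t₁ = -2 * ∫ s in t₁..t₂, Pd ℓ a α f s := by
  have hw := w_cont hf
  have hg := continuous_g (a := a) hα
  have hc := hf.cont
  have h := sq_identity (ℓ := ℓ) (φ := f) (Γ := fun s y => g a α (w f s y)) hf.cont (by fun_prop)
    hf.deriv h0 h12
  unfold Q Pd
  rw [h]
  congr 2
  funext s
  rw [integral_symm_odd (F := f s) (G := fun y => g a α (w f s y)) (d := 2 * s) (by fun_prop)
    (by fun_prop) (hf.per s) (fun y => by simp only [w_per hf]) (fun y => by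
      simp only [w_odd, g_neg])]
  rfl

lemma Q_anti (hℓ : 0 < ℓ) (ha : 0 < a) (hα : 0 < α) (hf : CharSol ℓ a α f v) {t₁ t₂ : ℝ}
    (h0 : 0 ≤ t₁) (h12 : t₁ ≤ t₂) : Q ℓ f t₂ ≤ Q ℓ f t₁ := by
  have h1 := energy_identity hα hf h0 h12
  have h2 : 0 ≤ ∫ s in t₁..t₂, Pd ℓ a α f s :=
    intervalIntegral.integral_nonneg h12 (fun s _ => Pd_nonneg hℓ ha s)
  linarith

/-- Difference over half a period. -/
def dl (ℓ : ℝ) (f : ℝ → ℝ → ℝ) (t y : ℝ) : ℝ := f (t + ℓ) y - f t y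

lemma dl_cont (hf : CharSol ℓ a α f v) : Continuous (uncurry (dl ℓ f)) := by
  have := hf.cont
  unfold dl
  fun_prop

lemma dl_per (hf : CharSol ℓ a α f v) (t y : ℝ) : dl ℓ f t (y + 2 * ℓ) = dl ℓ f t y := by
  unfold dl
  rw [hf.per, hf.per]

lemma w_diff (hf : CharSol ℓ a α f v) (t y : ℝ) :
    w f (t + ℓ) y - w f t y = (dl ℓ f t y - dl ℓ f t (2 * t - y)) / 2 := by
  rw [w_shift hf]
  unfold w dl
  ring

/-- The nonlinear term in the evolution of `dl`. -/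
noncomputable def Gd (ℓ a α : ℝ) (f : ℝ → ℝ → ℝ) (t y : ℝ) : ℝ :=
  g a α (w f (t + ℓ) y) - g a α (w f t y)

lemma Gd_cont (hα : 0 < α) (hf : CharSol ℓ a α f v) : Continuous (uncurry (Gd ℓ a α f)) := by
  have := w_cont hf
  have h2 := continuous_g (a := a) hα
  unfold Gd
  fun_prop

lemma Gd_per (hf : CharSol ℓ a α f v) (t y : ℝ) :
    Gd ℓ a α f t (y + 2 * ℓ) = Gd ℓ a α f t y := by
  unfold Gd
  rw [w_per hf, w_per hf]

lemma w_shift_odd (hf : CharSol ℓ a α f v) (t y : ℝ) :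
    w f (t + ℓ) (2 * t - y) = - w f (t + ℓ) y := by
  rw [w_shift hf, w_shift hf, show 2 * t - (2 * t - y) = y by ring]; ring

lemma Gd_odd (hf : CharSol ℓ a α f v) (t y : ℝ) :
    Gd ℓ a α f t (2 * t - y) = - Gd ℓ a α f t y := by
  unfold Gd
  rw [w_shift_odd hf, w_odd, g_neg, g_neg]; ring

lemma dl_deriv (hℓ : 0 < ℓ) (hf : CharSol ℓ a α f v) (t : ℝ) (ht : 0 < t) (y : ℝ) :
    HasDerivAt (fun s => dl ℓ f s y) (-(Gd ℓ a α f t y)) t := by
  have h1 : HasDerivAt (fun s => f (s + ℓ) y) (-(g a α (w f (t + ℓ) y))) t := by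
    have := hf.deriv (t + ℓ) (by linarith) y
    exact this.comp_add_const t ℓ
  have h2 := h1.fun_sub (hf.deriv t ht y)
  unfold dl
  refine h2.congr_deriv ?_
  simp only [Gd, w]
  ring

/-- Squared norm of the difference. -/
noncomputable def Nd (ℓ : ℝ) (f : ℝ → ℝ → ℝ) (t : ℝ) : ℝ :=
  ∫ y in (0:ℝ)..(2 * ℓ), (dl ℓ f t y) ^ 2

lemma Nd_nonneg (hℓ : 0 < ℓ) (t : ℝ) : 0 ≤ Nd ℓ f t := by
  unfold Nd
  apply intervalIntegral.integral_nonneg (by linarith)
  intro y _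
  positivity

lemma Nd_anti (hℓ : 0 < ℓ) (ha : 0 < a) (hα : 0 < α) (hf : CharSol ℓ a α f v) {t₁ t₂ : ℝ}
    (h0 : 0 ≤ t₁) (h12 : t₁ ≤ t₂) : Nd ℓ f t₂ ≤ Nd ℓ f t₁ := by
  have h := sq_identity (ℓ := ℓ) (φ := dl ℓ f) (Γ := Gd ℓ a α f) (dl_cont hf) (Gd_cont hα hf)
    (dl_deriv hℓ hf) h0 h12
  have h2 : 0 ≤ ∫ s in t₁..t₂, ∫ y in (0:ℝ)..(2 * ℓ), dl ℓ f s y * Gd ℓ a α f s y := by
    apply intervalIntegral.integral_nonneg h12
    intro s _
    have hd := dl_cont hf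
    have hG := Gd_cont hα hf
    rw [integral_symm_odd (F := dl ℓ f s) (G := Gd ℓ a α f s) (d := 2 * s) (by fun_prop)
      (by fun_prop) (dl_per hf s) (Gd_per hf s) (Gd_odd hf s)]
    apply intervalIntegral.integral_nonneg (by linarith)
    intro y _
    rw [← w_diff hf]
    unfold Gd
    rcases le_total (w f s y) (w f (s + ℓ) y) with h | h
    · exact mul_nonneg (by linarith) (by linarith [g_mono ha hα h])
    · exact mul_nonneg_of_nonpos_of_nonpos (by linarith) (by linarith [g_mono ha hα h])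
  unfold Nd
  linarith

end

end Pool.Agent.MP_4c4330_an
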