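import Pool.Agent.MP_4c4330_an.Sup

open Set Real MeasureTheory intervalIntegral Function

namespace Pool.Agent.MP_4c4330_an

section
variable {ℓ a α : ℝ} {f v : ℝ → ℝ → ℝ}

lemma CharSol.neg (hf : CharSol ℓ a α f v) :
    CharSol ℓ a α (fun t y => -(f t y)) (fun t y => -(v t y)) := by
  have hc := hf.cont
  refine ⟨by fun_prop, fun t y => by simp only [hf.per], ?_, ?_, ?_, ?_⟩
  · intro t ht y
    have h := (hf.deriv t ht y).fun_neg
    refine h.congr_deriv ?_
    have : (-f t y - -f t (2 * t - y)) / 2 = -((f t y - f t (2 * t - y)) / 2) := by ring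
    rw [this, g_neg]
  · intro y t₁ t₂ h0 h12
    rw [intervalIntegral.integral_neg, hf.prim y t₁ t₂ h0 h12]; ring
  · intro t ht y K hK
    rw [abs_neg]
    exact hf.v_sup t ht y K (fun z => by have := hK z; rwa [abs_neg] at this)
  · intro t ht y
    have := hf.v_energy t ht y
    simp only [neg_sq]
    exact this

/-- Slope of the power barrier. -/
lemma pow_slope {β S s1 : ℝ} (hβ : 0 < β) (hS : 0 < S) (hs1 : 0 < s1) {s s' : ℝ}
    (hs : s1 / 2 ≤ s) (hss : s ≤ s') :
    -((β * 2 ^ (β + 1) * (S * s1 ^ (-β)) / s1) * (s' - s)) ≤ S * s' ^ (-β) - S * s ^ (-β) := by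
  rcases hss.eq_or_lt with rfl | hlt
  · simp
  · have hs0 : 0 < s := by linarith
    obtain ⟨c, hc, hce⟩ := exists_hasDerivAt_eq_slope (fun x => S * x ^ (-β))
      (fun x => S * (-β * x ^ (-β - 1))) hlt (by
        apply ContinuousOn.mul continuousOn_const
        apply ContinuousOn.rpow_const continuousOn_id
        intro x hx; left; simp only [id]; linarith [hx.1])
      (fun x hx => (Real.hasDerivAt_rpow_const (p := -β) (Or.inl (by linarith [hx.1]))).const_mul S)
    have h1 : S * s' ^ (-β) - S * s ^ (-β) = S * (-β * c ^ (-β - 1)) * (s' - s) := by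
      rw [hce]
      field_simp [(by linarith : s' - s ≠ 0)]
    rw [h1]
    have hc0 : 0 < c := by linarith [hc.1]
    have h2 : c ^ (-β - 1) ≤ (s1 / 2) ^ (-β - 1) :=
      Real.rpow_le_rpow_of_nonpos (by positivity) (by linarith [hc.1]) (by linarith)
    have h3 : (s1 / 2) ^ (-β - 1) = 2 ^ (β + 1) * s1 ^ (-β) / s1 := by
      rw [Real.div_rpow hs1.le (by norm_num), show -β - 1 = -(β + 1) by ring,
        Real.rpow_neg (by norm_num : (0:ℝ) ≤ 2), show -(β + 1) = -β - 1 by ring,
        Real.rpow_sub hs1, Real.rpow_one]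
      field_simp
    rw [h3] at h2
    have h4 : S * (β * c ^ (-β - 1)) ≤ β * 2 ^ (β + 1) * (S * s1 ^ (-β)) / s1 := by
      calc S * (β * c ^ (-β - 1)) ≤ S * (β * (2 ^ (β + 1) * s1 ^ (-β) / s1)) := by
            apply mul_le_mul_of_nonneg_left _ hS.le
            exact mul_le_mul_of_nonneg_left h2 hβ.le
        _ = _ := by ring
    nlinarith

/-- Contact with a power barrier. -/
lemma contact (ha : 0 < a) (hα : 0 < α) (hf : CharSol ℓ a α f v) {β S s0 s1 y : ℝ}
    (hβ : 0 < β) (hS : 0 < S) (hs0 : s1 / 2 ≤ s0) (hs1 : 0 < s1) (h01 : s0 < s1)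
    (hle : ∀ s ∈ Icc s0 s1, ∀ z, |f s z| ≤ S * s ^ (-β)) (heq : f s1 y = S * s1 ^ (-β))
    (hJ : v s1 y - v s0 y ≤ (s1 - s0) * (S * s1 ^ (-β)) / 8)
    (hA : 16 * (s1 - s0) * (β * 2 ^ (β + 1) * (S * s1 ^ (-β)) / s1) ≤ S * s1 ^ (-β))
    (hB : g a α (2 * (s1 - s0) * (β * 2 ^ (β + 1) * (S * s1 ^ (-β)) / s1))
      ≤ β * 2 ^ (β + 1) * (S * s1 ^ (-β)) / s1) :
    (3 / 8) * g a α ((S * s1 ^ (-β)) / 8) / (1 / 2 + 2 ^ β)
      ≤ 2 * (β * 2 ^ (β + 1) * (S * s1 ^ (-β)) / s1) := by
  have hlam : 0 < S * s1 ^ (-β) := by positivity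
  have hh : 0 < s1 - s0 := by linarith
  set σ : ℝ := β * 2 ^ (β + 1) * (S * s1 ^ (-β)) / s1 with hσ
  have hσ0 : 0 < σ := by positivity
  have hDst : (4 * (s1 - s0) * σ) / 2 = 2 * (s1 - s0) * σ := by ring
  have hs00 : 0 < s0 := by linarith
  have h := barrier (b := fun s => S * s ^ (-β)) (B := 2 ^ β) (σ := σ)
    (Dst := 4 * (s1 - s0) * σ) ha hα hf hs00.le h01 hlam (by positivity) hσ0.le rfl heq
    (by
      apply ContinuousOn.mul continuousOn_const
      apply ContinuousOn.rpow_const continuousOn_id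
      intro x hx; left; simp only [id]; linarith [hx.1])
    (fun s hs s' hs' hss => pow_slope hβ hS hs1 (hs0.trans hs.1) hss)
    hle
    (fun s hs => by
      apply mul_le_mul_of_nonneg_left _ hS.le
      exact Real.rpow_le_rpow_of_nonpos (by linarith [hs.1]) hs.2 (by linarith))
    (fun s hs => by
      have h1 : s ^ (-β) ≤ (s1 / 2) ^ (-β) :=
        Real.rpow_le_rpow_of_nonpos (by positivity) (hs0.trans hs.1) (by linarith)
      have h2 : (s1 / 2) ^ (-β) = 2 ^ β * s1 ^ (-β) := by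
        rw [Real.div_rpow hs1.le (by norm_num), Real.rpow_neg (by norm_num : (0:ℝ) ≤ 2)]
        field_simp
      rw [h2] at h1
      calc S * s ^ (-β) ≤ S * (2 ^ β * s1 ^ (-β)) := mul_le_mul_of_nonneg_left h1 hS.le
        _ = 2 ^ β * (S * s1 ^ (-β)) := by ring)
    hJ (by positivity) (by linarith)
    (by
      rw [hDst]
      have : (s1 - s0) * (σ + g a α (2 * (s1 - s0) * σ)) ≤ (s1 - s0) * (σ + σ) :=
        mul_le_mul_of_nonneg_left (by linarith) hh.le
      nlinarith [mul_pos hh hσ0])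
  rw [hDst] at h
  linarith

lemma exists_per (hℓ : 0 < ℓ) (hf : CharSol ℓ a α f v) (s z : ℝ) :
    ∃ z' ∈ Icc 0 (2 * ℓ), f s z = f s z' := by
  have hp : Function.Periodic (f s) (2 * ℓ) := hf.per s
  obtain ⟨z', hz', h⟩ := hp.exists_mem_Ico₀ (by linarith) z
  exact ⟨z', ⟨hz'.1, hz'.2.le⟩, h⟩

/-- Maximum of the weighted function over a time interval. -/
lemma exists_max (hℓ : 0 < ℓ) (hf : CharSol ℓ a α f v) {β t0 τ : ℝ} (hβ : 0 < β)
    (h0τ : t0 ≤ τ) :
    ∃ s1 ∈ Icc t0 τ, ∃ y, ∀ s ∈ Icc t0 τ, ∀ z, s ^ β * |f s z| ≤ s1 ^ β * |f s1 y| := by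
  have hc := hf.cont
  have hpow : Continuous fun s : ℝ => s ^ β := Real.continuous_rpow_const hβ.le
  have hF : Continuous fun p : ℝ × ℝ => p.1 ^ β * |f p.1 p.2| := by fun_prop
  obtain ⟨⟨s1, y⟩, hp, hmax⟩ := (isCompact_Icc.prod isCompact_Icc :
    IsCompact (Icc t0 τ ×ˢ Icc (0:ℝ) (2 * ℓ))).exists_isMaxOn
    ⟨(t0, 0), ⟨le_rfl, h0τ⟩, ⟨le_rfl, by linarith⟩⟩ hF.continuousOn
  refine ⟨s1, hp.1, y, fun s hs z => ?_⟩
  obtain ⟨z', hz', h⟩ := exists_per hℓ hf s z
  rw [h]
  exact hmax (show (s, z') ∈ Icc t0 τ ×ˢ Icc (0:ℝ) (2 * ℓ) from ⟨hs, hz'⟩)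

/-- Instantaneous boundedness: `L²` control gives pointwise control at positive times. -/
lemma reg_aux (hℓ : 0 < ℓ) (ha : 0 < a) (hα : 0 < α) {CE : ℝ} (hCE : 0 < CE)
    (hf : CharSol ℓ a α f v) (hv : ∀ t ≥ 0, ∀ y, |v t y| ≤ CE) {β c A1 A2 A3 : ℝ}
    (hβ1 : 1 ≤ β) (hβ2 : α ≤ β) (hβ3 : 1 / α ≤ β) (hc : c = β * 2 ^ (β + 1))
    (hA1 : A1 = 256 * CE * c) (hA2 : A2 = a * (32 * CE * c) ^ (α + 1) / c)
    (hA3 : A3 = (16 / 3) * (1 / 2 + 2 ^ β) * c * 8 ^ (α + 1) / a)
    {τ : ℝ} (hτ : 0 < τ) (z : ℝ) :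
    |f τ z| ≤ A1 / τ + A2 / τ ^ α + (A3 / τ) ^ (1 / α) := by
  have hβ0 : 0 < β := by linarith
  have hc1 : 1 ≤ c := by
    rw [hc]
    have : (1:ℝ) ≤ 2 ^ (β + 1) := Real.one_le_rpow (by norm_num) (by linarith)
    nlinarith
  have hc0 : 0 < c := by linarith
  have hA10 : 0 < A1 := by rw [hA1]; positivity
  have hA20 : 0 < A2 := by rw [hA2]; positivity
  have hA30 : 0 < A3 := by rw [hA3]; positivity
  have hrhs : 0 < A1 / τ + A2 / τ ^ α + (A3 / τ) ^ (1 / α) := by positivity
  obtain ⟨s1, hs1, y, hmax⟩ := exists_max hℓ hf hβ0 hτ.le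
  set S := s1 ^ β * |f s1 y| with hS
  have hS0 : 0 ≤ S := by have := hs1.1; positivity
  rcases hS0.eq_or_lt with hS0 | hS0
  · have h1 := hmax τ ⟨hτ.le, le_rfl⟩ z
    rw [← hS0] at h1
    have h2 : 0 < τ ^ β := by positivity
    have h3 : |f τ z| ≤ 0 := by
      by_contra hcon
      push Not at hcon
      have := mul_pos h2 hcon
      linarith
    linarith
  · have hs10 : 0 < s1 := by
      rcases hs1.1.lt_or_eq with h | h
      · exact h
      · exfalso
        rw [hS, ← h, Real.zero_rpow hβ0.ne', zero_mul] at hS0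
        exact lt_irrefl _ hS0
    have hs1β : 0 < s1 ^ β := by positivity
    -- the value at the contact point
    set lam := S * s1 ^ (-β) with hlam
    have hlam0 : 0 < lam := by positivity
    have hlam_abs : |f s1 y| = lam := by
      rw [hlam, hS, Real.rpow_neg hs10.le]; field_simp
    have hbd : ∀ s ∈ Icc 0 τ, 0 < s → ∀ z, |f s z| ≤ S * s ^ (-β) := by
      intro s hs hs0 z
      have h1 := hmax s hs z
      have h2 : 0 < s ^ β := by positivity
      rw [Real.rpow_neg hs0.le, ← div_eq_mul_inv, le_div_iff₀ h2]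
      linarith
    -- trichotomy
    have tri : lam * s1 < A1 ∨ lam * s1 ^ α < A2 ∨ lam ^ α * s1 ≤ A3 := by
      by_contra hcon
      push Not at hcon
      obtain ⟨k1, k2, k3⟩ := hcon
      -- window
      set h := 16 * CE / lam with hh
      have hh0 : 0 < h := by positivity
      have hhs : h ≤ s1 / 2 := by
        rw [hh, div_le_iff₀ hlam0]
        rw [hA1] at k1
        nlinarith
      have key : ∀ F V : ℝ → ℝ → ℝ, CharSol ℓ a α F V → (∀ t ≥ 0, ∀ y, |V t y| ≤ CE) →
          (∀ s ∈ Icc (s1 - h) s1, ∀ z, |F s z| ≤ S * s ^ (-β)) → F s1 y = lam → False := by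
        intro F V hF hV hle heq
        have e1 : s1 - (s1 - h) = h := by ring
        have hJ : V s1 y - V (s1 - h) y ≤ (s1 - (s1 - h)) * (S * s1 ^ (-β)) / 8 := by
          rw [e1, ← hlam]
          have h1 := (abs_le.1 (hV s1 hs10.le y)).2
          have h2 := (abs_le.1 (hV (s1 - h) (by linarith) y)).1
          have h3 : h * lam / 8 = 2 * CE := by rw [hh]; field_simp; norm_num
          linarith
        have hσh : 2 * (s1 - (s1 - h)) * (β * 2 ^ (β + 1) * (S * s1 ^ (-β)) / s1)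
            = 32 * CE * c / s1 := by
          rw [e1, ← hlam, ← hc, hh]; field_simp; norm_num
        have hA' : 16 * (s1 - (s1 - h)) * (β * 2 ^ (β + 1) * (S * s1 ^ (-β)) / s1)
            ≤ S * s1 ^ (-β) := by
          have : 16 * (s1 - (s1 - h)) * (β * 2 ^ (β + 1) * (S * s1 ^ (-β)) / s1)
            = 8 * (2 * (s1 - (s1 - h)) * (β * 2 ^ (β + 1) * (S * s1 ^ (-β)) / s1)) := by ring
          rw [this, hσh, ← hlam, show 8 * (32 * CE * c / s1) = 256 * CE * c / s1 by ring,
            div_le_iff₀ hs10, ← hA1]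
          exact k1
        have hB' : g a α (2 * (s1 - (s1 - h)) * (β * 2 ^ (β + 1) * (S * s1 ^ (-β)) / s1))
            ≤ β * 2 ^ (β + 1) * (S * s1 ^ (-β)) / s1 := by
          rw [hσh, g_eq_of_nonneg hα (by positivity), ← hlam, ← hc,
            Real.div_rpow (by positivity) hs10.le, Real.rpow_add_one hs10.ne']
          have h1 : a * ((32 * CE * c) ^ (α + 1) / (s1 ^ α * s1)) = c * (A2 / s1 ^ α) / s1 := by
            rw [hA2]; field_simp
          rw [h1]
          have h2 : A2 / s1 ^ α ≤ lam := by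
            rw [div_le_iff₀ (by positivity)]; exact k2
          gcongr
        have hcon := contact ha hα hF (y := y) hβ0 hS0 (s0 := s1 - h) (by linarith) hs10
          (by linarith) hle heq hJ hA' hB'
        rw [← hlam, ← hc, g_eq_of_nonneg hα (by positivity), Real.div_rpow hlam0.le (by norm_num),
          Real.rpow_add_one hlam0.ne'] at hcon
        have h5 : lam ^ α * s1 ≤ A3 := by
          rw [hA3]
          have h2β : (0:ℝ) < 1 / 2 + 2 ^ β := by positivity
          have h8 : (0:ℝ) < 8 ^ (α + 1) := by positivity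
          rw [div_le_iff₀ h2β] at hcon
          rw [le_div_iff₀ ha]
          have h6 : 3 / 8 * (a * (lam ^ α * lam / 8 ^ (α + 1))) * (8 ^ (α + 1) * s1 / lam)
              ≤ 2 * (c * lam / s1) * (1 / 2 + 2 ^ β) * (8 ^ (α + 1) * s1 / lam) :=
            mul_le_mul_of_nonneg_right hcon (by positivity)
          have h7 : 3 / 8 * (a * (lam ^ α * lam / 8 ^ (α + 1))) * (8 ^ (α + 1) * s1 / lam)
              = 3 / 8 * (lam ^ α * s1 * a) := by field_simp
          have h9 : 2 * (c * lam / s1) * (1 / 2 + 2 ^ β) * (8 ^ (α + 1) * s1 / lam)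
              = 2 * c * (1 / 2 + 2 ^ β) * 8 ^ (α + 1) := by field_simp
          rw [h7, h9] at h6
          linarith
        linarith
      have hle1 : ∀ s ∈ Icc (s1 - h) s1, ∀ z, |f s z| ≤ S * s ^ (-β) := fun s hs z =>
        hbd s ⟨by linarith [hs.1], hs.2.trans hs1.2⟩ (by linarith [hs.1]) z
      rcases le_total 0 (f s1 y) with hp | hp
      · exact key f v hf hv hle1 (by rw [← hlam_abs, abs_of_nonneg hp])
      · exact key _ _ hf.neg (fun t ht y => by rw [abs_neg]; exact hv t ht y)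
          (fun s hs z => by rw [abs_neg]; exact hle1 s hs z)
          (by rw [← hlam_abs, abs_of_nonpos hp])
    -- conclude
    have hτz := hbd τ ⟨hτ.le, le_rfl⟩ hτ z
    have hratio : S * τ ^ (-β) = lam * (s1 / τ) ^ β := by
      rw [hlam, Real.div_rpow hs10.le hτ.le, Real.rpow_neg hτ.le, Real.rpow_neg hs10.le]
      field_simp
    rw [hratio] at hτz
    have hr0 : 0 < s1 / τ := by positivity
    have hr1 : s1 / τ ≤ 1 := by rw [div_le_one hτ]; exact hs1.2
    have hpw : ∀ γ : ℝ, γ ≤ β → (s1 / τ) ^ β ≤ (s1 / τ) ^ γ := fun γ hγ =>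
      Real.rpow_le_rpow_of_exponent_ge hr0 hr1 hγ
    rcases tri with h | h | h
    · have h1 : lam * (s1 / τ) ^ β ≤ A1 / τ := by
        calc lam * (s1 / τ) ^ β ≤ lam * (s1 / τ) ^ (1:ℝ) :=
              mul_le_mul_of_nonneg_left (hpw 1 hβ1) hlam0.le
          _ = lam * s1 / τ := by rw [Real.rpow_one]; ring
          _ ≤ A1 / τ := by gcongr
      have : 0 < A2 / τ ^ α + (A3 / τ) ^ (1 / α) := by positivity
      linarith
    · have h1 : lam * (s1 / τ) ^ β ≤ A2 / τ ^ α := by
        calc lam * (s1 / τ) ^ β ≤ lam * (s1 / τ) ^ α :=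
              mul_le_mul_of_nonneg_left (hpw α hβ2) hlam0.le
          _ = lam * s1 ^ α / τ ^ α := by rw [Real.div_rpow hs10.le hτ.le]; ring
          _ ≤ A2 / τ ^ α := by gcongr
      have h2 : 0 < A1 / τ := by positivity
      have h3 : 0 < (A3 / τ) ^ (1 / α) := by positivity
      linarith
    · have h1 : lam * (s1 / τ) ^ β ≤ (A3 / τ) ^ (1 / α) := by
        calc lam * (s1 / τ) ^ β ≤ lam * (s1 / τ) ^ (1 / α) :=
              mul_le_mul_of_nonneg_left (hpw _ hβ3) hlam0.le
          _ = (lam ^ α * s1 / τ) ^ (1 / α) := by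
              rw [show lam ^ α * s1 / τ = lam ^ α * (s1 / τ) by ring,
                Real.mul_rpow (by positivity) hr0.le,
                ← Real.rpow_mul hlam0.le, mul_one_div_cancel hα.ne', Real.rpow_one]
          _ ≤ (A3 / τ) ^ (1 / α) := by gcongr
      have h2 : 0 < A1 / τ := by positivity
      have h3 : 0 < A2 / τ ^ α := by positivity
      linarith

/-- Instantaneous boundedness, with a decreasing bound. -/
lemma reg (ℓ a α : ℝ) (hℓ : 0 < ℓ) (ha : 0 < a) (hα : 0 < α) (CE : ℝ) (hCE : 0 < CE) :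
    ∃ M : ℝ → ℝ, (∀ t > 0, 0 < M t) ∧ (∀ s t, 0 < s → s ≤ t → M t ≤ M s) ∧
      ∀ f v : ℝ → ℝ → ℝ, CharSol ℓ a α f v → (∀ t ≥ 0, ∀ y, |v t y| ≤ CE) →
        ∀ t > 0, ∀ z, |f t z| ≤ M t := by
  set β := 1 + α + 1 / α with hβ
  have hinv : 0 < 1 / α := by positivity
  set c := β * 2 ^ (β + 1) with hc
  have hβ0 : 0 < β := by positivity
  have hc0 : 0 < c := by positivity
  set A1 := 256 * CE * c with hA1
  set A2 := a * (32 * CE * c) ^ (α + 1) / c with hA2
  set A3 := (16 / 3) * (1 / 2 + 2 ^ β) * c * 8 ^ (α + 1) / a with hA3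
  have hA10 : 0 < A1 := by positivity
  have hA20 : 0 < A2 := by positivity
  have hA30 : 0 < A3 := by positivity
  refine ⟨fun t => A1 / t + A2 / t ^ α + (A3 / t) ^ (1 / α), ?_, ?_, ?_⟩
  · intro t ht; positivity
  · intro s t hs hst
    have ht : 0 < t := by linarith
    simp only
    gcongr
  · intro f v hf hv t ht z
    exact reg_aux hℓ ha hα hCE hf hv (by linarith) (by linarith) (by linarith) hc hA1 hA2 hA3 ht z

/-- Decay of the sup norm at the rate `t ^ (-1/α)`. -/
lemma sup_decay (ℓ a α : ℝ) (hℓ : 0 < ℓ) (ha : 0 < a) (hα : 0 < α) (CE : ℝ) (hCE : 0 < CE) :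
    ∃ T C : ℝ, 0 < T ∧ 0 < C ∧
      ∀ f v : ℝ → ℝ → ℝ, CharSol ℓ a α f v → (∀ t ≥ 0, ∀ y, |v t y| ≤ CE) →
        ∀ t ≥ T, ∀ z, |f t z| ≤ C * t ^ (-(1 / α)) := by
  obtain ⟨M, hM0, hMa, hM⟩ := reg ℓ a α hℓ ha hα CE hCE
  set β := 1 / α with hβ
  have hβ0 : 0 < β := by positivity
  set c := β * 2 ^ (β + 1) with hc
  have hc0 : 0 < c := by positivity
  set h := 16 * ℓ * 2 ^ β with hh
  have hh0 : 0 < h := by positivity
  set A3 := (16 / 3) * (1 / 2 + 2 ^ β) * c * 8 ^ (α + 1) / a with hA3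
  have hA30 : 0 < A3 := by positivity
  set B0 := a * (2 * h) ^ (α + 1) * c ^ α with hB0
  have hB00 : 0 < B0 := by positivity
  set T := 1 + h + 16 * h * c + M 1 * B0 ^ (1 / α) with hT
  have hM1 : 0 < M 1 := hM0 1 one_pos
  have hT1 : 1 ≤ T := by
    have : 0 < M 1 * B0 ^ (1 / α) := by positivity
    have : 0 < 16 * h * c := by positivity
    linarith
  have hTh : h ≤ T := by
    have : 0 < M 1 * B0 ^ (1 / α) := by positivity
    have : 0 < 16 * h * c := by positivity
    linarith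
  have hThc : 16 * h * c ≤ T := by
    have : 0 < M 1 * B0 ^ (1 / α) := by positivity
    linarith
  have hTM : M 1 * B0 ^ (1 / α) ≤ T := by
    have : 0 < 16 * h * c := by positivity
    linarith
  have hT0 : 0 < T := by linarith
  refine ⟨T, (T + h) ^ β * M T + A3 ^ (1 / α), hT0, by have := hM0 T hT0; positivity, ?_⟩
  intro f v hf hv τ hτ z
  have hτ0 : 0 < τ := by linarith
  obtain ⟨s1, hs1, y, hmax⟩ := exists_max hℓ hf hβ0 hτ
  have hs10 : 0 < s1 := lt_of_lt_of_le hT0 hs1.1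
  set S := s1 ^ β * |f s1 y| with hS
  have hS0 : 0 ≤ S := by positivity
  have hτβ : 0 < τ ^ β := by positivity
  suffices hSle : S ≤ (T + h) ^ β * M T + A3 ^ (1 / α) by
    have h1 := hmax τ ⟨hτ, le_rfl⟩ z
    rw [Real.rpow_neg hτ0.le, ← div_eq_mul_inv, le_div_iff₀ hτβ]
    linarith
  have hMT := hM0 T hT0
  rcases hS0.eq_or_lt with hS0 | hS0
  · rw [← hS0]; positivity
  rcases lt_or_ge s1 (T + h) with hlt | hge
  · -- early contact
    have h1 : |f s1 y| ≤ M T := (hM f v hf hv s1 hs10 y).trans (hMa T s1 hT0 hs1.1)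
    have h2 : s1 ^ β ≤ (T + h) ^ β := Real.rpow_le_rpow hs10.le hlt.le hβ0.le
    have h3 : S ≤ (T + h) ^ β * M T := by
      rw [hS]
      exact mul_le_mul h2 h1 (abs_nonneg _) (by positivity)
    have : 0 < A3 ^ (1 / α) := by positivity
    linarith
  · -- late contact
    set lam := S * s1 ^ (-β) with hlam
    have hlam0 : 0 < lam := by positivity
    have hlam_abs : |f s1 y| = lam := by
      rw [hlam, hS, Real.rpow_neg hs10.le]; field_simp
    have hlamM : lam ≤ M 1 := by
      rw [← hlam_abs]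
      exact (hM f v hf hv s1 hs10 y).trans (hMa 1 s1 one_pos (hT1.trans hs1.1))
    have hbd : ∀ s ∈ Icc T τ, ∀ z, |f s z| ≤ S * s ^ (-β) := by
      intro s hs z
      have hs0 : 0 < s := lt_of_lt_of_le hT0 hs.1
      have h1 := hmax s hs z
      have h2 : 0 < s ^ β := by positivity
      rw [Real.rpow_neg hs0.le, ← div_eq_mul_inv, le_div_iff₀ h2]
      linarith
    have claim : lam ^ α * s1 ≤ A3 := by
      by_contra hcon
      push Not at hcon
      have hs0 : s1 / 2 ≤ s1 - h := by linarith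
      have hs00 : T ≤ s1 - h := by linarith
      have key : ∀ F V : ℝ → ℝ → ℝ, CharSol ℓ a α F V →
          (∀ s ∈ Icc (s1 - h) s1, ∀ z, |F s z| ≤ S * s ^ (-β)) → F s1 y = lam → False := by
        intro F V hF hle heq
        have e1 : s1 - (s1 - h) = h := by ring
        have hbs0 : S * (s1 - h) ^ (-β) ≤ 2 ^ β * lam := by
          have h1 : (s1 - h) ^ (-β) ≤ (s1 / 2) ^ (-β) :=
            Real.rpow_le_rpow_of_nonpos (by positivity) hs0 (by linarith)
          have h2 : (s1 / 2) ^ (-β) = 2 ^ β * s1 ^ (-β) := by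
            rw [Real.div_rpow hs10.le (by norm_num), Real.rpow_neg (by norm_num : (0:ℝ) ≤ 2)]
            field_simp
          rw [h2] at h1
          calc S * (s1 - h) ^ (-β) ≤ S * (2 ^ β * s1 ^ (-β)) := mul_le_mul_of_nonneg_left h1 hS0.le
            _ = 2 ^ β * (S * s1 ^ (-β)) := by ring
        have h2β1 : (1:ℝ) ≤ 2 ^ β := Real.one_le_rpow (by norm_num) hβ0.le
        have hJ : V s1 y - V (s1 - h) y ≤ (s1 - (s1 - h)) * (S * s1 ^ (-β)) / 8 := by
          rw [e1, ← hlam]
          have h1 := hF.v_sup s1 hs10.le y (S * s1 ^ (-β))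
            (fun z => hle s1 ⟨by linarith, le_rfl⟩ z)
          have h2 := hF.v_sup (s1 - h) (by linarith) y (S * (s1 - h) ^ (-β))
            (fun z => hle (s1 - h) ⟨le_rfl, by linarith⟩ z)
          rw [← hlam] at h1
          have h1' := (abs_le.1 h1).2
          have h2' := (abs_le.1 h2).1
          have h3 : h * lam / 8 = 2 * (ℓ * (2 ^ β * lam)) := by rw [hh]; ring
          have h4 : ℓ * (S * (s1 - h) ^ (-β)) ≤ ℓ * (2 ^ β * lam) :=
            mul_le_mul_of_nonneg_left hbs0 hℓ.le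
          have h5 : ℓ * lam ≤ ℓ * (2 ^ β * lam) := by
            apply mul_le_mul_of_nonneg_left _ hℓ.le
            nlinarith
          linarith
        have hA' : 16 * (s1 - (s1 - h)) * (β * 2 ^ (β + 1) * (S * s1 ^ (-β)) / s1)
            ≤ S * s1 ^ (-β) := by
          rw [e1, ← hlam, ← hc, ← mul_div_assoc, div_le_iff₀ hs10]
          have : 16 * h * c ≤ s1 := by linarith
          nlinarith
        have hσh : 2 * (s1 - (s1 - h)) * (β * 2 ^ (β + 1) * (S * s1 ^ (-β)) / s1)
            = 2 * h * c * (lam / s1) := by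
          rw [e1, ← hlam, ← hc]; ring
        have hB' : g a α (2 * (s1 - (s1 - h)) * (β * 2 ^ (β + 1) * (S * s1 ^ (-β)) / s1))
            ≤ β * 2 ^ (β + 1) * (S * s1 ^ (-β)) / s1 := by
          rw [hσh, g_eq_of_nonneg hα (by positivity), ← hlam, ← hc]
          have hr0 : 0 < lam / s1 := by positivity
          have h1 : a * (2 * h * c * (lam / s1)) ^ (α + 1)
              = B0 * (lam / s1) ^ α * (c * (lam / s1)) := by
            rw [Real.mul_rpow (by positivity) hr0.le, Real.mul_rpow (by positivity) hc0.le,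
              Real.rpow_add_one hc0.ne', Real.rpow_add_one hr0.ne', hB0]
            ring
          rw [h1]
          have h2 : lam / s1 ≤ (B0 ^ (1 / α))⁻¹ := by
            rw [div_le_iff₀ hs10, ← div_eq_inv_mul, le_div_iff₀ (by positivity)]
            calc lam * B0 ^ (1 / α) ≤ M 1 * B0 ^ (1 / α) :=
                  mul_le_mul_of_nonneg_right hlamM (by positivity)
              _ ≤ s1 := by linarith
          have h3 : (lam / s1) ^ α ≤ B0⁻¹ := by
            calc (lam / s1) ^ α ≤ ((B0 ^ (1 / α))⁻¹) ^ α := Real.rpow_le_rpow hr0.le h2 hα.le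
              _ = B0⁻¹ := by
                rw [Real.inv_rpow (by positivity), ← Real.rpow_mul hB00.le,
                  one_div_mul_cancel hα.ne', Real.rpow_one]
          have h4 : B0 * (lam / s1) ^ α ≤ 1 := by
            calc B0 * (lam / s1) ^ α ≤ B0 * B0⁻¹ := mul_le_mul_of_nonneg_left h3 hB00.le
              _ = 1 := mul_inv_cancel₀ hB00.ne'
          have h5 : 0 < c * (lam / s1) := by positivity
          calc B0 * (lam / s1) ^ α * (c * (lam / s1)) ≤ 1 * (c * (lam / s1)) :=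
                mul_le_mul_of_nonneg_right h4 h5.le
            _ = c * lam / s1 := by ring
        have hcon' := contact ha hα hF (y := y) hβ0 hS0 (s0 := s1 - h) hs0 hs10
          (by linarith) hle heq hJ hA' hB'
        rw [← hlam, ← hc, g_eq_of_nonneg hα (by positivity), Real.div_rpow hlam0.le (by norm_num),
          Real.rpow_add_one hlam0.ne'] at hcon'
        have h5 : lam ^ α * s1 ≤ A3 := by
          rw [hA3]
          have h2β : (0:ℝ) < 1 / 2 + 2 ^ β := by positivity
          have h8 : (0:ℝ) < 8 ^ (α + 1) := by positivity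
          rw [div_le_iff₀ h2β] at hcon'
          rw [le_div_iff₀ ha]
          have h6 : 3 / 8 * (a * (lam ^ α * lam / 8 ^ (α + 1))) * (8 ^ (α + 1) * s1 / lam)
              ≤ 2 * (c * lam / s1) * (1 / 2 + 2 ^ β) * (8 ^ (α + 1) * s1 / lam) :=
            mul_le_mul_of_nonneg_right hcon' (by positivity)
          have h7 : 3 / 8 * (a * (lam ^ α * lam / 8 ^ (α + 1))) * (8 ^ (α + 1) * s1 / lam)
              = 3 / 8 * (lam ^ α * s1 * a) := by field_simp
          have h9 : 2 * (c * lam / s1) * (1 / 2 + 2 ^ β) * (8 ^ (α + 1) * s1 / lam)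
              = 2 * c * (1 / 2 + 2 ^ β) * 8 ^ (α + 1) := by field_simp
          rw [h7, h9] at h6
          linarith
        linarith
      have hle1 : ∀ s ∈ Icc (s1 - h) s1, ∀ z, |f s z| ≤ S * s ^ (-β) := fun s hs z =>
        hbd s ⟨by linarith [hs.1], hs.2.trans hs1.2⟩ z
      rcases le_total 0 (f s1 y) with hp | hp
      · exact key f v hf hle1 (by rw [← hlam_abs, abs_of_nonneg hp])
      · exact key _ _ hf.neg
          (fun s hs z => by rw [abs_neg]; exact hle1 s hs z)
          (by rw [← hlam_abs, abs_of_nonpos hp])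
    have hSeq : S = lam * s1 ^ β := by
      rw [hlam, Real.rpow_neg hs10.le]; field_simp
    have h1 : S ≤ A3 ^ (1 / α) := by
      calc S = (lam ^ α * s1) ^ (1 / α) := by
            rw [hSeq, Real.mul_rpow (by positivity) hs10.le, ← Real.rpow_mul hlam0.le,
              mul_one_div_cancel hα.ne', Real.rpow_one]
        _ ≤ A3 ^ (1 / α) := by gcongr
    have : 0 < (T + h) ^ β * M T := by positivity
    linarith

end

end Pool.Agent.MP_4c4330_an
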