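import Mathlib

open Set MeasureTheory

namespace Pool.Agent.MP_4c4330_an

/-- Classical solutions of `u_tt - u_xx + a |u_t|^α u_t = 0` on `(0,∞) × (A,B)` with homogeneous
Dirichlet boundary conditions: `u` is `C^1` on `[0,∞) × [A,B]`, `C^2` on `(0,∞) × (A,B)`. -/
structure IsClassicalSolution (A B a α : ℝ) (u : ℝ → ℝ → ℝ) : Prop where
  c1 : ContDiffOn ℝ 1 (fun p : ℝ × ℝ => u p.1 p.2) (Ici 0 ×ˢ Icc A B)
  c2 : ContDiffOn ℝ 2 (fun p : ℝ × ℝ => u p.1 p.2) (Ioi 0 ×ˢ Ioo A B)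
  bdry_left : ∀ t ≥ 0, u t A = 0
  bdry_right : ∀ t ≥ 0, u t B = 0
  pde : ∀ t > 0, ∀ x ∈ Ioo A B,
    iteratedDeriv 2 (fun s => u s x) t - iteratedDeriv 2 (fun y => u t y) x
      + a * |deriv (fun s => u s x) t| ^ α * deriv (fun s => u s x) t = 0

/-- The space derivative `u_x(t, ·)` on `(A, B)`. -/
noncomputable def spaceDeriv (u : ℝ → ℝ → ℝ) (t x : ℝ) : ℝ := deriv (fun y => u t y) x

/-- The time derivative `u_t(t, x)` for `t ≥ 0` (one-sided at `t = 0`). -/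
noncomputable def timeDeriv (u : ℝ → ℝ → ℝ) (t x : ℝ) : ℝ := derivWithin (fun s => u s x) (Ici 0) t

end Pool.Agent.MP_4c4330_an
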