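import Pool.Agent.MP_4c4330_an.Resolvent

open MeasureTheory Set Filter Topology
open scoped ENNReal ContDiff

set_option linter.unusedSectionVars false

namespace Pool.Agent.MP_4c4330_an

noncomputable section
variable {E : Type*} [NormedAddCommGroup E] [InnerProductSpace ℝ E] [FiniteDimensional ℝ E]
  [MeasurableSpace E] [BorelSpace E] {Ω : Set E} {a α : ℝ} {φ ψ : E → ℝ}

/-- The Laplacian. -/
def lap (φ : E → ℝ) (x : E) : ℝ :=
  ∑ i, fderiv ℝ (fun y => fderiv ℝ φ y (stdOrthonormalBasis ℝ E i)) x (stdOrthonormalBasis ℝ E i)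

lemma IsTest.cont (h : IsTest Ω φ) : Continuous φ := h.1.continuous

lemma IsTest.dir (h : IsTest Ω φ) (v : E) : IsTest Ω (fun y => fderiv ℝ φ y v) := by
  refine ⟨?_, ?_, ?_⟩
  · exact (h.1.fderiv_right (m := ∞) (by simp)).clm_apply contDiff_const
  · exact h.2.1.fderiv_apply ℝ v
  · exact (tsupport_fderiv_apply_subset ℝ v).trans h.2.2

lemma IsTest.grad_cont (h : IsTest Ω φ) : Continuous (gradient φ) := by
  unfold gradient
  exact (InnerProductSpace.toDual ℝ E).symm.continuous.comp (h.1.continuous_fderiv (by simp))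

lemma IsTest.grad_supp (h : IsTest Ω φ) : HasCompactSupport (gradient φ) := by
  have := (h.2.1.fderiv (𝕜 := ℝ)).comp_left (g := (InnerProductSpace.toDual ℝ E).symm) (by simp)
  exact this

lemma IsTest.lap_cont (h : IsTest Ω φ) : Continuous (lap φ) := by
  unfold lap
  apply continuous_finsetSum
  intro i _
  exact ((h.dir _).dir _).cont

lemma IsTest.lap_supp (h : IsTest Ω φ) : HasCompactSupport (lap φ) := by
  unfold lap
  have : ∀ s : Finset (Fin (Module.finrank ℝ E)), HasCompactSupport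
      (fun x => ∑ i ∈ s, fderiv ℝ (fun y => fderiv ℝ φ y (stdOrthonormalBasis ℝ E i)) x
        (stdOrthonormalBasis ℝ E i)) := by
    intro s
    induction s using Finset.induction_on with
    | empty =>
      simp only [Finset.sum_empty]
      exact HasCompactSupport.zero
    | insert i s hi ih =>
      simp only [Finset.sum_insert hi]
      exact ((h.dir _).dir _).2.1.add ih
  exact this Finset.univ

lemma IsTest.memLp (h : IsTest Ω φ) (p : ℝ≥0∞) : MemLp φ p (volume.restrict Ω) :=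
  (h.cont.memLp_of_hasCompactSupport h.2.1).restrict Ω

lemma IsTest.grad_memLp (h : IsTest Ω φ) (p : ℝ≥0∞) : MemLp (gradient φ) p (volume.restrict Ω) :=
  (h.grad_cont.memLp_of_hasCompactSupport h.grad_supp).restrict Ω

lemma IsTest.lap_memLp (h : IsTest Ω φ) (p : ℝ≥0∞) : MemLp (lap φ) p (volume.restrict Ω) :=
  (h.lap_cont.memLp_of_hasCompactSupport h.lap_supp).restrict Ω

lemma IsTest.g_memLp (hα : 0 < α) (h : IsTest Ω φ) (p : ℝ≥0∞) :
    MemLp (fun x => g a α (φ x)) p (volume.restrict Ω) := by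
  apply MemLp.restrict
  apply ((continuous_g hα).comp h.cont).memLp_of_hasCompactSupport
  exact h.2.1.comp_left (g := g a α) g_zero

lemma IsTest.inH10 (h : IsTest Ω φ) :
    InH10 Ω ((h.memLp 2).toLp φ) ((h.grad_memLp 2).toLp (gradient φ)) :=
  subset_closure ⟨φ, h, (h.memLp 2).coeFn_toLp, (h.grad_memLp 2).coeFn_toLp⟩

lemma setInt_eq (hφ : IsTest Ω φ) {f : E → ℝ} (hf : ∀ x, φ x = 0 → f x = 0) :
    ∫ x in Ω, f x = ∫ x, f x := by
  apply setIntegral_eq_integral_of_forall_compl_eq_zero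
  intro x hx
  apply hf
  by_contra h
  exact hx (hφ.2.2 (subset_tsupport φ h))

/-- Integration by parts for test functions. -/
lemma green_test (hφ : IsTest Ω φ) (hψ : IsTest Ω ψ) :
    ∫ x in Ω, inner ℝ (gradient ψ x) (gradient φ x) = - ∫ x in Ω, ψ x * lap φ x := by
  set b := stdOrthonormalBasis ℝ E with hb
  have h1 : ∀ x, inner ℝ (gradient ψ x) (gradient φ x)
      = ∑ i, fderiv ℝ ψ x (b i) * fderiv ℝ φ x (b i) := by
    intro x
    rw [← b.sum_inner_mul_inner (gradient ψ x) (gradient φ x)]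
    apply Finset.sum_congr rfl
    intro i _
    have e1 : inner ℝ (gradient ψ x) (b i) = fderiv ℝ ψ x (b i) := by
      unfold gradient; rw [InnerProductSpace.toDual_symm_apply]
    have e2 : inner ℝ (b i) (gradient φ x) = fderiv ℝ φ x (b i) := by
      rw [real_inner_comm]; unfold gradient; rw [InnerProductSpace.toDual_symm_apply]
    rw [e1, e2]
  have i0 : ∫ x in Ω, ψ x * lap φ x = ∫ x, ψ x * lap φ x :=
    setInt_eq hψ (fun x hx => by rw [hx, zero_mul])
  have i1 : ∀ i, Integrable (fun x => fderiv ℝ ψ x (b i) * fderiv ℝ φ x (b i)) := by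
    intro i
    apply Continuous.integrable_of_hasCompactSupport
    · exact (hψ.dir _).cont.mul (hφ.dir _).cont
    · exact (hψ.dir _).2.1.mul_right
  have i2 : ∀ i, Integrable (fun x => ψ x * fderiv ℝ (fun y => fderiv ℝ φ y (b i)) x (b i)) := by
    intro i
    apply Continuous.integrable_of_hasCompactSupport
    · exact hψ.cont.mul ((hφ.dir _).dir _).cont
    · exact hψ.2.1.mul_right
  have i3 : ∀ i, Integrable (fun x => ψ x * fderiv ℝ φ x (b i)) := by
    intro i
    apply Continuous.integrable_of_hasCompactSupport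
    · exact hψ.cont.mul (hφ.dir _).cont
    · exact hψ.2.1.mul_right
  have i4 : ∫ x in Ω, inner ℝ (gradient ψ x) (gradient φ x)
      = ∫ x, inner ℝ (gradient ψ x) (gradient φ x) := by
    apply setIntegral_eq_integral_of_forall_compl_eq_zero
    intro x hx
    have : gradient ψ x = 0 := by
      unfold gradient
      have h2 : fderiv ℝ ψ x = 0 := by
        by_contra h
        exact hx (hψ.2.2 (support_fderiv_subset ℝ h))
      rw [h2, map_zero]
    rw [this, inner_zero_left]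
  rw [i4, i0]
  simp only [h1]
  rw [integral_finsetSum _ (fun i _ => i1 i)]
  unfold lap
  simp only [Finset.mul_sum]
  rw [integral_finsetSum _ (fun i _ => i2 i), ← Finset.sum_neg_distrib]
  apply Finset.sum_congr rfl
  intro i _
  have := integral_mul_fderiv_eq_neg_fderiv_mul_of_integrable (μ := (volume : Measure E))
    (f := ψ) (g := fun y => fderiv ℝ φ y (b i)) (v := b i) (i1 i) (i2 i) (i3 i)
    (fun x _ => hψ.differentiable x) (fun x _ => (hφ.dir _).differentiable x)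
  rw [this, neg_neg]

/-- Green's formula in `H¹₀`. -/
lemma green (hφ : IsTest Ω φ) {w : Lp ℝ 2 (volume.restrict Ω)} {r : Lp E 2 (volume.restrict Ω)}
    (h : InH10 Ω w r) : inner ℝ r ((hφ.grad_memLp 2).toLp (gradient φ))
      = - inner ℝ w ((hφ.lap_memLp 2).toLp (lap φ)) := by
  have hcl : IsClosed {z : Lp ℝ 2 (volume.restrict Ω) × Lp E 2 (volume.restrict Ω) |
      inner ℝ z.2 ((hφ.grad_memLp 2).toLp (gradient φ))
      = - inner ℝ z.1 ((hφ.lap_memLp 2).toLp (lap φ))} := by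
    apply isClosed_eq
    · exact continuous_snd.inner continuous_const
    · exact (continuous_fst.inner continuous_const).neg
  have hsub : (testPairs Ω : Set _) ⊆ {z : Lp ℝ 2 (volume.restrict Ω) × Lp E 2 (volume.restrict Ω) |
      inner ℝ z.2 ((hφ.grad_memLp 2).toLp (gradient φ))
      = - inner ℝ z.1 ((hφ.lap_memLp 2).toLp (lap φ))} := by
    rintro z ⟨ψ, hψ, h1, h2⟩
    show inner ℝ z.2 ((hφ.grad_memLp 2).toLp (gradient φ))
      = - inner ℝ z.1 ((hφ.lap_memLp 2).toLp (lap φ))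
    rw [L2.inner_def, inner_Lp_real]
    have e1 : ∫ x in Ω, inner ℝ (z.2 x) ((hφ.grad_memLp 2).toLp (gradient φ) x)
        = ∫ x in Ω, inner ℝ (gradient ψ x) (gradient φ x) := by
      apply integral_congr_ae
      filter_upwards [h2, (hφ.grad_memLp 2).coeFn_toLp] with x hx1 hx2
      rw [hx1, hx2]
    have e2 : ∫ x in Ω, z.1 x * ((hφ.lap_memLp 2).toLp (lap φ) x)
        = ∫ x in Ω, ψ x * lap φ x := by
      apply integral_congr_ae
      filter_upwards [h1, (hφ.lap_memLp 2).coeFn_toLp] with x hx1 hx2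
      rw [hx1, hx2]
    rw [e1, e2]
    exact green_test hφ hψ
  exact (closure_minimal hsub hcl) h

/-- Test data belong to the domain. -/
lemma test_domain (ha : 0 < a) (hα : 0 < α) (hφ : IsTest Ω φ) (hψ : IsTest Ω ψ) :
    ∃ ξ, WaveOp Ω a α (WithLp.toLp 2 ((⟨(hφ.grad_memLp 2).toLp (gradient φ),
      hφ.inH10.grad_mem⟩ : GradSpace Ω), (hψ.memLp 2).toLp ψ)) ξ := by
  refine ⟨WithLp.toLp 2 ((⟨-(hψ.grad_memLp 2).toLp (gradient ψ),
      Submodule.neg_mem _ hψ.inH10.grad_mem⟩ : GradSpace Ω),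
      -(hφ.lap_memLp 2).toLp (lap φ) + (hψ.g_memLp (a := a) hα 2).toLp _), ?_⟩
  rw [waveOp_iff]
  refine ⟨?_, ?_, ?_⟩
  · show InH10 Ω ((hψ.memLp 2).toLp ψ) (- -(hψ.grad_memLp 2).toLp (gradient ψ))
    rw [neg_neg]
    exact hψ.inH10
  · rw [pow_int_iff hα (Lp.aestronglyMeasurable _)]
    exact (memLp_congr_ae (hψ.memLp 2).coeFn_toLp).2 (hψ.memLp _)
  · intro w r hw _
    show inner ℝ (-(hφ.lap_memLp 2).toLp (lap φ) + (hψ.g_memLp (a := a) hα 2).toLp _) w
      = inner ℝ ((hφ.grad_memLp 2).toLp (gradient φ)) r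
        + ∫ y in Ω, g a α ((hψ.memLp 2).toLp ψ y) * w y
    have h1 := green hφ hw
    rw [inner_add_left, inner_neg_left, real_inner_comm w, ← h1, real_inner_comm r, inner_Lp_real]
    congr 1
    apply integral_congr_ae
    filter_upwards [(hψ.memLp 2).coeFn_toLp, (hψ.g_memLp (a := a) hα 2).coeFn_toLp] with x h2 h3
    rw [h2, h3]

/-- Density of test functions in `L²(Ω)`. -/
lemma dense_test (hΩ : IsOpen Ω) :
    ((testPairs Ω).map (LinearMap.fst ℝ (Lp ℝ 2 (volume.restrict Ω))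
      (Lp E 2 (volume.restrict Ω)))).topologicalClosure = ⊤ := by
  rw [Submodule.topologicalClosure_eq_top_iff, Submodule.eq_bot_iff]
  intro f hf
  rw [Submodule.mem_orthogonal] at hf
  have hloc : LocallyIntegrableOn f Ω volume := by
    apply locallyIntegrableOn_of_locallyIntegrable_restrict
    exact (Lp.memLp f).locallyIntegrable one_le_two
  have h1 := hΩ.ae_eq_zero_of_integral_contDiff_smul_eq_zero hloc (fun ψ h1 h2 h3 => by
    have hψ : IsTest Ω ψ := ⟨h1, h2, h3⟩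
    have h4 := hf ((hψ.memLp 2).toLp ψ) ⟨((hψ.memLp 2).toLp ψ,
      (hψ.grad_memLp 2).toLp (gradient ψ)), ⟨ψ, hψ, (hψ.memLp 2).coeFn_toLp,
      (hψ.grad_memLp 2).coeFn_toLp⟩, rfl⟩
    rw [inner_Lp_real] at h4
    have e1 : ∫ x in Ω, ((hψ.memLp 2).toLp ψ) x * f x = ∫ x in Ω, ψ x • f x := by
      apply integral_congr_ae
      filter_upwards [(hψ.memLp 2).coeFn_toLp] with x hx
      rw [hx, smul_eq_mul]
    rw [e1, setInt_eq hψ (fun x hx => by rw [hx, zero_smul])] at h4
    exact h4)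
  rw [Lp.eq_zero_iff_ae_eq_zero, EventuallyEq, ae_restrict_iff' hΩ.measurableSet]
  exact h1

/-- Density of the domain of the operator. -/
theorem dense_domain (hΩ : IsOpen Ω) (ha : 0 < a) (hα : 0 < α) (x : EnergySpace Ω) :
    x ∈ closure {y | ∃ ξ, WaveOp Ω a α y ξ} := by
  rw [Metric.mem_closure_iff]
  intro ε hε
  have h1 : x.snd ∈ closure (((testPairs Ω).map (LinearMap.fst ℝ (Lp ℝ 2 (volume.restrict Ω))
      (Lp E 2 (volume.restrict Ω))) : Submodule ℝ _) : Set _) := by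
    have : x.snd ∈ ((testPairs Ω).map (LinearMap.fst ℝ (Lp ℝ 2 (volume.restrict Ω))
      (Lp E 2 (volume.restrict Ω)))).topologicalClosure := by rw [dense_test hΩ]; trivial
    exact this
  have h2 : (x.fst : Lp E 2 (volume.restrict Ω)) ∈ closure (((testPairs Ω).map
      (LinearMap.snd ℝ (Lp ℝ 2 (volume.restrict Ω))
      (Lp E 2 (volume.restrict Ω))) : Submodule ℝ _) : Set _) := x.fst.2
  obtain ⟨_, ⟨z, ⟨ψ, hψ, hz1, _⟩, rfl⟩, hz⟩ := Metric.mem_closure_iff.1 h1 (ε / 2) (by positivity)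
  obtain ⟨_, ⟨z', ⟨φ, hφ, _, hz1'⟩, rfl⟩, hz'⟩ :=
    Metric.mem_closure_iff.1 h2 (ε / 2) (by positivity)
  have e1 : z.1 = (hψ.memLp 2).toLp ψ := Lp.ext (hz1.trans (hψ.memLp 2).coeFn_toLp.symm)
  have e2 : z'.2 = (hφ.grad_memLp 2).toLp (gradient φ) :=
    Lp.ext (hz1'.trans (hφ.grad_memLp 2).coeFn_toLp.symm)
  refine ⟨_, test_domain ha hα hφ hψ, ?_⟩
  rw [dist_eq_norm] at hz hz' ⊢
  have hz2 : ‖x.snd - (hψ.memLp 2).toLp ψ‖ < ε / 2 := by rw [← e1]; exact hz
  have hz3 : ‖(x.fst : Lp E 2 (volume.restrict Ω)) - (hφ.grad_memLp 2).toLp (gradient φ)‖ < ε / 2 := by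
    rw [← e2]; exact hz'
  have h5 := WithLp.prod_norm_sq_eq_of_L2 (x - WithLp.toLp 2 ((⟨(hφ.grad_memLp 2).toLp (gradient φ),
      hφ.inH10.grad_mem⟩ : GradSpace Ω), (hψ.memLp 2).toLp ψ))
  have h6 : ‖(x - WithLp.toLp 2 ((⟨(hφ.grad_memLp 2).toLp (gradient φ),
      hφ.inH10.grad_mem⟩ : GradSpace Ω), (hψ.memLp 2).toLp ψ)).fst‖ < ε / 2 := hz3
  have h7 : ‖(x - WithLp.toLp 2 ((⟨(hφ.grad_memLp 2).toLp (gradient φ),
      hφ.inH10.grad_mem⟩ : GradSpace Ω), (hψ.memLp 2).toLp ψ)).snd‖ < ε / 2 := hz2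
  apply lt_of_pow_lt_pow_left₀ 2 hε.le
  rw [h5]
  nlinarith [norm_nonneg ((x - WithLp.toLp 2 ((⟨(hφ.grad_memLp 2).toLp (gradient φ),
      hφ.inH10.grad_mem⟩ : GradSpace Ω), (hψ.memLp 2).toLp ψ)).fst),
      norm_nonneg ((x - WithLp.toLp 2 ((⟨(hφ.grad_memLp 2).toLp (gradient φ),
      hφ.inH10.grad_mem⟩ : GradSpace Ω), (hψ.memLp 2).toLp ψ)).snd)]

end

end Pool.Agent.MP_4c4330_an
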