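import Pool.Agent.MP_4c4330_an.Abs

open MeasureTheory Set Filter Topology
open scoped ENNReal ContDiff

set_option linter.unusedSectionVars false

namespace Pool.Agent.MP_4c4330_an

noncomputable section
variable {E : Type*} [NormedAddCommGroup E] [InnerProductSpace ℝ E] [FiniteDimensional ℝ E]
  [MeasurableSpace E] [BorelSpace E]

/-- Test functions on `Ω`. -/
def IsTest (Ω : Set E) (φ : E → ℝ) : Prop :=
  ContDiff ℝ ∞ φ ∧ HasCompactSupport φ ∧ tsupport φ ⊆ Ω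

lemma IsTest.add {Ω : Set E} {φ ψ : E → ℝ} (hφ : IsTest Ω φ) (hψ : IsTest Ω ψ) :
    IsTest Ω (φ + ψ) := by
  refine ⟨hφ.1.add hψ.1, hφ.2.1.add hψ.2.1, ?_⟩
  refine (closure_mono (Function.support_add _ _)).trans ?_
  rw [closure_union]
  exact union_subset hφ.2.2 hψ.2.2

lemma IsTest.smul {Ω : Set E} {φ : E → ℝ} (hφ : IsTest Ω φ) (c : ℝ) :
    IsTest Ω (c • φ) := by
  refine ⟨contDiff_const.smul hφ.1, hφ.2.1.smul_left, ?_⟩
  exact (closure_mono (Function.support_const_smul_subset c φ)).trans hφ.2.2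

lemma isTest_zero (Ω : Set E) : IsTest Ω (0 : E → ℝ) := by
  refine ⟨contDiff_const, HasCompactSupport.zero, ?_⟩
  have : tsupport (0 : E → ℝ) = ∅ := by simp [tsupport]
  rw [this]; exact empty_subset _

lemma IsTest.differentiable {Ω : Set E} {φ : E → ℝ} (hφ : IsTest Ω φ) : Differentiable ℝ φ :=
  hφ.1.differentiable (by simp)

lemma gradient_add {φ ψ : E → ℝ} (hφ : Differentiable ℝ φ) (hψ : Differentiable ℝ ψ) (x : E) :
    gradient (φ + ψ) x = gradient φ x + gradient ψ x := by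
  unfold gradient
  rw [fderiv_add (hφ x) (hψ x), map_add]

lemma gradient_smul {φ : E → ℝ} (hφ : Differentiable ℝ φ) (c : ℝ) (x : E) :
    gradient (c • φ) x = c • gradient φ x := by
  unfold gradient
  rw [fderiv_const_smul (hφ x), map_smul]

/-- The pairs `(φ, ∇φ)`, `φ` a test function on `Ω`, in `L²(Ω) × L²(Ω; E)`. -/
def testPairs (Ω : Set E) :
    Submodule ℝ (Lp ℝ 2 (volume.restrict Ω) × Lp E 2 (volume.restrict Ω)) where
  carrier := {z | ∃ φ : E → ℝ, IsTest Ω φ ∧ z.1 =ᵐ[volume.restrict Ω] φ ∧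
    z.2 =ᵐ[volume.restrict Ω] gradient φ}
  add_mem' := by
    rintro z w ⟨φ, hφ, h1, h2⟩ ⟨ψ, hψ, h3, h4⟩
    refine ⟨φ + ψ, hφ.add hψ, ?_, ?_⟩
    · exact (Lp.coeFn_add _ _).trans (h1.add h3)
    · refine (Lp.coeFn_add _ _).trans ((h2.add h4).trans (Eventually.of_forall fun x => ?_))
      exact (gradient_add hφ.differentiable hψ.differentiable x).symm
  zero_mem' := by
    refine ⟨0, isTest_zero Ω, Lp.coeFn_zero _ _ _, ?_⟩
    refine (Lp.coeFn_zero _ _ _).trans (Eventually.of_forall fun x => ?_)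
    simp [gradient]
  smul_mem' := by
    rintro c z ⟨φ, hφ, h1, h2⟩
    refine ⟨c • φ, hφ.smul c, ?_, ?_⟩
    · exact (Lp.coeFn_smul _ _).trans (h1.const_smul c)
    · refine (Lp.coeFn_smul _ _).trans ((h2.const_smul c).trans (Eventually.of_forall fun x => ?_))
      exact (gradient_smul hφ.differentiable c x).symm

/-- `InH10 Ω w q`: the function `w` belongs to `H¹₀(Ω)` and `q` is its weak gradient, i.e. `(w, q)`
is a limit in `L²(Ω) × L²(Ω; E)` of pairs `(φ, ∇φ)`. -/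
def InH10 (Ω : Set E) (w : Lp ℝ 2 (volume.restrict Ω)) (q : Lp E 2 (volume.restrict Ω)) : Prop :=
  (w, q) ∈ (testPairs Ω).topologicalClosure

/-- The closure in `L²(Ω; E)` of the gradients of test functions. For bounded `Ω` it is an
isometric copy (`u ↦ ∇u`) of `H¹₀(Ω)` with the norm `‖∇u‖`. -/
def GradSpace (Ω : Set E) : Submodule ℝ (Lp E 2 (volume.restrict Ω)) :=
  ((testPairs Ω).map (LinearMap.snd ℝ _ _)).topologicalClosure

/-- The energy space `H¹₀(Ω) × L²(Ω)`; its elements are the pairs `(∇u, v)`. -/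
abbrev EnergySpace (Ω : Set E) : Type _ := WithLp 2 (GradSpace Ω × Lp ℝ 2 (volume.restrict Ω))

/-- The operator `A (u, v) = (-v, -Δu + a |v|^α v)` on the energy space, in weak form:
`v ∈ H¹₀(Ω) ∩ L^(α+2)(Ω)` and `ξ = (-∇v, k)` with `k ∈ L²(Ω)` and
`∫ k w = ∫ ∇u · ∇w + ∫ a |v|^α v w` for all `w ∈ H¹₀(Ω) ∩ L^(α+2)(Ω)`. -/
def WaveOp (Ω : Set E) (a α : ℝ) (x ξ : EnergySpace Ω) : Prop :=
  InH10 Ω x.snd (-(ξ.fst : Lp E 2 (volume.restrict Ω))) ∧
  Integrable (fun y => |x.snd y| ^ (α + 2)) (volume.restrict Ω) ∧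
  ∀ w r, InH10 Ω w r → Integrable (fun y => |w y| ^ (α + 2)) (volume.restrict Ω) →
    ∫ y in Ω, ξ.snd y * w y = (∫ y in Ω, inner ℝ ((x.fst : Lp E 2 (volume.restrict Ω)) y) (r y))
      + ∫ y in Ω, a * |x.snd y| ^ α * x.snd y * w y

/-- `t ↦ U t = (∇u(t), u_t(t))` is the trajectory of the contraction semigroup generated by the
operator `A` above: `U t = lim (1 + (t/n) A)^(-n) U 0` for every `t > 0`. -/
def IsTrajectory (Ω : Set E) (a α : ℝ) (U : ℝ → EnergySpace Ω) : Prop :=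
  ∀ t > 0, ∃ y : ℕ → ℕ → EnergySpace Ω, (∀ n, y n 0 = U 0) ∧
    (∀ n : ℕ, 0 < n → ∀ k, EulerStep (WaveOp Ω a α) (t / n) (y n k) (y n (k + 1))) ∧
    Tendsto (fun n => y n n) atTop (𝓝 (U t))

/-- The energy `∫ (|∇u|² + v²)`. -/
def nrg (Ω : Set E) (x : EnergySpace Ω) : ℝ :=
  ∫ y in Ω, (‖(x.fst : Lp E 2 (volume.restrict Ω)) y‖ ^ 2 + (x.snd y) ^ 2)

end

end Pool.Agent.MP_4c4330_an
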