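import Mathlib

open MeasureTheory Set Filter Topology
open scoped ENNReal ContDiff

namespace Pool.Agent.MP_4c4330_an.Fn

section
variable {E : Type*} [NormedAddCommGroup E] [InnerProductSpace ℝ E] [FiniteDimensional ℝ E]
  [MeasurableSpace E] [BorelSpace E]

/-- Test functions on `Ω`. -/
def IsTest (Ω : Set E) (φ : E → ℝ) : Prop :=
  ContDiff ℝ ∞ φ ∧ HasCompactSupport φ ∧ tsupport φ ⊆ Ω

/-- `w ∈ H¹₀(Ω)` with weak gradient `q`. -/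
def IsH10 (Ω : Set E) (w : E → ℝ) (q : E → E) : Prop :=
  MemLp w 2 (volume.restrict Ω) ∧ MemLp q 2 (volume.restrict Ω) ∧
  ∀ ε > 0, ∃ φ, IsTest Ω φ ∧ ∫ x in Ω, (w x - φ x) ^ 2 < ε ∧ ∫ x in Ω, ‖q x - gradient φ x‖ ^ 2 < ε

/-- The energy space: `x = (∇u, v)` with `u ∈ H¹₀(Ω)` and `v ∈ L²(Ω)`. -/
def InEnergySpace (Ω : Set E) (x : (E → E) × (E → ℝ)) : Prop :=
  MemLp x.1 2 (volume.restrict Ω) ∧ MemLp x.2 2 (volume.restrict Ω) ∧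
  ∀ ε > 0, ∃ φ, IsTest Ω φ ∧ ∫ y in Ω, ‖x.1 y - gradient φ y‖ ^ 2 < ε

/-- The energy `∫ (|∇u|² + v²)` of `x = (∇u, v)`. -/
noncomputable def energy (Ω : Set E) (x : (E → E) × (E → ℝ)) : ℝ :=
  ∫ y in Ω, (‖x.1 y‖ ^ 2 + (x.2 y) ^ 2)

/-- Implicit Euler step of size `h` for `u_t = v`, `v_t = Δu - a |v|^α v`: with `x = (∇u, v)` and
`x' = (∇u', v')`, one has `v' ∈ H¹₀(Ω) ∩ L^(α+2)(Ω)`, `u' = u + h v'` and
`v' - h Δu' + h a |v'|^α v' = v` (tested with all `w ∈ H¹₀(Ω) ∩ L^(α+2)(Ω)`). -/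
def EulerStep (Ω : Set E) (a α h : ℝ) (x x' : (E → E) × (E → ℝ)) : Prop :=
  (∃ q, IsH10 Ω x'.2 q ∧ ∀ᵐ y ∂(volume.restrict Ω), x'.1 y = x.1 y + h • q y) ∧
  Integrable (fun y => |x'.2 y| ^ (α + 2)) (volume.restrict Ω) ∧
  ∀ w r, IsH10 Ω w r → Integrable (fun y => |w y| ^ (α + 2)) (volume.restrict Ω) →
    ∫ y in Ω, x.2 y * w y = (∫ y in Ω, x'.2 y * w y) + h * (∫ y in Ω, inner ℝ (x'.1 y) (r y))
      + h * ∫ y in Ω, a * |x'.2 y| ^ α * x'.2 y * w y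

/-- `U t = (∇u(t), u_t(t))` is a trajectory of the contraction semigroup generated by the maximal
monotone operator `A (u, v) = (-v, -Δu + a |v|^α v)`: `U t = lim (1 + (t/n) A)^(-n) U 0` in the
energy norm, for every `t > 0`. -/
def IsTrajectory (Ω : Set E) (a α : ℝ) (U : ℝ → (E → E) × (E → ℝ)) : Prop :=
  (∀ t ≥ 0, InEnergySpace Ω (U t)) ∧
  ∀ t > 0, ∃ y : ℕ → ℕ → (E → E) × (E → ℝ), (∀ n, y n 0 = U 0) ∧
    (∀ n : ℕ, 0 < n → ∀ k, EulerStep Ω a α (t / n) (y n k) (y n (k + 1))) ∧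
    Tendsto (fun n => energy Ω (y n n - U t)) atTop (𝓝 0)

end

end Pool.Agent.MP_4c4330_an.Fn
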