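import Pool.Agent.MP_4c4330_an.Traj
import Pool.Agent.MP_4c4330_an.FDefs

open MeasureTheory Set Filter Topology
open scoped ENNReal ContDiff

set_option linter.unusedSectionVars false

namespace Pool.Agent.MP_4c4330_an

noncomputable section
variable {E : Type*} [NormedAddCommGroup E] [InnerProductSpace ℝ E] [FiniteDimensional ℝ E]
  [MeasurableSpace E] [BorelSpace E] {Ω : Set E} {a α : ℝ} {φ ψ : E → ℝ}

lemma isTest_iff : Fn.IsTest Ω φ ↔ IsTest Ω φ := Iff.rfl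

lemma norm_sub_sq_Lp {F : Type*} [NormedAddCommGroup F] [InnerProductSpace ℝ F] {μ : Measure E}
    {f k : E → F} (hf : MemLp f 2 μ) (hk : MemLp k 2 μ) :
    ‖hf.toLp f - hk.toLp k‖ ^ 2 = ∫ y, ‖f y - k y‖ ^ 2 ∂μ := by
  rw [norm_sq_Lp]
  apply integral_congr_ae
  filter_upwards [Lp.coeFn_sub (hf.toLp f) (hk.toLp k), hf.coeFn_toLp, hk.coeFn_toLp] with y h1 h2 h3
  rw [h1, Pi.sub_apply, h2, h3]

lemma norm_sub_sq_Lp' {F : Type*} [NormedAddCommGroup F] [InnerProductSpace ℝ F] {μ : Measure E}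
    (f : Lp F 2 μ) {k : E → F} (hk : MemLp k 2 μ) :
    ‖f - hk.toLp k‖ ^ 2 = ∫ y, ‖f y - k y‖ ^ 2 ∂μ := by
  rw [norm_sq_Lp]
  apply integral_congr_ae
  filter_upwards [Lp.coeFn_sub f (hk.toLp k), hk.coeFn_toLp] with y h1 h3
  rw [h1, Pi.sub_apply, h3]

/-- From functions to classes. -/
lemma inH10_of_fn {w : E → ℝ} {q : E → E} (h : Fn.IsH10 Ω w q) :
    InH10 Ω (h.1.toLp w) (h.2.1.toLp q) := by
  show (h.1.toLp w, h.2.1.toLp q) ∈ closure (testPairs Ω : Set _)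
  rw [Metric.mem_closure_iff]
  intro ε hε
  obtain ⟨φ, hφ, h1, h2⟩ := h.2.2 (ε ^ 2) (by positivity)
  have hφ' : IsTest Ω φ := hφ
  refine ⟨((hφ'.memLp 2).toLp φ, (hφ'.grad_memLp 2).toLp (gradient φ)),
    ⟨φ, hφ', (hφ'.memLp 2).coeFn_toLp, (hφ'.grad_memLp 2).coeFn_toLp⟩, ?_⟩
  rw [Prod.dist_eq]
  apply max_lt
  · show dist (h.1.toLp w) ((hφ'.memLp 2).toLp φ) < ε
    rw [dist_eq_norm]
    apply lt_of_pow_lt_pow_left₀ 2 hε.le
    rw [norm_sub_sq_Lp]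
    simpa only [Real.norm_eq_abs, sq_abs] using h1
  · show dist (h.2.1.toLp q) ((hφ'.grad_memLp 2).toLp (gradient φ)) < ε
    rw [dist_eq_norm]
    apply lt_of_pow_lt_pow_left₀ 2 hε.le
    rw [norm_sub_sq_Lp]
    exact h2

/-- From classes to functions. -/
lemma fn_of_inH10 {w : Lp ℝ 2 (volume.restrict Ω)} {q : Lp E 2 (volume.restrict Ω)}
    (h : InH10 Ω w q) : Fn.IsH10 Ω w q := by
  refine ⟨Lp.memLp w, Lp.memLp q, ?_⟩
  intro ε hε
  have h0 : (w, q) ∈ closure (testPairs Ω : Set _) := h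
  obtain ⟨z, ⟨φ, hφ, h1, h2⟩, hz⟩ := Metric.mem_closure_iff.1 h0 (√ε) (by positivity)
  have hφ' : IsTest Ω φ := hφ
  rw [Prod.dist_eq, max_lt_iff] at hz
  have e1 : z.1 = (hφ.memLp 2).toLp φ := Lp.ext (h1.trans (hφ.memLp 2).coeFn_toLp.symm)
  have e2 : z.2 = (hφ.grad_memLp 2).toLp (gradient φ) :=
    Lp.ext (h2.trans (hφ.grad_memLp 2).coeFn_toLp.symm)
  refine ⟨φ, hφ, ?_, ?_⟩
  · have h3 := hz.1
    rw [dist_eq_norm] at h3
    change ‖w - z.1‖ < √ε at h3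
    rw [e1] at h3
    have h4 : ‖w - (hφ.memLp 2).toLp φ‖ ^ 2 < ε := by
      calc ‖w - (hφ.memLp 2).toLp φ‖ ^ 2 < (√ε) ^ 2 :=
            pow_lt_pow_left₀ h3 (norm_nonneg _) two_ne_zero
        _ = ε := Real.sq_sqrt hε.le
    rw [norm_sub_sq_Lp'] at h4
    simpa only [Real.norm_eq_abs, sq_abs] using h4
  · have h3 := hz.2
    rw [dist_eq_norm] at h3
    change ‖q - z.2‖ < √ε at h3
    rw [e2] at h3
    have h4 : ‖q - (hφ.grad_memLp 2).toLp (gradient φ)‖ ^ 2 < ε := by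
      calc ‖q - (hφ.grad_memLp 2).toLp (gradient φ)‖ ^ 2 < (√ε) ^ 2 :=
            pow_lt_pow_left₀ h3 (norm_nonneg _) two_ne_zero
        _ = ε := Real.sq_sqrt hε.le
    rwa [norm_sub_sq_Lp'] at h4

/-- The class of a gradient in `GradSpace`. -/
lemma gradSpace_of_fn {p : E → E} (hp : MemLp p 2 (volume.restrict Ω))
    (h : ∀ ε > 0, ∃ φ, Fn.IsTest Ω φ ∧ ∫ y in Ω, ‖p y - gradient φ y‖ ^ 2 < ε) :
    hp.toLp p ∈ GradSpace Ω := by
  show hp.toLp p ∈ closure (((testPairs Ω).map (LinearMap.snd ℝ _ _) : Submodule ℝ _) : Set _)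
  rw [Metric.mem_closure_iff]
  intro ε hε
  obtain ⟨φ, hφ, h1⟩ := h (ε ^ 2) (by positivity)
  have hφ' : IsTest Ω φ := hφ
  refine ⟨(hφ'.grad_memLp 2).toLp (gradient φ), ⟨((hφ'.memLp 2).toLp φ,
    (hφ'.grad_memLp 2).toLp (gradient φ)),
    ⟨φ, hφ', (hφ'.memLp 2).coeFn_toLp, (hφ'.grad_memLp 2).coeFn_toLp⟩, rfl⟩, ?_⟩
  rw [dist_eq_norm]
  apply lt_of_pow_lt_pow_left₀ 2 hε.le
  rw [norm_sub_sq_Lp]
  exact h1

lemma fn_of_gradSpace (p : GradSpace Ω) : ∀ ε > 0, ∃ φ, Fn.IsTest Ω φ ∧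
    ∫ y in Ω, ‖(p : Lp E 2 (volume.restrict Ω)) y - gradient φ y‖ ^ 2 < ε := by
  intro ε hε
  have h0 : (p : Lp E 2 (volume.restrict Ω)) ∈
      closure (((testPairs Ω).map (LinearMap.snd ℝ _ _) : Submodule ℝ _) : Set _) := p.2
  obtain ⟨_, ⟨z, ⟨φ, hφ, _, h2⟩, rfl⟩, hz⟩ := Metric.mem_closure_iff.1 h0 (√ε) (by positivity)
  have e2 : z.2 = (hφ.grad_memLp 2).toLp (gradient φ) :=
    Lp.ext (h2.trans (hφ.grad_memLp 2).coeFn_toLp.symm)
  refine ⟨φ, hφ, ?_⟩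
  rw [dist_eq_norm] at hz
  change ‖(p : Lp E 2 (volume.restrict Ω)) - z.2‖ < √ε at hz
  rw [e2] at hz
  have h4 : ‖(p : Lp E 2 (volume.restrict Ω)) - (hφ.grad_memLp 2).toLp (gradient φ)‖ ^ 2 < ε := by
    calc ‖(p : Lp E 2 (volume.restrict Ω)) - (hφ.grad_memLp 2).toLp (gradient φ)‖ ^ 2
        < (√ε) ^ 2 := pow_lt_pow_left₀ hz (norm_nonneg _) two_ne_zero
      _ = ε := Real.sq_sqrt hε.le
  rwa [norm_sub_sq_Lp'] at h4

/-- Function representatives of a point of the energy space. -/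
def fnOf (x : EnergySpace Ω) : (E → E) × (E → ℝ) :=
  (((x.fst : Lp E 2 (volume.restrict Ω)) : E → E), (x.snd : E → ℝ))

/-- The class of a pair of functions. -/
def clsOf {x : (E → E) × (E → ℝ)} (hx : Fn.InEnergySpace Ω x) : EnergySpace Ω :=
  WithLp.toLp 2 ((⟨hx.1.toLp x.1, gradSpace_of_fn hx.1 hx.2.2⟩ : GradSpace Ω), hx.2.1.toLp x.2)

lemma fnOf_mem (x : EnergySpace Ω) : Fn.InEnergySpace Ω (fnOf x) :=
  ⟨Lp.memLp _, Lp.memLp _, fn_of_gradSpace x.fst⟩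

lemma energy_congr {x y : (E → E) × (E → ℝ)} (h1 : x.1 =ᵐ[volume.restrict Ω] y.1)
    (h2 : x.2 =ᵐ[volume.restrict Ω] y.2) : Fn.energy Ω x = Fn.energy Ω y := by
  unfold Fn.energy
  apply integral_congr_ae
  filter_upwards [h1, h2] with z hz1 hz2
  rw [hz1, hz2]

lemma energy_fnOf (x : EnergySpace Ω) : Fn.energy Ω (fnOf x) = ‖x‖ ^ 2 := by
  rw [← nrg_eq]; rfl

lemma fnOf_sub (x y : EnergySpace Ω) :
    (fnOf (x - y)).1 =ᵐ[volume.restrict Ω] (fnOf x - fnOf y).1 ∧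
    (fnOf (x - y)).2 =ᵐ[volume.restrict Ω] (fnOf x - fnOf y).2 :=
  ⟨Lp.coeFn_sub (x.fst : Lp E 2 (volume.restrict Ω)) y.fst, Lp.coeFn_sub x.snd y.snd⟩

lemma energy_fnOf_sub (x y : EnergySpace Ω) :
    Fn.energy Ω (fnOf x - fnOf y) = ‖x - y‖ ^ 2 := by
  rw [← energy_fnOf]
  exact (energy_congr (fnOf_sub x y).1 (fnOf_sub x y).2).symm

lemma fnOf_clsOf {x : (E → E) × (E → ℝ)} (hx : Fn.InEnergySpace Ω x) :
    (fnOf (clsOf hx)).1 =ᵐ[volume.restrict Ω] x.1 ∧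
    (fnOf (clsOf hx)).2 =ᵐ[volume.restrict Ω] x.2 :=
  ⟨hx.1.coeFn_toLp, hx.2.1.coeFn_toLp⟩

/-- Euler steps for classes give Euler steps for representatives. -/
lemma step_fnOf {h : ℝ} (hh : 0 < h) {x x' : EnergySpace Ω}
    (hs : EulerStep (WaveOp Ω a α) h x x') : Fn.EulerStep Ω a α h (fnOf x) (fnOf x') := by
  unfold EulerStep at hs
  rw [waveOp_iff] at hs
  obtain ⟨h1, h2, h3⟩ := hs
  set q : Lp E 2 (volume.restrict Ω) := -((h⁻¹ • (x - x')).fst : Lp E 2 (volume.restrict Ω)) with hq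
  have hq' : (x'.fst : Lp E 2 (volume.restrict Ω)) = x.fst + h • q := by
    have : q = -(h⁻¹ • ((x.fst : Lp E 2 (volume.restrict Ω)) - x'.fst)) := rfl
    rw [this, smul_neg, smul_smul, mul_inv_cancel₀ hh.ne', one_smul]
    abel
  refine ⟨⟨q, fn_of_inH10 h1, ?_⟩, h2, ?_⟩
  · have e1 : ((x'.fst : Lp E 2 (volume.restrict Ω)) : E → E) =ᵐ[volume.restrict Ω]
        ((x.fst + h • q : Lp E 2 (volume.restrict Ω)) : E → E) := by rw [hq']
    filter_upwards [e1, Lp.coeFn_add (x.fst : Lp E 2 (volume.restrict Ω)) (h • q),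
      Lp.coeFn_smul h q] with y h4 h5 h6
    show (x'.fst : Lp E 2 (volume.restrict Ω)) y = (x.fst : Lp E 2 (volume.restrict Ω)) y + h • q y
    rw [h4, h5, Pi.add_apply, h6, Pi.smul_apply]
  · intro w r hw hwi
    have h4 := h3 _ _ (inH10_of_fn hw) (by
      refine hwi.congr ?_
      filter_upwards [hw.1.coeFn_toLp] with y hy
      rw [hy])
    have e0 : inner ℝ (h⁻¹ • (x - x')).snd (hw.1.toLp w)
        = h⁻¹ * (inner ℝ x.snd (hw.1.toLp w) - inner ℝ x'.snd (hw.1.toLp w)) := by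
      rw [← inner_sub_left, ← real_inner_smul_left]; rfl
    have e1 : inner ℝ x.snd (hw.1.toLp w) = ∫ y in Ω, x.snd y * w y := by
      rw [inner_Lp_real]
      apply integral_congr_ae
      filter_upwards [hw.1.coeFn_toLp] with y hy
      rw [hy]
    have e2 : inner ℝ x'.snd (hw.1.toLp w) = ∫ y in Ω, x'.snd y * w y := by
      rw [inner_Lp_real]
      apply integral_congr_ae
      filter_upwards [hw.1.coeFn_toLp] with y hy
      rw [hy]
    have e3 : inner ℝ (x'.fst : Lp E 2 (volume.restrict Ω)) (hw.2.1.toLp r)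
        = ∫ y in Ω, inner ℝ ((x'.fst : Lp E 2 (volume.restrict Ω)) y) (r y) := by
      rw [L2.inner_def]
      apply integral_congr_ae
      filter_upwards [hw.2.1.coeFn_toLp] with y hy
      rw [hy]
    have e4 : ∫ y in Ω, g a α (x'.snd y) * (hw.1.toLp w) y
        = ∫ y in Ω, a * |x'.snd y| ^ α * x'.snd y * w y := by
      apply integral_congr_ae
      filter_upwards [hw.1.coeFn_toLp] with y hy
      rw [hy]
      rfl
    rw [e0, e1, e2, e3, e4] at h4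
    show ∫ y in Ω, x.snd y * w y = (∫ y in Ω, x'.snd y * w y)
      + h * (∫ y in Ω, inner ℝ ((x'.fst : Lp E 2 (volume.restrict Ω)) y) (r y))
      + h * ∫ y in Ω, a * |x'.snd y| ^ α * x'.snd y * w y
    have h5 := congrArg (fun s => h * s) h4
    simp only [← mul_assoc, mul_inv_cancel₀ hh.ne', one_mul, mul_add] at h5
    linarith

lemma traj_fnOf {U : ℝ → EnergySpace Ω} (hU : IsTrajectory Ω a α U) :
    Fn.IsTrajectory Ω a α (fun t => fnOf (U t)) := by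
  refine ⟨fun t _ => fnOf_mem _, ?_⟩
  intro t ht
  obtain ⟨y, y0, ys, yl⟩ := hU t ht
  refine ⟨fun n k => fnOf (y n k), fun n => by simp only [y0], ?_, ?_⟩
  · intro n hn k
    have hn' : (0:ℝ) < n := by exact_mod_cast hn
    exact step_fnOf (by positivity) (ys n hn k)
  · simp only [energy_fnOf_sub]
    have h1 := tendsto_iff_norm_sub_tendsto_zero.1 yl
    have h2 := h1.pow 2
    simpa using h2

end

end Pool.Agent.MP_4c4330_an
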