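import Pool.Agent.MP_4c4330_an.Traj

open MeasureTheory Set Filter Topology
open scoped ENNReal ContDiff

set_option linter.unusedSectionVars false

namespace Pool.Agent.MP_4c4330_an

noncomputable section
variable {E : Type*} [NormedAddCommGroup E] [InnerProductSpace ℝ E] [FiniteDimensional ℝ E]
  [MeasurableSpace E] [BorelSpace E] {Ω : Set E} {a α : ℝ} {φ ψ : E → ℝ}

/-- Rescaling. -/
def resc (f : E → ℝ) (x₀ : E) (r s : ℝ) (x : E) : ℝ := s * f (r⁻¹ • (x - x₀))

lemma resc_hasFDerivAt {f : E → ℝ} (hf : Differentiable ℝ f) (x₀ : E) (r s : ℝ) (x : E) :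
    HasFDerivAt (resc f x₀ r s) ((s * r⁻¹) • fderiv ℝ f (r⁻¹ • (x - x₀))) x := by
  have h1 : HasFDerivAt (fun x : E => r⁻¹ • (x - x₀)) (r⁻¹ • ContinuousLinearMap.id ℝ E) x :=
    ((hasFDerivAt_id x).sub_const x₀).const_smul r⁻¹
  have h2 := ((hf (r⁻¹ • (x - x₀))).hasFDerivAt.comp x h1).const_mul s
  refine h2.congr_fderiv ?_
  ext v
  simp only [smul_apply, ContinuousLinearMap.comp_apply,
    ContinuousLinearMap.id_apply, smul_eq_mul, map_smul]
  ring

lemma resc_dir {f : E → ℝ} (hf : Differentiable ℝ f) (x₀ : E) (r s : ℝ) (v : E) :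
    (fun x => fderiv ℝ (resc f x₀ r s) x v) = resc (fun y => fderiv ℝ f y v) x₀ r (s * r⁻¹) := by
  funext x
  rw [(resc_hasFDerivAt hf x₀ r s x).fderiv]
  rfl

lemma resc_grad {f : E → ℝ} (hf : Differentiable ℝ f) (x₀ : E) (r s : ℝ) (x : E) :
    gradient (resc f x₀ r s) x = (s * r⁻¹) • gradient f (r⁻¹ • (x - x₀)) := by
  unfold gradient
  rw [(resc_hasFDerivAt hf x₀ r s x).fderiv, map_smul]

lemma resc_lap {f : E → ℝ} (hf : Differentiable ℝ f)
    (hf2 : ∀ v, Differentiable ℝ fun y => fderiv ℝ f y v) (x₀ : E) (r s : ℝ) (x : E) :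
    lap (resc f x₀ r s) x = s * r⁻¹ * r⁻¹ * lap f (r⁻¹ • (x - x₀)) := by
  unfold lap
  rw [Finset.mul_sum]
  apply Finset.sum_congr rfl
  intro i _
  rw [resc_dir hf, (resc_hasFDerivAt (hf2 _) x₀ r _ x).fderiv]
  rfl

lemma int_resc (f : E → ℝ) (x₀ : E) {r : ℝ} (hr : 0 < r) :
    ∫ x, f (r⁻¹ • (x - x₀)) = r ^ (Module.finrank ℝ E) * ∫ x, f x := by
  rw [integral_sub_right_eq_self (fun x => f (r⁻¹ • x)) x₀,
    Measure.integral_comp_inv_smul_of_nonneg volume f hr.le, smul_eq_mul]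

/-- Concentrating test functions. -/
lemma concentrate (hN : 3 ≤ Module.finrank ℝ E) (hΩ : IsOpen Ω) (hne : Ω.Nonempty)
    (hα : 4 / ((Module.finrank ℝ E : ℝ) - 2) < α) :
    ∃ c > 0, ∀ l > 0, ∀ η > 0, ∃ φ : E → ℝ, ∃ hφ : IsTest Ω φ,
      ‖(hφ.grad_memLp 2).toLp (gradient φ)‖ = c ∧
      ∫ x in Ω, (|lap φ x| / l) ^ ((α + 2) / (α + 1)) ≤ η := by
  set N := Module.finrank ℝ E with hNdef
  have hN3 : (3:ℝ) ≤ N := by exact_mod_cast hN
  have hα0 : 0 < α := lt_trans (by apply div_pos (by norm_num); linarith) hα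
  have hα4 : 4 < α * ((N:ℝ) - 2) := by rwa [div_lt_iff₀ (by linarith)] at hα
  obtain ⟨x₀, hx₀⟩ := hne
  -- the profile
  let b : ContDiffBump (0 : E) := ⟨1 / 2, 1, by norm_num, by norm_num⟩
  set f : E → ℝ := (fun x => b x) with hf
  have hft : IsTest (univ : Set E) f := ⟨b.contDiff, b.hasCompactSupport, subset_univ _⟩
  have hfd := hft.differentiable
  have hfd2 : ∀ v, Differentiable ℝ fun y => fderiv ℝ f y v := fun v => (hft.dir v).differentiable
  set c2 := ∫ x, ‖gradient f x‖ ^ 2 with hc2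
  have hc2pos : 0 < c2 := by
    have hx : ∃ x, gradient f x ≠ 0 := by
      by_contra hcon
      push Not at hcon
      have h1 : ∀ x, fderiv ℝ f x = 0 := by
        intro x
        have := hcon x
        unfold gradient at this
        exact (InnerProductSpace.toDual ℝ E).symm.map_eq_zero_iff.1 this
      have : Nontrivial E := Module.nontrivial_of_finrank_pos (R := ℝ) (by omega)
      obtain ⟨y, hy⟩ := exists_norm_eq E (zero_le_one (α := ℝ))
      have h2 := is_const_of_fderiv_eq_zero hfd h1 0 y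
      have h3 : f 0 = 1 := b.one_of_mem_closedBall (by simp [b])
      have h4 : f y = 0 := b.zero_of_le_dist (by simp [b, hy])
      rw [h3, h4] at h2
      norm_num at h2
    obtain ⟨x, hx⟩ := hx
    apply Continuous.integral_pos_of_hasCompactSupport_nonneg_nonzero (x := x)
    · exact (hft.grad_cont.norm).pow 2
    · exact hft.grad_supp.comp_left (g := fun v : E => ‖v‖ ^ 2) (by simp)
    · intro y; positivity
    · exact pow_ne_zero 2 (norm_ne_zero_iff.2 hx)
  refine ⟨√c2, by positivity, ?_⟩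
  intro l hl η hη
  set q := (α + 2) / (α + 1) with hq
  have hq0 : 0 < q := by positivity
  set Cl := ∫ x, (|lap f x| / l) ^ q with hCl
  have hCl0 : 0 ≤ Cl := integral_nonneg (fun x => by positivity)
  -- the exponent
  set β := (N:ℝ) - ((N:ℝ) / 2 + 1) * q with hβ
  have hβ0 : 0 < β := by
    rw [hβ, hq, sub_pos, mul_div_assoc', div_lt_iff₀ (by linarith)]
    nlinarith
  -- choice of r
  have hlim : Tendsto (fun r : ℝ => r ^ β * Cl) (𝓝[>] 0) (𝓝 (0 * Cl)) := by
    apply Tendsto.mul_const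
    have h1 : Tendsto (fun r : ℝ => r ^ β) (𝓝 0) (𝓝 ((0:ℝ) ^ β)) :=
      (Real.continuousAt_rpow_const 0 β (Or.inr hβ0.le)).tendsto
    rw [Real.zero_rpow hβ0.ne'] at h1
    exact h1.mono_left nhdsWithin_le_nhds
  rw [zero_mul] at hlim
  obtain ⟨ρ, hρ, hball⟩ := Metric.isOpen_iff.1 hΩ x₀ hx₀
  have hev : ∀ᶠ r in 𝓝[>] (0:ℝ), r ^ β * Cl < η ∧ r ∈ Ioo (0:ℝ) ρ :=
    (hlim.eventually (gt_mem_nhds hη)).and (Ioo_mem_nhdsGT hρ)
  obtain ⟨r, hr1, hr2⟩ := hev.exists
  have hr0 : 0 < r := hr2.1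
  set s := r ^ (1 - (N:ℝ) / 2) with hs
  have hs0 : 0 < s := by positivity
  -- test function
  have htest : IsTest Ω (resc f x₀ r s) := by
    refine ⟨?_, ?_, ?_⟩
    · unfold resc
      exact contDiff_const.mul (hft.1.comp ((contDiff_id.sub contDiff_const).const_smul _))
    · apply HasCompactSupport.intro (isCompact_closedBall x₀ r)
      intro x hx
      unfold resc
      have h1 : f (r⁻¹ • (x - x₀)) = 0 := by
        apply b.zero_of_le_dist
        rw [dist_zero_right, norm_smul, norm_inv, Real.norm_eq_abs, abs_of_pos hr0]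
        show (1:ℝ) ≤ _
        rw [Metric.mem_closedBall, dist_eq_norm, not_le] at hx
        rw [inv_mul_eq_div, le_div_iff₀ hr0]
        linarith
      rw [h1, mul_zero]
    · have h1 : Function.support (resc f x₀ r s) ⊆ Metric.closedBall x₀ r := by
        intro x hx
        by_contra hcon
        apply hx
        unfold resc
        have h1 : f (r⁻¹ • (x - x₀)) = 0 := by
          apply b.zero_of_le_dist
          rw [dist_zero_right, norm_smul, norm_inv, Real.norm_eq_abs, abs_of_pos hr0]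
          show (1:ℝ) ≤ _
          rw [Metric.mem_closedBall, dist_eq_norm, not_le] at hcon
          rw [inv_mul_eq_div, le_div_iff₀ hr0]
          linarith
        rw [h1, mul_zero]
      refine (closure_minimal h1 Metric.isClosed_closedBall).trans ?_
      exact (Metric.closedBall_subset_ball hr2.2).trans hball
  refine ⟨resc f x₀ r s, htest, ?_, ?_⟩
  · -- norm of the gradient
    have h1 : ‖(htest.grad_memLp 2).toLp (gradient (resc f x₀ r s))‖ ^ 2 = c2 := by
      rw [norm_sq_Lp]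
      have e1 : ∫ y in Ω, ‖(htest.grad_memLp 2).toLp (gradient (resc f x₀ r s)) y‖ ^ 2
          = ∫ y in Ω, ‖gradient (resc f x₀ r s) y‖ ^ 2 := by
        apply integral_congr_ae
        filter_upwards [(htest.grad_memLp 2).coeFn_toLp] with y hy
        rw [hy]
      have e2 : ∫ y in Ω, ‖gradient (resc f x₀ r s) y‖ ^ 2
          = ∫ y, ‖gradient (resc f x₀ r s) y‖ ^ 2 := by
        apply setIntegral_eq_integral_of_forall_compl_eq_zero
        intro x hx
        have : gradient (resc f x₀ r s) x = 0 := by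
          unfold gradient
          have h2 : fderiv ℝ (resc f x₀ r s) x = 0 := by
            by_contra h
            exact hx (htest.2.2 (support_fderiv_subset ℝ h))
          rw [h2, map_zero]
        rw [this, norm_zero]; norm_num
      rw [e1, e2]
      have e3 : ∀ y, ‖gradient (resc f x₀ r s) y‖ ^ 2
          = (fun z => (s * r⁻¹) ^ 2 * ‖gradient f z‖ ^ 2) (r⁻¹ • (y - x₀)) := by
        intro y
        rw [resc_grad hfd, norm_smul, mul_pow, Real.norm_eq_abs, sq_abs]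
      simp only [e3]
      rw [int_resc (fun z => (s * r⁻¹) ^ 2 * ‖gradient f z‖ ^ 2) x₀ hr0,
        MeasureTheory.integral_const_mul, ← mul_assoc]
      have e4 : r ^ N * (s * r⁻¹) ^ 2 = 1 := by
        have : s * r⁻¹ = r ^ (-((N:ℝ) / 2)) := by
          rw [hs, ← Real.rpow_neg_one r, ← Real.rpow_add hr0]
          congr 1; ring
        rw [this, ← Real.rpow_natCast (r ^ (-((N:ℝ) / 2))) 2, ← Real.rpow_mul hr0.le,
          ← Real.rpow_natCast r N, ← Real.rpow_add hr0]
        have : (N:ℝ) + -((N:ℝ) / 2) * ((2:ℕ):ℝ) = 0 := by push_cast; ring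
        rw [this, Real.rpow_zero]
      rw [e4, one_mul]
    rw [← h1, Real.sqrt_sq (norm_nonneg _)]
  · have e2 : ∫ x in Ω, (|lap (resc f x₀ r s) x| / l) ^ q
        = ∫ x, (|lap (resc f x₀ r s) x| / l) ^ q := by
      apply setIntegral_eq_integral_of_forall_compl_eq_zero
      intro x hx
      have : lap (resc f x₀ r s) x = 0 := by
        unfold lap
        apply Finset.sum_eq_zero
        intro i _
        have h2 : fderiv ℝ (fun y => fderiv ℝ (resc f x₀ r s) y (stdOrthonormalBasis ℝ E i)) x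
            = 0 := by
          by_contra h
          exact hx ((htest.dir _).2.2 (support_fderiv_subset ℝ h))
        rw [h2]; rfl
      rw [this, abs_zero, zero_div, Real.zero_rpow hq0.ne']
    have e3 : ∀ y, (|lap (resc f x₀ r s) y| / l) ^ q
        = (fun z => (s * r⁻¹ * r⁻¹) ^ q * (|lap f z| / l) ^ q) (r⁻¹ • (y - x₀)) := by
      intro y
      simp only
      rw [resc_lap hfd hfd2, abs_mul, abs_of_pos (by positivity : 0 < s * r⁻¹ * r⁻¹),
        mul_div_assoc, Real.mul_rpow (by positivity) (by positivity)]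
    rw [e2]
    simp only [e3]
    rw [int_resc (fun z => (s * r⁻¹ * r⁻¹) ^ q * (|lap f z| / l) ^ q) x₀ hr0,
      MeasureTheory.integral_const_mul, ← mul_assoc, ← hCl]
    have e4 : r ^ N * (s * r⁻¹ * r⁻¹) ^ q = r ^ β := by
      have : s * r⁻¹ * r⁻¹ = r ^ (-((N:ℝ) / 2) - 1) := by
        rw [hs, ← Real.rpow_neg_one r, ← Real.rpow_add hr0, ← Real.rpow_add hr0]
        congr 1; ring
      rw [this, ← Real.rpow_mul hr0.le, ← Real.rpow_natCast r N, ← Real.rpow_add hr0]
      congr 1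
      rw [hβ]; ring
    rw [e4]
    exact hr1.le

/-- No decay rate holds on an open set of data. -/
lemma no_uniform (hN : 3 ≤ Module.finrank ℝ E) (hΩ : IsOpen Ω) (hne : Ω.Nonempty) (ha : 0 < a)
    (hα : 4 / ((Module.finrank ℝ E : ℝ) - 2) < α) {θ : ℝ → ℝ}
    (hlim : Tendsto θ atTop (𝓝 0)) (x : EnergySpace Ω) {δ : ℝ} (hδ : 0 < δ)
    (hF : ∀ z : EnergySpace Ω, ‖z - x‖ < δ → ∀ U, IsTrajectory Ω a α U → U 0 = z →
      ∀ t ≥ 0, ‖U t‖ ^ 2 ≤ θ t) : False := by
  have hN3 : (3:ℝ) ≤ Module.finrank ℝ E := by exact_mod_cast hN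
  have hα0 : 0 < α := lt_trans (by apply div_pos (by norm_num); linarith) hα
  obtain ⟨c, hc, hconc⟩ := concentrate hN hΩ hne hα
  set ε := δ / (2 * c) with hε
  have hε0 : 0 < ε := by positivity
  set M := ‖x‖ + δ with hM
  -- choice of the time
  obtain ⟨t, ht1, ht0⟩ : ∃ t, θ t < (ε * c / 8) ^ 2 ∧ 0 < t :=
    ((hlim.eventually (gt_mem_nhds (by positivity))).and (eventually_gt_atTop 0)).exists
  -- choice of l
  have hl : ∃ l > 0, l ^ (α + 2) * (M ^ 2 / (2 * a)) ≤ ε * c ^ 2 / 16 := by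
    have h1 : Tendsto (fun l : ℝ => l ^ (α + 2) * (M ^ 2 / (2 * a))) (𝓝 0)
        (𝓝 ((0:ℝ) ^ (α + 2) * (M ^ 2 / (2 * a)))) := by
      apply Tendsto.mul_const
      exact (Real.continuousAt_rpow_const 0 (α + 2) (Or.inr (by linarith))).tendsto
    rw [Real.zero_rpow (by linarith), zero_mul] at h1
    have h2 := (h1.mono_left (nhdsWithin_le_nhds (s := Ioi (0:ℝ)))).eventually
      (gt_mem_nhds (show (0:ℝ) < ε * c ^ 2 / 16 by positivity))
    obtain ⟨l, hl1, hl2⟩ := (h2.and self_mem_nhdsWithin).exists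
    exact ⟨l, hl2, hl1.le⟩
  obtain ⟨l, hl0, hl1⟩ := hl
  obtain ⟨φ, hφ, hG, hL⟩ := hconc l hl0 (ε * c ^ 2 / 16 / t) (by positivity)
  set G := (hφ.grad_memLp 2).toLp (gradient φ) with hGdef
  -- the perturbed data
  set z : EnergySpace Ω := x + WithLp.toLp 2 ((⟨ε • G, Submodule.smul_mem _ ε
    hφ.inH10.grad_mem⟩ : GradSpace Ω), 0) with hz
  have hzn : ‖z - x‖ < δ := by
    have e1 : z - x = WithLp.toLp 2 ((⟨ε • G, Submodule.smul_mem _ ε
      hφ.inH10.grad_mem⟩ : GradSpace Ω), 0) := by rw [hz]; abel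
    have e2 : ‖z - x‖ ^ 2 = (ε * c) ^ 2 := by
      rw [e1, WithLp.prod_norm_sq_eq_of_L2]
      show ‖ε • G‖ ^ 2 + ‖(0 : Lp ℝ 2 (volume.restrict Ω))‖ ^ 2 = _
      rw [norm_smul, hG, norm_zero, Real.norm_eq_abs, abs_of_pos hε0]
      ring
    apply lt_of_pow_lt_pow_left₀ 2 hδ.le
    rw [e2]
    have : ε * c = δ / 2 := by rw [hε]; field_simp
    rw [this]
    nlinarith
  obtain ⟨U, hU0, hU⟩ := traj_exists hΩ ha hα0 x
  obtain ⟨V, hV0, hV⟩ := traj_exists hΩ ha hα0 z
  have hUt := hF x (by simpa using hδ) U hU hU0 t ht0.le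
  have hVt := hF z hzn V hV hV0 t ht0.le
  have mU := traj_move ha hα0 hφ hU ht0 hl0
  have mV := traj_move ha hα0 hφ hV ht0 hl0
  rw [hU0] at mU
  rw [hV0] at mV
  have hxM : ‖x‖ ^ 2 ≤ M ^ 2 := by
    apply pow_le_pow_left₀ (norm_nonneg _); rw [hM]; linarith
  have hzM : ‖z‖ ^ 2 ≤ M ^ 2 := by
    apply pow_le_pow_left₀ (norm_nonneg _)
    have : ‖z‖ ≤ ‖z - x‖ + ‖x‖ := by
      calc ‖z‖ = ‖(z - x) + x‖ := by rw [sub_add_cancel]
        _ ≤ _ := norm_add_le _ _
    rw [hM]; linarith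
  have hlp : 0 ≤ l ^ (α + 2) := by positivity
  have bx : l ^ (α + 2) * (‖x‖ ^ 2 / (2 * a)) ≤ ε * c ^ 2 / 16 := by
    refine le_trans ?_ hl1
    gcongr
  have bz : l ^ (α + 2) * (‖z‖ ^ 2 / (2 * a)) ≤ ε * c ^ 2 / 16 := by
    refine le_trans ?_ hl1
    gcongr
  have bt : t * ∫ x in Ω, (|lap φ x| / l) ^ ((α + 2) / (α + 1)) ≤ ε * c ^ 2 / 16 := by
    have := mul_le_mul_of_nonneg_left hL ht0.le
    refine this.trans (le_of_eq ?_)
    field_simp
  -- norms at time t
  have nU : ‖U t‖ ≤ ε * c / 8 := by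
    apply le_of_sq_le_sq _ (by positivity)
    linarith
  have nV : ‖V t‖ ≤ ε * c / 8 := by
    apply le_of_sq_le_sq _ (by positivity)
    linarith
  have fst_le : ∀ y : EnergySpace Ω, ‖(y.fst : Lp E 2 (volume.restrict Ω))‖ ≤ ‖y‖ := by
    intro y
    have h1 := WithLp.prod_norm_sq_eq_of_L2 y
    have h2 : ‖(y.fst : Lp E 2 (volume.restrict Ω))‖ = ‖y.fst‖ := rfl
    rw [h2]
    apply le_of_sq_le_sq _ (norm_nonneg _)
    rw [h1]
    nlinarith [sq_nonneg ‖y.snd‖]
  have iU : |inner ℝ ((U t).fst : Lp E 2 (volume.restrict Ω)) G| ≤ ε * c / 8 * c := by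
    refine (abs_real_inner_le_norm _ _).trans ?_
    rw [hG]
    exact mul_le_mul_of_nonneg_right ((fst_le _).trans nU) hc.le
  have iV : |inner ℝ ((V t).fst : Lp E 2 (volume.restrict Ω)) G| ≤ ε * c / 8 * c := by
    refine (abs_real_inner_le_norm _ _).trans ?_
    rw [hG]
    exact mul_le_mul_of_nonneg_right ((fst_le _).trans nV) hc.le
  have ez : inner ℝ (z.fst : Lp E 2 (volume.restrict Ω)) G
      = inner ℝ (x.fst : Lp E 2 (volume.restrict Ω)) G + ε * c ^ 2 := by
    have e1 : (z.fst : Lp E 2 (volume.restrict Ω)) = (x.fst : Lp E 2 (volume.restrict Ω))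
        + ε • G := rfl
    rw [e1, inner_add_left, real_inner_smul_left, real_inner_self_eq_norm_sq, hG]
  rw [inner_sub_left] at mU mV
  have a1 := (abs_le.1 iU).1
  have a2 := (abs_le.1 iU).2
  have a3 := (abs_le.1 iV).1
  have a4 := (abs_le.1 iV).2
  have a5 := (abs_le.1 mU).1
  have a6 := (abs_le.1 mU).2
  have a7 := (abs_le.1 mV).1
  have a8 := (abs_le.1 mV).2
  have hpos : 0 < ε * c ^ 2 := by positivity
  nlinarith

/-- Generic data have no decay rate. -/
theorem generic_slow (hN : 3 ≤ Module.finrank ℝ E) (hΩ : IsOpen Ω) (hne : Ω.Nonempty) (ha : 0 < a)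
    (hα : 4 / ((Module.finrank ℝ E : ℝ) - 2) < α) {θ : ℝ → ℝ}
    (hlim : Tendsto θ atTop (𝓝 0)) :
    ∀ᶠ x in residual (EnergySpace Ω), ∀ U, IsTrajectory Ω a α U → U 0 = x →
      ∀ C, ∃ t ≥ 0, C * |θ t| < ‖U t‖ ^ 2 := by
  have hN3 : (3:ℝ) ≤ Module.finrank ℝ E := by exact_mod_cast hN
  have hα0 : 0 < α := lt_trans (by apply div_pos (by norm_num); linarith) hα
  set F : ℕ → Set (EnergySpace Ω) := fun n => {x | ∀ U, IsTrajectory Ω a α U → U 0 = x →
    ∀ t ≥ 0, ‖U t‖ ^ 2 ≤ n * |θ t|} with hF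
  have hcl : ∀ n, IsClosed (F n) := by
    intro n
    rw [← isSeqClosed_iff_isClosed]
    intro xs x hxs hx U hU hU0 t ht
    have h1 : ∀ k, ∃ V, V 0 = xs k ∧ IsTrajectory Ω a α V := fun k =>
      traj_exists hΩ ha hα0 (xs k)
    choose V hV0 hV using h1
    have h2 : Tendsto (fun k => V k t) atTop (𝓝 (U t)) := by
      rw [tendsto_iff_norm_sub_tendsto_zero]
      apply squeeze_zero (fun k => norm_nonneg _) (fun k => traj_le ha hα0 (hV k) hU ht)
      have h3 := tendsto_iff_norm_sub_tendsto_zero.1 hx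
      refine h3.congr (fun k => ?_)
      rw [hV0, hU0]
    exact le_of_tendsto (h2.norm.pow 2) (Eventually.of_forall fun k => hxs k (V k) (hV k) (hV0 k) t ht)
  have hdense : ∀ n, Dense (F n)ᶜ := by
    intro n
    rw [← interior_eq_empty_iff_dense_compl]
    by_contra hcon
    obtain ⟨x, hx⟩ := Set.nonempty_iff_ne_empty.2 hcon
    obtain ⟨δ, hδ, hball⟩ := Metric.isOpen_iff.1 isOpen_interior x hx
    have hlim' : Tendsto (fun t => n * |θ t|) atTop (𝓝 0) := by
      have := hlim.abs.const_mul (n:ℝ)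
      simpa using this
    refine no_uniform hN hΩ hne ha hα hlim' x hδ (fun z hz U hU hU0 t ht => ?_)
    have hz' : z ∈ F n := interior_subset (hball (by rwa [Metric.mem_ball, dist_eq_norm]))
    exact hz' U hU hU0 t ht
  have hres : ∀ n, (F n)ᶜ ∈ residual (EnergySpace Ω) := fun n =>
    residual_of_dense_open (hcl n).isOpen_compl (hdense n)
  have hall : ∀ᶠ x in residual (EnergySpace Ω), ∀ n, x ∈ (F n)ᶜ :=
    eventually_countable_forall.2 hres
  filter_upwards [hall] with x hx U hU hU0 C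
  obtain ⟨n, hn⟩ := exists_nat_ge C
  have h1 := hx n
  simp only [hF, mem_compl_iff, Set.mem_ofPred_eq, not_forall, not_le] at h1
  obtain ⟨V, hV, hV0, t, ht, hlt⟩ := h1
  refine ⟨t, ht, ?_⟩
  have h2 := traj_unique ha hα0 hU hV (hU0.trans hV0.symm) ht
  rw [h2]
  refine lt_of_le_of_lt ?_ hlt
  exact mul_le_mul_of_nonneg_right hn (abs_nonneg _)

end

end Pool.Agent.MP_4c4330_an
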