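import Pool.Agent.MP_4c4330_an.Rate

open Set Real MeasureTheory intervalIntegral Function

namespace Pool.Agent.MP_4c4330_an

lemma v_bound {ℓ a α q0 : ℝ} (hℓ : 0 < ℓ) (ha : 0 < a) (hα : 0 < α)
    {f v : ℝ → ℝ → ℝ} (hf : CharSol ℓ a α f v) (hQ0 : Q ℓ f 0 ≤ q0) :
    ∀ t ≥ 0, ∀ y, |v t y| ≤ Real.sqrt (ℓ * q0) := by
  intro t ht y
  have h1 := hf.v_energy t ht y
  have h2 : Q ℓ f t ≤ q0 := (Q_anti hℓ ha hα hf le_rfl ht).trans hQ0
  rw [← Real.sqrt_sq_eq_abs]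
  apply Real.sqrt_le_sqrt
  refine h1.trans ?_
  exact mul_le_mul_of_nonneg_left h2 hℓ.le

/-- The recursion for `Φ ≤ R Q^{p/2}` along `t = m ℓ`. -/
lemma ratio_bound {ℓ a α D C T A C1 : ℝ} (hℓ : 0 < ℓ) (ha : 0 < a) (hα : 0 < α)
    (hC : 0 < C) (hD : D = C ^ α / ℓ)
    (hC1 : C1 = (a * (α + 1)) * ℓ + (a * (α + 1)) ^ 2 * ℓ ^ 3 / 2)
    (hA : A = 2 * (α + 2) * C1 * a * ℓ + (α + 2) * a
      + 2 * (α + 2) * C1 * a * ℓ * ((α + 2) * a))
    {f v : ℝ → ℝ → ℝ} (hf : CharSol ℓ a α f v)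
    (hsup : ∀ t ≥ T, ∀ z, |f t z| ≤ C * t ^ (-(1 / α)))
    {k0 : ℕ} (g1 : 1 ≤ k0) (g2 : T ≤ k0 * ℓ) (g3 : C1 * D ≤ k0)
    (g4 : (α + 2) * a * D ^ 2 ≤ k0) (g5 : 2 * ((α + 2) * a * ℓ * D) ≤ k0) (g6 : D ≤ k0)
    (hpos : 0 < Q ℓ f (k0 * ℓ)) {R0 : ℝ} (hR0 : 0 ≤ R0)
    (hinit : Ph ℓ a α f (k0 * ℓ) ≤ R0 * Q ℓ f (k0 * ℓ) ^ ((α + 2) / 2)) (k : ℕ) :
    0 < Q ℓ f (((k0 + k : ℕ) : ℝ) * ℓ) ∧
    Q ℓ f (((k0 + k : ℕ) : ℝ) * ℓ) / 2 ≤ Q ℓ f (((k0 + (k + 1) : ℕ) : ℝ) * ℓ) ∧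
    Ph ℓ a α f (((k0 + k : ℕ) : ℝ) * ℓ) ≤
      R0 * Real.exp (2 * A * D ^ 2 / k0 - 2 * A * D ^ 2 / ((k0 + k : ℕ) : ℝ))
        * Q ℓ f (((k0 + k : ℕ) : ℝ) * ℓ) ^ ((α + 2) / 2) := by
  have hC10 : 0 < C1 := by rw [hC1]; positivity
  have hA0 : 0 < A := by rw [hA]; positivity
  have hD0 : 0 < D := by rw [hD]; positivity
  -- sup bound at time m ℓ
  have hK : ∀ m : ℕ, k0 ≤ m → ∀ τ, (m:ℝ) * ℓ ≤ τ → ∀ z,
      |f τ z| ≤ C * ((m:ℝ) * ℓ) ^ (-(1 / α)) := by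
    intro m hm τ hτ z
    have hm' : (k0:ℝ) ≤ m := by exact_mod_cast hm
    have hm1 : (1:ℝ) ≤ m := by
      have : (1:ℝ) ≤ k0 := by exact_mod_cast g1
      linarith
    have hmℓ : 0 < (m:ℝ) * ℓ := by positivity
    have hTτ : T ≤ τ := by nlinarith
    refine (hsup τ hTτ z).trans ?_
    apply mul_le_mul_of_nonneg_left _ hC.le
    apply Real.rpow_le_rpow_of_nonpos hmℓ hτ
    have : 0 < 1 / α := by positivity
    linarith
  have hKα : ∀ m : ℕ, k0 ≤ m → (C * ((m:ℝ) * ℓ) ^ (-(1 / α))) ^ α = D / m := by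
    intro m hm
    have hm1 : (0:ℝ) < m := by
      have : 0 < m := by omega
      exact_mod_cast this
    rw [Real.mul_rpow hC.le (by positivity), ← Real.rpow_mul (by positivity),
      show -(1 / α) * α = -1 by field_simp, Real.rpow_neg_one, hD]
    field_simp
  have hsmall : ∀ m : ℕ, k0 ≤ m → 4 * (a * (D / m)) * ℓ ≤ 1 := by
    intro m hm
    have hm' : (k0:ℝ) ≤ m := by exact_mod_cast hm
    have hm1 : (0:ℝ) < m := by
      have : 0 < m := by omega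
      exact_mod_cast this
    have e : 4 * (a * (D / m)) * ℓ = 4 * (a * ℓ * D) / m := by ring
    rw [e, div_le_one hm1]
    have : 0 < a * ℓ * D := by positivity
    nlinarith
  have hhalf : ∀ m : ℕ, k0 ≤ m → Q ℓ f ((m:ℝ) * ℓ) / 2 ≤ Q ℓ f (((m + 1 : ℕ) : ℝ) * ℓ) := by
    intro m hm
    have h1 := Q_half (s := (m:ℝ) * ℓ) (h := ℓ) hℓ ha hα hf (by positivity) hℓ.le (hK m hm) (by
      rw [hKα m hm]; exact hsmall m hm)
    have e : ((m + 1 : ℕ) : ℝ) * ℓ = (m:ℝ) * ℓ + ℓ := by push_cast; ring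
    rw [e]; exact h1
  induction k with
  | zero =>
    refine ⟨by simpa using hpos, hhalf (k0 + 0) (by omega), ?_⟩
    simp only [add_zero, sub_self, Real.exp_zero, mul_one]
    exact hinit
  | succ k ih =>
    obtain ⟨ih1, ih2, ih3⟩ := ih
    set m := k0 + k with hm
    have hmk : k0 ≤ m := by omega
    have hm' : (k0:ℝ) ≤ m := by exact_mod_cast hmk
    have hk1 : (1:ℝ) ≤ k0 := by exact_mod_cast g1
    have hm1 : (1:ℝ) ≤ m := by linarith
    have hm0 : (0:ℝ) < m := by linarith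
    have e1 : k0 + (k + 1) = m + 1 := by omega
    rw [e1] at ih2 ⊢
    have hpos1 : 0 < Q ℓ f (((m + 1 : ℕ) : ℝ) * ℓ) := by linarith
    refine ⟨hpos1, hhalf (m + 1) (by omega), ?_⟩
    have et : ((m + 1 : ℕ) : ℝ) * ℓ = (m:ℝ) * ℓ + ℓ := by push_cast; ring
    have hmℓ : 0 < (m:ℝ) * ℓ := by positivity
    have hKpos : 0 < C * ((m:ℝ) * ℓ) ^ (-(1 / α)) := by positivity
    have hmain := main_step hℓ ha hα hf hmℓ.le hKpos (hK m hmk)
    rw [hKα m hmk] at hmain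
    have hcs := cs_step hℓ ha hα hf hmℓ.le ih1
    have hle := Ph_le hℓ ha hα hf hmℓ.le (hK m hmk)
    rw [hKα m hmk] at hle
    have hsucc := Q_succ (a := a) hℓ hα hf hmℓ.le
    have hκ0 : 0 < D / m := by positivity
    have step := ratio_step (p := α + 2) (κ := D / m) (L := a * (α + 1)) (ℓ := ℓ) (a := a)
      (A := A) (C1 := C1) (by linarith) hκ0 (by rw [div_le_one hm0]; linarith) ha hℓ (by positivity)
      hC1 hA
      (by
        rw [← mul_div_assoc, div_le_one hm0]; linarith)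
      (by
        rw [div_pow, ← mul_div_assoc, div_le_one (by positivity)]
        nlinarith)
      (by
        have e : 2 * ((α + 2) * a * ℓ * (D / m)) = 2 * ((α + 2) * a * ℓ * D) / m := by ring
        rw [e, div_le_one hm0]; linarith)
      ih1 (Ph_nonneg hℓ ha _) (Ph_nonneg hℓ ha (m * ℓ + ℓ)) ih3 hmain hcs hle hsucc
    rw [et]
    refine step.trans ?_
    have hQp : 0 ≤ Q ℓ f ((m:ℝ) * ℓ + ℓ) ^ ((α + 2) / 2) := by
      rw [← et]; positivity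
    apply mul_le_mul_of_nonneg_right _ hQp
    rw [mul_assoc]
    apply mul_le_mul_of_nonneg_left _ hR0
    have h1 : 1 + A * (D / m) ^ 2 ≤ Real.exp (A * (D / m) ^ 2) := by
      have := Real.add_one_le_exp (A * (D / m) ^ 2)
      linarith
    have h2 : A * (D / m) ^ 2 ≤ 2 * A * D ^ 2 / m - 2 * A * D ^ 2 / ((m + 1 : ℕ) : ℝ) := by
      have e : 2 * A * D ^ 2 / m - 2 * A * D ^ 2 / ((m + 1 : ℕ) : ℝ)
          = 2 * A * D ^ 2 / (m * (m + 1)) := by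
        push_cast
        field_simp
        ring
      rw [e, div_pow, ← mul_div_assoc, div_le_div_iff₀ (by positivity) (by positivity)]
      have h3 : 0 < A * D ^ 2 := by positivity
      have h4 : (m:ℝ) * (m + 1) ≤ 2 * (m:ℝ) ^ 2 := by nlinarith
      calc A * D ^ 2 * ((m:ℝ) * (m + 1)) ≤ A * D ^ 2 * (2 * (m:ℝ) ^ 2) :=
            mul_le_mul_of_nonneg_left h4 h3.le
        _ = 2 * A * D ^ 2 * (m:ℝ) ^ 2 := by ring
    calc Real.exp (2 * A * D ^ 2 / k0 - 2 * A * D ^ 2 / m) * (1 + A * (D / m) ^ 2)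
        ≤ Real.exp (2 * A * D ^ 2 / k0 - 2 * A * D ^ 2 / m) * Real.exp (A * (D / m) ^ 2) :=
          mul_le_mul_of_nonneg_left h1 (Real.exp_pos _).le
      _ = Real.exp (2 * A * D ^ 2 / k0 - 2 * A * D ^ 2 / m + A * (D / m) ^ 2) :=
          (Real.exp_add _ _).symm
      _ ≤ _ := by
          apply Real.exp_le_exp.2
          linarith

/-- Lower bound for the energy. -/
lemma lower (ℓ a α : ℝ) (hℓ : 0 < ℓ) (ha : 0 < a) (hα : 0 < α) (q0 e s0 : ℝ) (hq0 : 0 < q0)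
    (he : 0 < e) (hs0 : 0 < s0) :
    ∃ c : ℝ, 0 < c ∧ ∀ f v : ℝ → ℝ → ℝ, CharSol ℓ a α f v → Q ℓ f 0 ≤ q0 → e ≤ Q ℓ f s0 →
      ∀ t ≥ 0, c * (1 + t) ^ (-(2 / α)) ≤ Q ℓ f t := by
  obtain ⟨T, C, hT, hC, hsup⟩ := sup_decay ℓ a α hℓ ha hα (Real.sqrt (ℓ * q0)) (by positivity)
  obtain ⟨M, hM0, hMa, hM⟩ := reg ℓ a α hℓ ha hα (Real.sqrt (ℓ * q0)) (by positivity)
  set D := C ^ α / ℓ with hD
  have hD0 : 0 < D := by positivity
  set C1 := (a * (α + 1)) * ℓ + (a * (α + 1)) ^ 2 * ℓ ^ 3 / 2 with hC1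
  have hC10 : 0 < C1 := by positivity
  set A := 2 * (α + 2) * C1 * a * ℓ + (α + 2) * a
      + 2 * (α + 2) * C1 * a * ℓ * ((α + 2) * a) with hA
  have hA0 : 0 < A := by positivity
  -- choice of k0
  obtain ⟨k0, hk0⟩ := exists_nat_ge (1 + T / ℓ + s0 / ℓ + C1 * D + (α + 2) * a * D ^ 2
    + 2 * ((α + 2) * a * ℓ * D) + D)
  have p1 : 0 < T / ℓ := by positivity
  have p2 : 0 < s0 / ℓ := by positivity
  have p3 : 0 < C1 * D := by positivity
  have p4 : 0 < (α + 2) * a * D ^ 2 := by positivity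
  have p5 : 0 < 2 * ((α + 2) * a * ℓ * D) := by positivity
  have g1' : (1:ℝ) ≤ k0 := by linarith
  have g1 : 1 ≤ k0 := by exact_mod_cast g1'
  have g2 : T ≤ k0 * ℓ := by
    have : T / ℓ ≤ k0 := by linarith
    rwa [div_le_iff₀ hℓ] at this
  have gs : s0 ≤ k0 * ℓ := by
    have : s0 / ℓ ≤ k0 := by linarith
    rwa [div_le_iff₀ hℓ] at this
  have g3 : C1 * D ≤ k0 := by linarith
  have g4 : (α + 2) * a * D ^ 2 ≤ k0 := by linarith
  have g5 : 2 * ((α + 2) * a * ℓ * D) ≤ k0 := by linarith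
  have g6 : D ≤ k0 := by linarith
  -- lower bound at time k0 ℓ
  set K := M s0 with hK
  have hK0 : 0 < K := hM0 s0 hs0
  set h0 := 1 / (4 * (a * K ^ α)) with hh0
  have hh00 : 0 < h0 := by positivity
  obtain ⟨n, hn⟩ := exists_nat_ge (k0 * ℓ / h0)
  set q := e / 2 ^ n with hq
  have hq1 : 0 < q := by positivity
  set R0 := a * ℓ * (D / k0) * q ^ (-(α / 2)) with hR0
  have hk0pos : (0:ℝ) < k0 := by linarith
  have hR00 : 0 < R0 := by positivity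
  set Rs := R0 * Real.exp (2 * A * D ^ 2 / k0) with hRs
  have hRs0 : 0 < Rs := by positivity
  set B := α * 2 ^ (α / 2 + 1) with hB
  have hB0 : 0 < B := by positivity
  set Z := q ^ (-(α / 2)) + (1 + 1 / ℓ) * (B * Rs) with hZ
  have hZ0 : 0 < Z := by positivity
  refine ⟨min (Z ^ (-(2 / α))) q, by positivity, ?_⟩
  intro f v hf hQ0 hQe
  have hv := v_bound hℓ ha hα hf hQ0
  have hsupf := hsup f v hf hv
  have hMf := hM f v hf hv
  have hqle : q ≤ Q ℓ f (k0 * ℓ) := by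
    have h1 := Q_lower_bounded (s := s0) (h := h0) (K := K) hℓ ha hα hf hs0.le hh00.le
      (fun τ hτ z => (hMf τ (by linarith) z).trans (hMa s0 τ hs0 hτ))
      (by rw [hh0]; field_simp; exact le_rfl) n
    have h2 : (k0:ℝ) * ℓ ≤ s0 + n * h0 := by
      rw [div_le_iff₀ hh00] at hn
      linarith
    have h3 := Q_anti hℓ ha hα hf (by positivity : 0 ≤ (k0:ℝ) * ℓ) h2
    have h4 : e / 2 ^ n ≤ Q ℓ f s0 / 2 ^ n := by gcongr
    linarith
  have hpos : 0 < Q ℓ f (k0 * ℓ) := by linarith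
  have hinit : Ph ℓ a α f (k0 * ℓ) ≤ R0 * Q ℓ f (k0 * ℓ) ^ ((α + 2) / 2) := by
    have hk0ℓ : 0 < (k0:ℝ) * ℓ := by positivity
    have h1 := Ph_le (K := C * ((k0:ℝ) * ℓ) ^ (-(1 / α))) hℓ ha hα hf hk0ℓ.le (by
      intro τ hτ z
      refine (hsupf τ (g2.trans hτ) z).trans ?_
      apply mul_le_mul_of_nonneg_left _ hC.le
      apply Real.rpow_le_rpow_of_nonpos hk0ℓ hτ
      have : 0 < 1 / α := by positivity
      linarith)
    have h2 : (C * ((k0:ℝ) * ℓ) ^ (-(1 / α))) ^ α = D / k0 := by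
      rw [Real.mul_rpow hC.le (by positivity), ← Real.rpow_mul (by positivity),
        show -(1 / α) * α = -1 by field_simp, Real.rpow_neg_one, hD]
      field_simp
    rw [h2] at h1
    refine h1.trans ?_
    have h3 : Q ℓ f (k0 * ℓ) = Q ℓ f (k0 * ℓ) ^ (-(α / 2)) * Q ℓ f (k0 * ℓ) ^ ((α + 2) / 2) := by
      rw [← Real.rpow_add hpos, show -(α / 2) + (α + 2) / 2 = 1 by ring, Real.rpow_one]
    have h4 : Q ℓ f (k0 * ℓ) ^ (-(α / 2)) ≤ q ^ (-(α / 2)) :=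
      Real.rpow_le_rpow_of_nonpos hq1 hqle (by linarith)
    calc a * ℓ * (D / k0) * Q ℓ f (k0 * ℓ)
        = a * ℓ * (D / k0) * (Q ℓ f (k0 * ℓ) ^ (-(α / 2)) * Q ℓ f (k0 * ℓ) ^ ((α + 2) / 2)) := by
          rw [← h3]
      _ ≤ a * ℓ * (D / k0) * (q ^ (-(α / 2)) * Q ℓ f (k0 * ℓ) ^ ((α + 2) / 2)) := by
          apply mul_le_mul_of_nonneg_left _ (by positivity)
          apply mul_le_mul_of_nonneg_right h4 (by positivity)
      _ = R0 * Q ℓ f (k0 * ℓ) ^ ((α + 2) / 2) := by rw [hR0]; ring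
  have hrec := ratio_bound hℓ ha hα hC hD hC1 hA hf hsupf g1 g2 g3 g4 g5 g6 hpos hR00.le hinit
  -- recursion for z
  have hz : ∀ k : ℕ, Q ℓ f (((k0 + k : ℕ) : ℝ) * ℓ) ^ (-(α / 2)) ≤ q ^ (-(α / 2)) + k * (B * Rs) := by
    intro k
    induction k with
    | zero =>
      simp only [add_zero, Nat.cast_zero, zero_mul]
      exact Real.rpow_le_rpow_of_nonpos hq1 hqle (by linarith)
    | succ k ih =>
      obtain ⟨r1, r2, r3⟩ := hrec k
      have hR : R0 * Real.exp (2 * A * D ^ 2 / k0 - 2 * A * D ^ 2 / ((k0 + k : ℕ) : ℝ)) ≤ Rs := by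
        rw [hRs]
        apply mul_le_mul_of_nonneg_left _ hR00.le
        apply Real.exp_le_exp.2
        have : 0 ≤ 2 * A * D ^ 2 / ((k0 + k : ℕ) : ℝ) := by positivity
        linarith
      have hΦ : Ph ℓ a α f (((k0 + k : ℕ) : ℝ) * ℓ)
          ≤ Rs * Q ℓ f (((k0 + k : ℕ) : ℝ) * ℓ) ^ ((α + 2) / 2) :=
        r3.trans (mul_le_mul_of_nonneg_right hR (by positivity))
      have hsucc := Q_succ (a := a) (t := ((k0 + k : ℕ) : ℝ) * ℓ) hℓ hα hf (by positivity)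
      have et : ((k0 + (k + 1) : ℕ) : ℝ) * ℓ = ((k0 + k : ℕ) : ℝ) * ℓ + ℓ := by push_cast; ring
      have := z_step (R := Rs) (Q1 := Q ℓ f (((k0 + (k + 1) : ℕ) : ℝ) * ℓ)) hα r1
        (by rw [et, hsucc]; linarith) r2 hRs0.le
      rw [← hB] at this
      push_cast at this ih ⊢
      linarith
  intro t ht
  have h1t : 0 < 1 + t := by linarith
  have hp : 0 < (1 + t) ^ (-(2 / α)) := by positivity
  have hp1 : (1 + t) ^ (-(2 / α)) ≤ 1 := by
    apply Real.rpow_le_one_of_one_le_of_nonpos (by linarith)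
    have : 0 < 2 / α := by positivity
    linarith
  rcases le_or_gt t (k0 * ℓ) with h | h
  · have h1 := Q_anti hℓ ha hα hf ht h
    have h2 := min_le_right (Z ^ (-(2 / α))) q
    have h3 : 0 ≤ min (Z ^ (-(2 / α))) q := by positivity
    nlinarith
  · obtain ⟨m, hm1, hm2⟩ : ∃ m : ℕ, t / ℓ ≤ m ∧ (m:ℝ) ≤ t / ℓ + 1 :=
      ⟨⌈t / ℓ⌉₊, Nat.le_ceil _, (Nat.ceil_lt_add_one (by positivity)).le⟩
    have hk0m : k0 ≤ m := by
      have : (k0:ℝ) ≤ m := by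
        refine le_trans ?_ hm1
        rw [le_div_iff₀ hℓ]; exact h.le
      exact_mod_cast this
    obtain ⟨k, rfl⟩ := Nat.exists_eq_add_of_le hk0m
    have htm : t ≤ ((k0 + k : ℕ) : ℝ) * ℓ := by
      rwa [div_le_iff₀ hℓ] at hm1
    have h1 := Q_anti hℓ ha hα hf ht htm
    obtain ⟨r1, -, -⟩ := hrec k
    have h2 := hz k
    have hkm : (k:ℝ) ≤ t / ℓ + 1 := by
      push_cast at hm2
      linarith
    have h3 : Q ℓ f (((k0 + k : ℕ) : ℝ) * ℓ) ^ (-(α / 2)) ≤ Z * (1 + t) := by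
      refine h2.trans ?_
      have e1 : (k:ℝ) * (B * Rs) ≤ (t / ℓ + 1) * (B * Rs) :=
        mul_le_mul_of_nonneg_right hkm (by positivity)
      have e2 : t / ℓ + 1 ≤ (1 + 1 / ℓ) * (1 + t) := by
        have : (1 + 1 / ℓ) * (1 + t) = 1 + t + 1 / ℓ + t / ℓ := by ring
        rw [this]
        have : 0 < 1 / ℓ := by positivity
        linarith
      have e3 : (t / ℓ + 1) * (B * Rs) ≤ ((1 + 1 / ℓ) * (1 + t)) * (B * Rs) :=
        mul_le_mul_of_nonneg_right e2 (by positivity)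
      have e4 : q ^ (-(α / 2)) ≤ q ^ (-(α / 2)) * (1 + t) :=
        le_mul_of_one_le_right (by positivity) (by linarith)
      rw [hZ]
      nlinarith
    have h4 : (Z * (1 + t)) ^ (-(2 / α)) ≤ Q ℓ f (((k0 + k : ℕ) : ℝ) * ℓ) := by
      have e1 : (Z * (1 + t)) ^ (-(2 / α)) ≤
          (Q ℓ f (((k0 + k : ℕ) : ℝ) * ℓ) ^ (-(α / 2))) ^ (-(2 / α)) := by
        apply Real.rpow_le_rpow_of_nonpos (by positivity) h3
        have : 0 < 2 / α := by positivity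
        linarith
      rw [← Real.rpow_mul r1.le, show -(α / 2) * -(2 / α) = 1 by field_simp, Real.rpow_one] at e1
      exact e1
    rw [Real.mul_rpow hZ0.le h1t.le] at h4
    have h5 : min (Z ^ (-(2 / α))) q * (1 + t) ^ (-(2 / α))
        ≤ Z ^ (-(2 / α)) * (1 + t) ^ (-(2 / α)) :=
      mul_le_mul_of_nonneg_right (min_le_left _ _) hp.le
    linarith

end Pool.Agent.MP_4c4330_an
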