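import Pool.Agent.MP_4c4330_an.Step
import Pool.Agent.MP_4c4330_an.Decay

open Set Real MeasureTheory intervalIntegral Function

namespace Pool.Agent.MP_4c4330_an

/-- One step for the ratio `Φ / Q^{p/2}`. -/
lemma ratio_step {p κ L ℓ a Φ0 Φ1 N Q0 Q1 R A C1 : ℝ} (hp : 2 ≤ p) (hκ : 0 < κ) (hκ1 : κ ≤ 1)
    (ha : 0 < a) (hℓ : 0 < ℓ) (hL : 0 < L) (hC1 : C1 = L * ℓ + L ^ 2 * ℓ ^ 3 / 2)
    (hA : A = 2 * p * C1 * a * ℓ + p * a + 2 * p * C1 * a * ℓ * (p * a))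
    (k1 : C1 * κ ≤ 1) (k2 : p * a * κ ^ 2 ≤ 1) (k3 : 2 * (p * a * ℓ * κ) ≤ 1)
    (hQ0 : 0 < Q0) (hΦ0 : 0 ≤ Φ0) (hΦ1 : 0 ≤ Φ1) (hR : Φ0 ≤ R * Q0 ^ (p / 2))
    (hmain : Φ1 - Φ0 ≤ p * (-(1 - L * κ * ℓ) * N + (1/2) * a * κ ^ 2 * Φ1
      + (1/2) * κ * L ^ 2 * ℓ ^ 3 * N))
    (hcs : Φ0 ^ 2 ≤ Q0 * N) (hle : Φ0 ≤ a * ℓ * κ * Q0) (hQ1 : Q1 = Q0 - 2 * Φ0) :
    Φ1 ≤ R * (1 + A * κ ^ 2) * Q1 ^ (p / 2) := by
  have hC10 : 0 < C1 := by rw [hC1]; positivity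
  have hp0 : 0 < p := by linarith
  set r := Φ0 / Q0 with hr
  have hr0 : 0 ≤ r := by positivity
  have hΦr : Φ0 = r * Q0 := by rw [hr]; field_simp
  have hr1 : r ≤ a * ℓ * κ := by
    rw [hr, div_le_iff₀ hQ0]; exact hle
  have hN : r * Φ0 ≤ N := by
    have : Q0 * (r * Φ0) ≤ Q0 * N := by
      have e : Q0 * (r * Φ0) = Φ0 ^ 2 := by rw [hΦr]; ring
      rw [e]; exact hcs
    exact le_of_mul_le_mul_left this hQ0
  have hN0 : 0 ≤ N := (mul_nonneg hr0 hΦ0).trans hN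
  -- combine
  have h1 : Φ1 * (1 - p * a / 2 * κ ^ 2) ≤ Φ0 - p * (1 - C1 * κ) * N := by
    rw [hC1]; nlinarith
  have h2 : Φ0 - p * (1 - C1 * κ) * N ≤ Φ0 * (1 - p * r + p * C1 * a * ℓ * κ ^ 2) := by
    have e1 : p * (1 - C1 * κ) * (r * Φ0) ≤ p * (1 - C1 * κ) * N := by
      apply mul_le_mul_of_nonneg_left hN
      have : 0 ≤ 1 - C1 * κ := by linarith
      positivity
    have e2 : p * C1 * κ * r * Φ0 ≤ p * C1 * κ * (a * ℓ * κ) * Φ0 := by
      apply mul_le_mul_of_nonneg_right _ hΦ0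
      apply mul_le_mul_of_nonneg_left hr1
      positivity
    nlinarith
  set q := 1 - 2 * r with hq
  have hQ1q : Q1 = Q0 * q := by rw [hQ1, hΦr, hq]; ring
  have hpr : p * r ≤ 1 / 2 := by
    have : p * r ≤ p * (a * ℓ * κ) := mul_le_mul_of_nonneg_left hr1 hp0.le
    linarith
  have hr4 : r ≤ 1 / 4 := by nlinarith
  have hq0 : 0 < q := by linarith
  have hbern : 1 - p * r ≤ q ^ (p / 2) := by
    have := one_add_mul_self_le_rpow_one_add (s := -(2 * r)) (by linarith) (p := p / 2)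
      (by linarith)
    have e : 1 + p / 2 * -(2 * r) = 1 - p * r := by ring
    have e' : 1 + -(2 * r) = q := by rw [hq]; ring
    rw [e, e'] at this
    exact this
  have hqh : 1 / 2 ≤ q ^ (p / 2) := by linarith
  set X := p * C1 * a * ℓ * κ ^ 2 with hX
  have hX0 : 0 ≤ X := by positivity
  have h3 : 1 - p * r + X ≤ q ^ (p / 2) * (1 + 2 * X) := by nlinarith
  have h4 : Φ1 * (1 - p * a / 2 * κ ^ 2) ≤ Φ0 * (q ^ (p / 2) * (1 + 2 * X)) :=
    (h1.trans h2).trans (mul_le_mul_of_nonneg_left h3 hΦ0)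
  -- invert the factor
  set x := p * a / 2 * κ ^ 2 with hx
  have hx0 : 0 ≤ x := by positivity
  have hx1 : x ≤ 1 / 2 := by rw [hx]; nlinarith
  have h5 : 1 ≤ (1 - x) * (1 + 2 * x) := by nlinarith
  have h6 : Φ1 ≤ Φ0 * (q ^ (p / 2) * (1 + 2 * X)) * (1 + 2 * x) := by
    calc Φ1 ≤ Φ1 * ((1 - x) * (1 + 2 * x)) := le_mul_of_one_le_right hΦ1 h5
      _ = (Φ1 * (1 - x)) * (1 + 2 * x) := by ring
      _ ≤ (Φ0 * (q ^ (p / 2) * (1 + 2 * X))) * (1 + 2 * x) :=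
        mul_le_mul_of_nonneg_right h4 (by linarith)
  have h7 : (1 + 2 * X) * (1 + 2 * x) ≤ 1 + A * κ ^ 2 := by
    have e1 : 2 * X = 2 * p * C1 * a * ℓ * κ ^ 2 := by rw [hX]; ring
    have e2 : 2 * x = p * a * κ ^ 2 := by rw [hx]; ring
    rw [e1, e2, hA]
    have hκ2 : κ ^ 2 ≤ 1 := by nlinarith
    have hc : 0 ≤ 2 * p * C1 * a * ℓ * (p * a) * κ ^ 2 := by positivity
    nlinarith
  have hq2 : 0 ≤ q ^ (p / 2) := by positivity
  calc Φ1 ≤ Φ0 * (q ^ (p / 2) * (1 + 2 * X)) * (1 + 2 * x) := h6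
    _ = Φ0 * q ^ (p / 2) * ((1 + 2 * X) * (1 + 2 * x)) := by ring
    _ ≤ Φ0 * q ^ (p / 2) * (1 + A * κ ^ 2) := by
        apply mul_le_mul_of_nonneg_left h7; positivity
    _ ≤ (R * Q0 ^ (p / 2)) * q ^ (p / 2) * (1 + A * κ ^ 2) := by
        apply mul_le_mul_of_nonneg_right
        · exact mul_le_mul_of_nonneg_right hR hq2
        · have : 0 ≤ A := by rw [hA]; positivity
          positivity
    _ = R * (1 + A * κ ^ 2) * Q1 ^ (p / 2) := by
        rw [hQ1q, Real.mul_rpow hQ0.le hq0.le]; ring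

/-- One step for `Q ^ (-α/2)`. -/
lemma z_step {Q0 Q1 R α : ℝ} (hα : 0 < α) (hQ0 : 0 < Q0)
    (h1 : Q0 - 2 * (R * Q0 ^ ((α + 2) / 2)) ≤ Q1) (h2 : Q0 / 2 ≤ Q1) (hR : 0 ≤ R) :
    Q1 ^ (-(α / 2)) ≤ Q0 ^ (-(α / 2)) + α * 2 ^ (α / 2 + 1) * R := by
  have hQ1 : 0 < Q1 := by linarith
  rcases le_or_gt Q0 Q1 with h | h
  · have e1 : Q1 ^ (-(α / 2)) ≤ Q0 ^ (-(α / 2)) :=
      Real.rpow_le_rpow_of_nonpos hQ0 h (by linarith)
    have : 0 ≤ α * 2 ^ (α / 2 + 1) * R := by positivity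
    linarith
  · obtain ⟨c, hc, hce⟩ := exists_hasDerivAt_eq_slope (fun x : ℝ => x ^ (-(α / 2)))
      (fun x => -(α / 2) * x ^ (-(α / 2) - 1)) h (by
        apply ContinuousOn.rpow_const continuousOn_id
        intro x hx; left; simp only [id]; linarith [hx.1])
      (fun x hx => Real.hasDerivAt_rpow_const (p := -(α / 2)) (Or.inl (by linarith [hx.1])))
    have e1 : Q1 ^ (-(α / 2)) - Q0 ^ (-(α / 2)) = (α / 2 * c ^ (-(α / 2) - 1)) * (Q0 - Q1) := by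
      have hne : Q0 - Q1 ≠ 0 := by linarith
      have : -(α / 2) * c ^ (-(α / 2) - 1) * (Q0 - Q1) = Q0 ^ (-(α / 2)) - Q1 ^ (-(α / 2)) := by
        rw [hce]; field_simp
      linarith
    have hc0 : 0 < c := by linarith [hc.1]
    have e2 : c ^ (-(α / 2) - 1) ≤ (Q0 / 2) ^ (-(α / 2) - 1) :=
      Real.rpow_le_rpow_of_nonpos (by positivity) (by linarith [hc.1]) (by linarith)
    have e3 : (Q0 / 2) ^ (-(α / 2) - 1) = 2 ^ (α / 2 + 1) * (Q0 ^ ((α + 2) / 2))⁻¹ := by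
      rw [Real.div_rpow hQ0.le (by norm_num), show -(α / 2) - 1 = -(α / 2 + 1) by ring,
        Real.rpow_neg (by norm_num : (0:ℝ) ≤ 2), Real.rpow_neg hQ0.le,
        show (α + 2) / 2 = α / 2 + 1 by ring]
      field_simp
    rw [e3] at e2
    have hQp : 0 < Q0 ^ ((α + 2) / 2) := by positivity
    have e4 : Q0 - Q1 ≤ 2 * (R * Q0 ^ ((α + 2) / 2)) := by linarith
    have e5 : (α / 2 * c ^ (-(α / 2) - 1)) * (Q0 - Q1)
        ≤ (α / 2 * (2 ^ (α / 2 + 1) * (Q0 ^ ((α + 2) / 2))⁻¹)) * (2 * (R * Q0 ^ ((α + 2) / 2))) := by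
      apply mul_le_mul _ e4 (by linarith) (by positivity)
      exact mul_le_mul_of_nonneg_left e2 (by positivity)
    have e6 : (α / 2 * (2 ^ (α / 2 + 1) * (Q0 ^ ((α + 2) / 2))⁻¹)) * (2 * (R * Q0 ^ ((α + 2) / 2)))
        = α * 2 ^ (α / 2 + 1) * R := by field_simp
    rw [e6] at e5
    linarith

section
variable {ℓ a α : ℝ} {f v : ℝ → ℝ → ℝ}

/-- Lower bound over a bounded time. -/
lemma Q_half (hℓ : 0 < ℓ) (ha : 0 < a) (hα : 0 < α) (hf : CharSol ℓ a α f v) {s h K : ℝ}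
    (hs : 0 ≤ s) (hh : 0 ≤ h) (hK : ∀ τ, s ≤ τ → ∀ z, |f τ z| ≤ K)
    (hsmall : 4 * (a * K ^ α) * h ≤ 1) : Q ℓ f s / 2 ≤ Q ℓ f (s + h) := by
  have hK0 : 0 ≤ K := (abs_nonneg _).trans (hK s le_rfl 0)
  have h1 := energy_identity hα hf hs (by linarith : s ≤ s + h)
  have h2 : ∫ τ in s..(s + h), Pd ℓ a α f τ ≤ ∫ _τ in s..(s + h), a * K ^ α * Q ℓ f s := by
    apply intervalIntegral.integral_mono_on (by linarith)
    · exact (Pd_cont hα hf).intervalIntegrable _ _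
    · exact continuous_const.intervalIntegrable _ _
    · intro τ hτ
      refine (Pd_le hℓ ha hα hf (hK τ hτ.1)).trans ?_
      apply mul_le_mul_of_nonneg_left _ (by positivity)
      exact Q_anti hℓ ha hα hf hs hτ.1
  rw [intervalIntegral.integral_const, smul_eq_mul] at h2
  have hQ := Q_nonneg (f := f) hℓ s
  nlinarith

lemma Q_lower_bounded (hℓ : 0 < ℓ) (ha : 0 < a) (hα : 0 < α) (hf : CharSol ℓ a α f v)
    {s h K : ℝ} (hs : 0 ≤ s) (hh : 0 ≤ h) (hK : ∀ τ, s ≤ τ → ∀ z, |f τ z| ≤ K)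
    (hsmall : 4 * (a * K ^ α) * h ≤ 1) (n : ℕ) : Q ℓ f s / 2 ^ n ≤ Q ℓ f (s + n * h) := by
  induction n with
  | zero => simp
  | succ n ih =>
    have h1 := Q_half (s := s + n * h) hℓ ha hα hf (by positivity) hh
      (fun τ hτ z => hK τ (by have : 0 ≤ (n:ℝ) * h := by positivity
                              linarith) z) hsmall
    have e : s + ((n + 1 : ℕ) : ℝ) * h = s + n * h + h := by push_cast; ring
    rw [e, pow_succ, ← div_div]
    linarith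

/-- Upper bound for the energy. -/
lemma upper (ℓ a α : ℝ) (hℓ : 0 < ℓ) (ha : 0 < a) (hα : 0 < α) (q0 : ℝ) (hq0 : 0 < q0) :
    ∃ C : ℝ, 0 < C ∧ ∀ f v : ℝ → ℝ → ℝ, CharSol ℓ a α f v → Q ℓ f 0 ≤ q0 →
      ∀ t ≥ 0, Q ℓ f t ≤ C * (1 + t) ^ (-(2 / α)) := by
  obtain ⟨T, C, hT, hC, hsup⟩ := sup_decay ℓ a α hℓ ha hα (Real.sqrt (ℓ * q0)) (by positivity)
  set C1 := 2 * ℓ * C ^ 2 * (T / (1 + T)) ^ (-(2 / α)) with hC1
  set C2 := q0 * (1 + T) ^ (2 / α) with hC2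
  refine ⟨C1 + C2, by positivity, ?_⟩
  intro f v hf hQ0 t ht
  have hv : ∀ t ≥ 0, ∀ y, |v t y| ≤ Real.sqrt (ℓ * q0) := by
    intro t ht y
    have h1 := hf.v_energy t ht y
    have h2 : Q ℓ f t ≤ q0 := (Q_anti hℓ ha hα hf le_rfl ht).trans hQ0
    rw [← Real.sqrt_sq_eq_abs]
    apply Real.sqrt_le_sqrt
    refine h1.trans ?_
    exact mul_le_mul_of_nonneg_left h2 hℓ.le
  have h1t : 0 < 1 + t := by linarith
  have hp : 0 < (1 + t) ^ (-(2 / α)) := by positivity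
  rcases le_or_gt T t with h | h
  · have ht0 : 0 < t := by linarith
    have h1 : Q ℓ f t ≤ ∫ _y in (0:ℝ)..(2 * ℓ), (C * t ^ (-(1 / α))) ^ 2 := by
      have hc := hf.cont
      unfold Q
      apply intervalIntegral.integral_mono_on (by linarith)
      · apply Continuous.intervalIntegrable; fun_prop
      · exact continuous_const.intervalIntegrable _ _
      · intro y _
        rw [← sq_abs]
        exact pow_le_pow_left₀ (abs_nonneg _) (hsup f v hf hv t h y) 2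
    rw [intervalIntegral.integral_const, smul_eq_mul, sub_zero, mul_pow] at h1
    have h2 : (t ^ (-(1 / α))) ^ 2 = t ^ (-(2 / α)) := by
      rw [← Real.rpow_natCast, ← Real.rpow_mul ht0.le]
      congr 1
      push_cast
      ring
    rw [h2] at h1
    have h3 : t ^ (-(2 / α)) ≤ (T / (1 + T)) ^ (-(2 / α)) * (1 + t) ^ (-(2 / α)) := by
      rw [← Real.mul_rpow (by positivity) h1t.le]
      apply Real.rpow_le_rpow_of_nonpos (by positivity)
      · rw [div_mul_eq_mul_div, div_le_iff₀ (by linarith)]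
        nlinarith
      · have : 0 < 2 / α := by positivity
        linarith
    calc Q ℓ f t ≤ 2 * ℓ * (C ^ 2 * t ^ (-(2 / α))) := h1
      _ ≤ 2 * ℓ * (C ^ 2 * ((T / (1 + T)) ^ (-(2 / α)) * (1 + t) ^ (-(2 / α)))) := by
          apply mul_le_mul_of_nonneg_left _ (by positivity)
          exact mul_le_mul_of_nonneg_left h3 (by positivity)
      _ = C1 * (1 + t) ^ (-(2 / α)) := by rw [hC1]; ring
      _ ≤ (C1 + C2) * (1 + t) ^ (-(2 / α)) := by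
          apply mul_le_mul_of_nonneg_right _ hp.le
          have : 0 < C2 := by positivity
          linarith
  · have h2 : Q ℓ f t ≤ q0 := (Q_anti hℓ ha hα hf le_rfl ht).trans hQ0
    have h3 : 1 ≤ (1 + T) ^ (2 / α) * (1 + t) ^ (-(2 / α)) := by
      rw [Real.rpow_neg h1t.le, ← div_eq_mul_inv, one_le_div (by positivity)]
      exact Real.rpow_le_rpow h1t.le (by linarith) (by positivity)
    calc Q ℓ f t ≤ q0 * 1 := by linarith
      _ ≤ q0 * ((1 + T) ^ (2 / α) * (1 + t) ^ (-(2 / α))) :=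
          mul_le_mul_of_nonneg_left h3 hq0.le
      _ = C2 * (1 + t) ^ (-(2 / α)) := by rw [hC2]; ring
      _ ≤ (C1 + C2) * (1 + t) ^ (-(2 / α)) := by
          apply mul_le_mul_of_nonneg_right _ hp.le
          have : 0 < C1 := by positivity
          linarith

end

end Pool.Agent.MP_4c4330_an
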