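import Pool.Agent.MP_4c4330_an.Bridge
import Pool.Agent.MP_4c4330_an.Rate
import Pool.Agent.MP_4c4330_an.Lower

open Set Real MeasureTheory intervalIntegral Function

namespace Pool.Agent.MP_4c4330_an

/-- Trajectories `t ↦ (u(t), u_t(t))` in the energy space `H¹₀(A,B) × L²(A,B)`, written through
`P = u_x` and `V = u_t`: limits, in the energy norm and uniformly in `t ≥ 0`, of classical
solutions. -/
structure IsEnergySolution (A B a α : ℝ) (P V : ℝ → ℝ → ℝ) : Prop where
  memP : ∀ t ≥ 0, MemLp (P t) 2 (volume.restrict (Ioo A B))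
  memV : ∀ t ≥ 0, MemLp (V t) 2 (volume.restrict (Ioo A B))
  approx : ∃ u : ℕ → ℝ → ℝ → ℝ, (∀ n, IsClassicalSolution A B a α (u n)) ∧
    ∀ ε > 0, ∃ M, ∀ n ≥ M, ∀ t ≥ 0,
      ∫ x in Ioo A B, ((P t x - spaceDeriv (u n) t x) ^ 2
        + (V t x - timeDeriv (u n) t x) ^ 2) ≤ ε

/-- The energy `∫ (u_t² + u_x²)`. -/
noncomputable def energy (A B : ℝ) (P V : ℝ → ℝ → ℝ) (t : ℝ) : ℝ :=
  ∫ x in Ioo A B, ((V t x) ^ 2 + (P t x) ^ 2)

section
variable {A B a α : ℝ} {u : ℝ → ℝ → ℝ}

lemma timeDeriv_mem (hAB : A < B) (hu : IsClassicalSolution A B a α u) {t : ℝ} (ht : 0 ≤ t) :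
    MemLp (timeDeriv u t) 2 (volume.restrict (Ioo A B)) := by
  have hc : ContinuousOn (fun x => Dw A B u (t, x) (1, 0)) (Icc A B) := by
    have h1 : ContinuousOn (fun x => Dw A B u (t, x)) (Icc A B) := by
      apply (Dw_cont hAB hu).comp (by fun_prop)
      intro x hx
      exact ⟨ht, hx⟩
    exact h1.clm_apply continuousOn_const
  have h2 : MemLp (fun x => Dw A B u (t, x) (1, 0)) 2 (volume.restrict (Ioo A B)) := by
    have h3 : MemLp (fun x => Dw A B u (t, x) (1, 0)) 2 (volume.restrict (Icc A B)) := by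
      obtain ⟨K, hK⟩ := isCompact_Icc.exists_bound_of_continuousOn hc
      apply MemLp.of_bound (hc.aestronglyMeasurable measurableSet_Icc) K
      filter_upwards [ae_restrict_mem measurableSet_Icc] with x hx using hK x hx
    exact h3.mono_measure (Measure.restrict_mono Ioo_subset_Icc_self le_rfl)
  apply h2.ae_eq
  filter_upwards [ae_restrict_mem measurableSet_Ioo] with x hx
  exact (timeDeriv_eq hu ht ⟨hx.1.le, hx.2.le⟩).symm

lemma spaceDeriv_mem (hAB : A < B) (hu : IsClassicalSolution A B a α u) {t : ℝ} (ht : 0 ≤ t) :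
    MemLp (spaceDeriv u t) 2 (volume.restrict (Ioo A B)) := by
  have hc : ContinuousOn (fun x => Dw A B u (t, x) (0, 1)) (Icc A B) := by
    have h1 : ContinuousOn (fun x => Dw A B u (t, x)) (Icc A B) := by
      apply (Dw_cont hAB hu).comp (by fun_prop)
      intro x hx
      exact ⟨ht, hx⟩
    exact h1.clm_apply continuousOn_const
  have h2 : MemLp (fun x => Dw A B u (t, x) (0, 1)) 2 (volume.restrict (Ioo A B)) := by
    have h3 : MemLp (fun x => Dw A B u (t, x) (0, 1)) 2 (volume.restrict (Icc A B)) := by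
      obtain ⟨K, hK⟩ := isCompact_Icc.exists_bound_of_continuousOn hc
      apply MemLp.of_bound (hc.aestronglyMeasurable measurableSet_Icc) K
      filter_upwards [ae_restrict_mem measurableSet_Icc] with x hx using hK x hx
    exact h3.mono_measure (Measure.restrict_mono Ioo_subset_Icc_self le_rfl)
  apply h2.ae_eq
  filter_upwards [ae_restrict_mem measurableSet_Ioo] with x hx
  exact (spaceDeriv_eq hu ht hx).symm

lemma energy_class (hAB : A < B) (hu : IsClassicalSolution A B a α u) {t : ℝ} (ht : 0 ≤ t) :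
    Q (B - A) (fB A B u) t = 2 * energy A B (spaceDeriv u) (timeDeriv u) t := by
  rw [energy_eq hAB hu ht, energy, intervalIntegral.integral_of_le hAB.le,
    ← integral_Ioc_eq_integral_Ioo]

lemma sq_compare {μ : Measure ℝ} {p v p' v' : ℝ → ℝ} (hp : MemLp p 2 μ) (hv : MemLp v 2 μ)
    (hp' : MemLp p' 2 μ) (hv' : MemLp v' 2 μ) :
    ∫ x, ((v x) ^ 2 + (p x) ^ 2) ∂μ ≤ 2 * ∫ x, ((v' x) ^ 2 + (p' x) ^ 2) ∂μ
      + 2 * ∫ x, ((p x - p' x) ^ 2 + (v x - v' x) ^ 2) ∂μ := by
  have i1 : Integrable (fun x => (v x) ^ 2 + (p x) ^ 2) μ := hv.integrable_sq.add hp.integrable_sq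
  have i2 : Integrable (fun x => (v' x) ^ 2 + (p' x) ^ 2) μ :=
    hv'.integrable_sq.add hp'.integrable_sq
  have i3 : Integrable (fun x => (p x - p' x) ^ 2 + (v x - v' x) ^ 2) μ :=
    (hp.sub hp').integrable_sq.add (hv.sub hv').integrable_sq
  rw [← MeasureTheory.integral_const_mul, ← MeasureTheory.integral_const_mul,
    ← MeasureTheory.integral_add (i2.const_mul 2) (i3.const_mul 2)]
  apply MeasureTheory.integral_mono i1 ((i2.const_mul 2).add (i3.const_mul 2))
  intro x
  simp only [Pi.add_apply]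
  nlinarith [sq_nonneg (p x - 2 * p' x), sq_nonneg (v x - 2 * v' x)]

/-- Every non-trivial energy solution decays exactly like `(1+t)^(-2/α)`. -/
theorem decay (hAB : A < B) (ha : 0 < a) (hα : 0 < α) {P V : ℝ → ℝ → ℝ}
    (h : IsEnergySolution A B a α P V) (hne : 0 < energy A B P V 0) :
    ∃ c C : ℝ, 0 < c ∧ 0 < C ∧ ∀ t ≥ 0, c * (1 + t) ^ (-(2 / α)) ≤ energy A B P V t ∧
      energy A B P V t ≤ C * (1 + t) ^ (-(2 / α)) := by
  have hℓ : 0 < B - A := sub_pos.2 hAB
  obtain ⟨u, hu, happ⟩ := h.approx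
  -- comparison inequalities
  have c1 : ∀ n, ∀ t ≥ 0, energy A B P V t ≤ 2 * energy A B (spaceDeriv (u n)) (timeDeriv (u n)) t
      + 2 * ∫ x in Ioo A B, ((P t x - spaceDeriv (u n) t x) ^ 2
        + (V t x - timeDeriv (u n) t x) ^ 2) := fun n t ht =>
    sq_compare (h.memP t ht) (h.memV t ht) (spaceDeriv_mem hAB (hu n) ht)
      (timeDeriv_mem hAB (hu n) ht)
  have c2 : ∀ n, ∀ t ≥ 0, energy A B (spaceDeriv (u n)) (timeDeriv (u n)) t
      ≤ 2 * energy A B P V t
      + 2 * ∫ x in Ioo A B, ((P t x - spaceDeriv (u n) t x) ^ 2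
        + (V t x - timeDeriv (u n) t x) ^ 2) := by
    intro n t ht
    have := sq_compare (spaceDeriv_mem hAB (hu n) ht)
      (timeDeriv_mem hAB (hu n) ht) (h.memP t ht) (h.memV t ht)
    have e : ∫ x in Ioo A B, ((spaceDeriv (u n) t x - P t x) ^ 2
        + (timeDeriv (u n) t x - V t x) ^ 2) = ∫ x in Ioo A B, ((P t x - spaceDeriv (u n) t x) ^ 2
        + (V t x - timeDeriv (u n) t x) ^ 2) := by
      congr 1
      funext x
      ring
    rw [e] at this
    exact this
  set E0 := energy A B P V 0 with hE0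
  -- a positive time with positive energy
  obtain ⟨N1, hN1⟩ := happ (E0 / 32) (by positivity)
  obtain ⟨s, hs, hEs⟩ : ∃ s > 0, 0 < energy A B P V s := by
    have h1 := c1 N1 0 le_rfl
    have h2 := hN1 N1 le_rfl 0 le_rfl
    have hch := charSol hAB hα (hu N1)
    have h3 : E0 / 2 - E0 / 32 ≤ energy A B (spaceDeriv (u N1)) (timeDeriv (u N1)) 0 := by
      linarith
    -- continuity of the energy of the classical solution
    have hQc : Filter.Tendsto (fun t => Q (B - A) (fB A B (u N1)) t) (nhdsWithin 0 (Ici 0))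
        (nhds (Q (B - A) (fB A B (u N1)) 0)) := by
      have hP := Pd_cont hα hch
      have h4 : Filter.Tendsto (fun t => Q (B - A) (fB A B (u N1)) 0
          + -2 * ∫ s in (0:ℝ)..t, Pd (B - A) a α (fB A B (u N1)) s) (nhdsWithin 0 (Ici 0))
          (nhds (Q (B - A) (fB A B (u N1)) 0)) := by
        have h5 : Continuous fun t => Q (B - A) (fB A B (u N1)) 0
          + -2 * ∫ s in (0:ℝ)..t, Pd (B - A) a α (fB A B (u N1)) s := by
          apply Continuous.add continuous_const
          apply Continuous.mul continuous_const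
          exact intervalIntegral.continuous_primitive (fun a b => hP.intervalIntegrable a b) 0
        have h6 := (h5.tendsto 0).mono_left (nhdsWithin_le_nhds (s := Ici (0:ℝ)))
        simpa using h6
      refine h4.congr' ?_
      filter_upwards [self_mem_nhdsWithin] with t ht
      have := energy_identity hα hch (t₁ := 0) (t₂ := t) le_rfl ht
      linarith
    have h7 : ∀ᶠ t in nhdsWithin (0:ℝ) (Ici 0), Q (B - A) (fB A B (u N1)) 0 - E0 / 8
        < Q (B - A) (fB A B (u N1)) t :=
      hQc.eventually (lt_mem_nhds (by linarith))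
    have h8 : ∀ᶠ t in nhdsWithin (0:ℝ) (Ioi 0), Q (B - A) (fB A B (u N1)) 0 - E0 / 8
        < Q (B - A) (fB A B (u N1)) t := h7.filter_mono (nhdsWithin_mono _ Ioi_subset_Ici_self)
    obtain ⟨s, hs1, hs2⟩ := (h8.and self_mem_nhdsWithin).exists
    refine ⟨s, hs2, ?_⟩
    have hs3 : (0:ℝ) < s := hs2
    have h9 := c2 N1 s hs3.le
    have h10 := hN1 N1 le_rfl s hs3.le
    rw [energy_class hAB (hu N1) le_rfl, energy_class hAB (hu N1) hs3.le] at hs1
    linarith
  set Es := energy A B P V s with hEs'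
  obtain ⟨N2, hN2⟩ := happ (min (Es / 4) 1) (by positivity)
  obtain ⟨C, hC, hup⟩ := upper (B - A) a α hℓ ha hα (4 * E0 + 4) (by linarith)
  obtain ⟨c, hc, hlo⟩ := lower (B - A) a α hℓ ha hα (4 * E0 + 4) (Es / 2) s (by linarith)
    (by positivity) hs
  have key : ∀ n ≥ N2, Q (B - A) (fB A B (u n)) 0 ≤ 4 * E0 + 4 ∧
      Es / 2 ≤ Q (B - A) (fB A B (u n)) s := by
    intro n hn
    constructor
    · have h1 := c2 n 0 le_rfl
      have h2 := hN2 n hn 0 le_rfl
      rw [energy_class hAB (hu n) le_rfl]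
      have := min_le_right (Es / 4) 1
      linarith
    · have h1 := c1 n s hs.le
      have h2 := hN2 n hn s hs.le
      rw [energy_class hAB (hu n) hs.le]
      have := min_le_left (Es / 4) 1
      linarith
  refine ⟨c / 4, C, by positivity, hC, ?_⟩
  intro t ht
  constructor
  · apply le_of_forall_pos_le_add
    intro ε hε
    obtain ⟨N3, hN3⟩ := happ ε hε
    set n := max N2 N3 with hn
    have h1 := (key n (le_max_left _ _))
    have h2 := hlo _ _ (charSol hAB hα (hu n)) h1.1 h1.2 t ht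
    have h3 := hN3 n (le_max_right _ _) t ht
    have h4 := c2 n t ht
    rw [energy_class hAB (hu n) ht] at h2
    have e : c / 4 * (1 + t) ^ (-(2 / α)) = (c * (1 + t) ^ (-(2 / α))) / 4 := by ring
    rw [e]
    linarith
  · apply le_of_forall_pos_le_add
    intro ε hε
    obtain ⟨N3, hN3⟩ := happ (ε / 2) (by positivity)
    set n := max N2 N3 with hn
    have h1 := (key n (le_max_left _ _))
    have h2 := hup _ _ (charSol hAB hα (hu n)) h1.1 t ht
    have h3 := hN3 n (le_max_right _ _) t ht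
    have h4 := c1 n t ht
    rw [energy_class hAB (hu n) ht] at h2
    linarith

end

end Pool.Agent.MP_4c4330_an
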