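import Pool.Agent.MP_4c4330_an.Basics

open MeasureTheory Set Filter Topology
open scoped ENNReal ContDiff

set_option linter.unusedSectionVars false

namespace Pool.Agent.MP_4c4330_an

lemma abs_mid_rpow {α : ℝ} (hα : 0 < α) (x y : ℝ) :
    |(2:ℝ)⁻¹ * (x + y)| ^ (α + 2) ≤ (2:ℝ)⁻¹ * |x| ^ (α + 2) + (2:ℝ)⁻¹ * |y| ^ (α + 2) := by
  have h1 : |(2:ℝ)⁻¹ * (x + y)| ≤ (2:ℝ)⁻¹ * |x| + (2:ℝ)⁻¹ * |y| := by
    rw [abs_mul, abs_of_pos (by norm_num : (0:ℝ) < 2⁻¹), ← mul_add]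
    exact mul_le_mul_of_nonneg_left (abs_add_le x y) (by norm_num)
  refine (Real.rpow_le_rpow (abs_nonneg _) h1 (by linarith)).trans ?_
  have hx : |x| ∈ Ici (0:ℝ) := abs_nonneg x
  have hy : |y| ∈ Ici (0:ℝ) := abs_nonneg y
  have h2 := (convexOn_rpow (p := α + 2) (by linarith)).2 hx hy
    (show (0:ℝ) ≤ 2⁻¹ by norm_num) (show (0:ℝ) ≤ 2⁻¹ by norm_num) (by norm_num)
  simpa only [smul_eq_mul] using h2

section
variable {E : Type*} [NormedAddCommGroup E] [InnerProductSpace ℝ E] [FiniteDimensional ℝ E]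
  [MeasurableSpace E] [BorelSpace E] {Ω : Set E} {a α : ℝ}

/-- Lower semicontinuity of the power functional. -/
lemma fatou_pow {μ : Measure E} (hα : 0 < α) {w : ℕ → Lp ℝ 2 μ} {w₀ : Lp ℝ 2 μ}
    (hw : Tendsto w atTop (𝓝 w₀)) {C : ℝ}
    (hi : ∀ n, Integrable (fun y => |w n y| ^ (α + 2)) μ)
    (hC : ∀ᶠ n in atTop, ∫ y, |w n y| ^ (α + 2) ∂μ ≤ C) :
    Integrable (fun y => |w₀ y| ^ (α + 2)) μ ∧ ∫ y, |w₀ y| ^ (α + 2) ∂μ ≤ C := by
  have hm : TendstoInMeasure μ (fun n => (w n : E → ℝ)) atTop (w₀ : E → ℝ) :=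
    tendstoInMeasure_of_tendsto_Lp hw
  obtain ⟨ns, hns, hae⟩ := hm.exists_seq_tendsto_ae
  have hcont : Continuous fun s : ℝ => ENNReal.ofReal (|s| ^ (α + 2)) := by
    apply ENNReal.continuous_ofReal.comp
    exact continuous_abs.rpow_const (fun _ => Or.inr (by linarith))
  have h1 : ∫⁻ y, ENNReal.ofReal (|w₀ y| ^ (α + 2)) ∂μ ≤ ENNReal.ofReal C := by
    have e1 : ∫⁻ y, ENNReal.ofReal (|w₀ y| ^ (α + 2)) ∂μ
        = ∫⁻ y, liminf (fun n => ENNReal.ofReal (|w (ns n) y| ^ (α + 2))) atTop ∂μ := by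
      apply lintegral_congr_ae
      filter_upwards [hae] with y hy
      exact (((hcont.tendsto _).comp hy).liminf_eq).symm
    rw [e1]
    refine (lintegral_liminf_le' (fun n => ?_)).trans ?_
    · exact hcont.measurable.comp_aemeasurable (Lp.aestronglyMeasurable _).aemeasurable
    · apply liminf_le_of_frequently_le'
      apply Eventually.frequently
      filter_upwards [hns.tendsto_atTop.eventually hC] with n hn
      rw [← ofReal_integral_eq_lintegral_ofReal (hi _)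
        (Eventually.of_forall fun y => by positivity)]
      exact ENNReal.ofReal_le_ofReal hn
  have hmeas : AEStronglyMeasurable (fun y => |w₀ y| ^ (α + 2)) μ := by
    have : Continuous fun s : ℝ => |s| ^ (α + 2) :=
      continuous_abs.rpow_const (fun _ => Or.inr (by linarith))
    exact this.comp_aestronglyMeasurable (Lp.aestronglyMeasurable _)
  have hint : Integrable (fun y => |w₀ y| ^ (α + 2)) μ := by
    refine ⟨hmeas, ?_⟩
    rw [hasFiniteIntegral_iff_ofReal (Eventually.of_forall fun y => by positivity)]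
    exact lt_of_le_of_lt h1 ENNReal.ofReal_lt_top
  refine ⟨hint, ?_⟩
  have hC0 : 0 ≤ C := by
    obtain ⟨n, hn⟩ := hC.exists
    exact (integral_nonneg (fun y => by positivity)).trans hn
  rw [← ofReal_integral_eq_lintegral_ofReal hint
        (Eventually.of_forall fun y => by positivity)] at h1
  exact (ENNReal.ofReal_le_ofReal_iff hC0).1 h1

/-- The functional minimised by the resolvent. -/
noncomputable def Jf (Ω : Set E) (a α h : ℝ) (v : Lp ℝ 2 (volume.restrict Ω))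
    (p : Lp E 2 (volume.restrict Ω)) (w : Lp ℝ 2 (volume.restrict Ω))
    (r : Lp E 2 (volume.restrict Ω)) : ℝ :=
  2⁻¹ * ‖w - v‖ ^ 2 + 2⁻¹ * ‖p + h • r‖ ^ 2 + h * (a / (α + 2)) * ∫ y in Ω, |w y| ^ (α + 2)

lemma Jf_nonneg (ha : 0 < a) (hα : 0 < α) {h : ℝ} (hh : 0 < h) (v w : Lp ℝ 2 (volume.restrict Ω))
    (p r : Lp E 2 (volume.restrict Ω)) : 0 ≤ Jf Ω a α h v p w r := by
  unfold Jf
  have : 0 ≤ ∫ y in Ω, |w y| ^ (α + 2) := integral_nonneg (fun y => by positivity)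
  positivity

lemma norm_mid {F : Type*} [NormedAddCommGroup F] [InnerProductSpace ℝ F] (x y : F) :
    ‖(2:ℝ)⁻¹ • (x + y)‖ ^ 2 = 2⁻¹ * ‖x‖ ^ 2 + 2⁻¹ * ‖y‖ ^ 2 - 4⁻¹ * ‖x - y‖ ^ 2 := by
  have h1 := parallelogram_law_with_norm ℝ x y
  rw [norm_smul, mul_pow, Real.norm_eq_abs, abs_of_pos (by norm_num : (0:ℝ) < 2⁻¹)]
  nlinarith

lemma Jf_mid (ha : 0 < a) (hα : 0 < α) {h : ℝ} (hh : 0 < h)
    (v w w' : Lp ℝ 2 (volume.restrict Ω)) (p r r' : Lp E 2 (volume.restrict Ω))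
    (hw : Integrable (fun y => |w y| ^ (α + 2)) (volume.restrict Ω))
    (hw' : Integrable (fun y => |w' y| ^ (α + 2)) (volume.restrict Ω)) :
    Jf Ω a α h v p ((2:ℝ)⁻¹ • (w + w')) ((2:ℝ)⁻¹ • (r + r'))
      ≤ 2⁻¹ * Jf Ω a α h v p w r + 2⁻¹ * Jf Ω a α h v p w' r'
        - 8⁻¹ * ‖w - w'‖ ^ 2 - 8⁻¹ * h ^ 2 * ‖r - r'‖ ^ 2 := by
  have e1 : (2:ℝ)⁻¹ • (w + w') - v = (2:ℝ)⁻¹ • ((w - v) + (w' - v)) := by module
  have e2 : p + h • (2:ℝ)⁻¹ • (r + r') = (2:ℝ)⁻¹ • ((p + h • r) + (p + h • r')) := by module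
  have n1 := norm_mid (w - v) (w' - v)
  have n2 := norm_mid (p + h • r) (p + h • r')
  have d1 : w - v - (w' - v) = w - w' := by abel
  have d2 : p + h • r - (p + h • r') = h • (r - r') := by module
  have d3 : ‖h • (r - r')‖ ^ 2 = h ^ 2 * ‖r - r'‖ ^ 2 := by
    rw [norm_smul, mul_pow, Real.norm_eq_abs, sq_abs]
  rw [d1] at n1
  rw [d2, d3] at n2
  have i3 : ∫ y in Ω, |((2:ℝ)⁻¹ • (w + w')) y| ^ (α + 2)
      ≤ 2⁻¹ * (∫ y in Ω, |w y| ^ (α + 2)) + 2⁻¹ * ∫ y in Ω, |w' y| ^ (α + 2) := by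
    rw [← MeasureTheory.integral_const_mul, ← MeasureTheory.integral_const_mul,
      ← integral_add (hw.const_mul _) (hw'.const_mul _)]
    apply integral_mono_ae
    · exact pow_int_smul hα _ (pow_int_add hα hw hw')
    · exact (hw.const_mul _).add (hw'.const_mul _)
    · filter_upwards [Lp.coeFn_smul (2:ℝ)⁻¹ (w + w'), Lp.coeFn_add w w'] with y h1 h2
      rw [h1, Pi.smul_apply, h2, Pi.add_apply, smul_eq_mul]
      exact abs_mid_rpow hα _ _
  have hc : 0 < h * (a / (α + 2)) := by positivity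
  have i4 := mul_le_mul_of_nonneg_left i3 hc.le
  unfold Jf
  rw [e1, e2, n1, n2]
  nlinarith

/-- Existence of the minimiser. -/
lemma exists_min (ha : 0 < a) (hα : 0 < α) {h : ℝ} (hh : 0 < h)
    (v : Lp ℝ 2 (volume.restrict Ω)) (p : Lp E 2 (volume.restrict Ω)) :
    ∃ w₀ r₀, InH10 Ω w₀ r₀ ∧ Integrable (fun y => |w₀ y| ^ (α + 2)) (volume.restrict Ω) ∧
      ∀ w r, InH10 Ω w r → Integrable (fun y => |w y| ^ (α + 2)) (volume.restrict Ω) →
        Jf Ω a α h v p w₀ r₀ ≤ Jf Ω a α h v p w r := by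
  set K : Set (Lp ℝ 2 (volume.restrict Ω) × Lp E 2 (volume.restrict Ω)) :=
    {z | InH10 Ω z.1 z.2 ∧ Integrable (fun y => |z.1 y| ^ (α + 2)) (volume.restrict Ω)} with hK
  set I : ℝ := sInf ((fun z => Jf Ω a α h v p z.1 z.2) '' K) with hI
  have hbdd : BddBelow ((fun z => Jf Ω a α h v p z.1 z.2) '' K) :=
    ⟨0, by rintro _ ⟨z, _, rfl⟩; exact Jf_nonneg ha hα hh _ _ _ _⟩
  have hne : ((fun z => Jf Ω a α h v p z.1 z.2) '' K).Nonempty :=
    ⟨_, ⟨(0, 0), ⟨inH10_zero, pow_int_zero hα⟩, rfl⟩⟩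
  have hIle : ∀ w r, InH10 Ω w r → Integrable (fun y => |w y| ^ (α + 2)) (volume.restrict Ω) →
      I ≤ Jf Ω a α h v p w r := fun w r h1 h2 => csInf_le hbdd ⟨(w, r), ⟨h1, h2⟩, rfl⟩
  have hseq : ∀ n : ℕ, ∃ z ∈ K, Jf Ω a α h v p z.1 z.2 < I + 1 / (n + 1) := by
    intro n
    obtain ⟨_, ⟨z, hz, rfl⟩, hlt⟩ := exists_lt_of_csInf_lt hne
      (show I < I + 1 / ((n : ℝ) + 1) by linarith [(by positivity : (0:ℝ) < 1 / ((n:ℝ) + 1))])
    exact ⟨z, hz, hlt⟩
  choose z hzK hzJ using hseq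
  have key : ∀ n m, 8⁻¹ * ‖(z n).1 - (z m).1‖ ^ 2 + 8⁻¹ * h ^ 2 * ‖(z n).2 - (z m).2‖ ^ 2
      ≤ 2⁻¹ * (1 / (n + 1)) + 2⁻¹ * (1 / (m + 1)) := by
    intro n m
    have h1 := Jf_mid ha hα hh v (z n).1 (z m).1 p (z n).2 (z m).2 (hzK n).2 (hzK m).2
    have h2 := hIle _ _ (((hzK n).1.add (hzK m).1).smul (2:ℝ)⁻¹)
      (pow_int_smul hα _ (pow_int_add hα (hzK n).2 (hzK m).2))
    have h3 := hzJ n
    have h4 := hzJ m
    linarith
  have hrate : ∀ ε > 0, ∃ N : ℕ, ∀ n ≥ N, ∀ m ≥ N,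
      2⁻¹ * (1 / ((n:ℝ) + 1)) + 2⁻¹ * (1 / ((m:ℝ) + 1)) < ε := by
    intro ε hε
    obtain ⟨N, hN⟩ := exists_nat_one_div_lt hε
    refine ⟨N, fun n hn m hm => ?_⟩
    have e1 : 1 / ((n:ℝ) + 1) ≤ 1 / ((N:ℝ) + 1) :=
      one_div_le_one_div_of_le (by positivity) (by exact_mod_cast Nat.succ_le_succ hn)
    have e2 : 1 / ((m:ℝ) + 1) ≤ 1 / ((N:ℝ) + 1) :=
      one_div_le_one_div_of_le (by positivity) (by exact_mod_cast Nat.succ_le_succ hm)
    linarith
  have hc1 : CauchySeq fun n => (z n).1 := by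
    rw [Metric.cauchySeq_iff]
    intro ε hε
    obtain ⟨N, hN⟩ := hrate (8⁻¹ * ε ^ 2) (by positivity)
    refine ⟨N, fun n hn m hm => ?_⟩
    rw [dist_eq_norm]
    have h1 := key n m
    have h2 := hN n hn m hm
    have h3 : 0 ≤ 8⁻¹ * h ^ 2 * ‖(z n).2 - (z m).2‖ ^ 2 := by positivity
    exact lt_of_pow_lt_pow_left₀ 2 hε.le (by linarith)
  have hc2 : CauchySeq fun n => (z n).2 := by
    rw [Metric.cauchySeq_iff]
    intro ε hε
    obtain ⟨N, hN⟩ := hrate (8⁻¹ * h ^ 2 * ε ^ 2) (by positivity)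
    refine ⟨N, fun n hn m hm => ?_⟩
    rw [dist_eq_norm]
    have h1 := key n m
    have h2 := hN n hn m hm
    have h3 : 0 ≤ 8⁻¹ * ‖(z n).1 - (z m).1‖ ^ 2 := by positivity
    have h4 : 8⁻¹ * h ^ 2 * ‖(z n).2 - (z m).2‖ ^ 2 < 8⁻¹ * h ^ 2 * ε ^ 2 := by linarith
    exact lt_of_pow_lt_pow_left₀ 2 hε.le (lt_of_mul_lt_mul_left h4 (by positivity))
  obtain ⟨w₀, hw₀⟩ := cauchySeq_tendsto_of_complete hc1
  obtain ⟨r₀, hr₀⟩ := cauchySeq_tendsto_of_complete hc2
  have hH : InH10 Ω w₀ r₀ := by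
    have := isClosed_InH10 (Ω := Ω)
    exact this.mem_of_tendsto (hw₀.prodMk_nhds hr₀) (Eventually.of_forall fun n => (hzK n).1)
  -- limit of the power functional
  set c := h * (a / (α + 2)) with hc
  have hc0 : 0 < c := by positivity
  set q₀ := 2⁻¹ * ‖w₀ - v‖ ^ 2 + 2⁻¹ * ‖p + h • r₀‖ ^ 2 with hq₀
  have hq : Tendsto (fun n => 2⁻¹ * ‖(z n).1 - v‖ ^ 2 + 2⁻¹ * ‖p + h • (z n).2‖ ^ 2) atTop
      (𝓝 q₀) := by
    apply Tendsto.add
    · exact ((hw₀.sub_const v).norm.pow 2).const_mul _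
    · exact ((hr₀.const_smul h).const_add p |>.norm.pow 2).const_mul _
  have hlim : ∀ ε > 0, ∀ᶠ n in atTop, ∫ y in Ω, |(z n).1 y| ^ (α + 2) ≤ (I - q₀) / c + ε := by
    intro ε hε
    have h1 : Tendsto (fun n : ℕ => I + 1 / ((n:ℝ) + 1)) atTop (𝓝 (I + 0)) :=
      tendsto_const_nhds.add tendsto_one_div_add_atTop_nhds_zero_nat
    rw [add_zero] at h1
    have h2 : Tendsto (fun n : ℕ => I + 1 / ((n:ℝ) + 1)
      - (2⁻¹ * ‖(z n).1 - v‖ ^ 2 + 2⁻¹ * ‖p + h • (z n).2‖ ^ 2)) atTop (𝓝 (I - q₀)) := h1.sub hq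
    have h3 : I - q₀ < I - q₀ + c * ε := by linarith [mul_pos hc0 hε]
    filter_upwards [h2.eventually (gt_mem_nhds h3)] with n hn
    have h4 := hzJ n
    unfold Jf at h4
    rw [div_add' _ _ _ hc0.ne', le_div_iff₀ hc0]
    linarith
  have hΦ := fun ε (hε : 0 < ε) => fatou_pow hα hw₀ (fun n => (hzK n).2) (hlim ε hε)
  have hΦ1 := (hΦ 1 one_pos).1
  have hΦ2 : ∫ y in Ω, |w₀ y| ^ (α + 2) ≤ (I - q₀) / c :=
    le_of_forall_pos_le_add fun ε hε => (hΦ ε hε).2
  refine ⟨w₀, r₀, hH, hΦ1, fun w r h1 h2 => le_trans ?_ (hIle w r h1 h2)⟩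
  rw [le_div_iff₀ hc0] at hΦ2
  unfold Jf
  linarith

/-- The implicit Euler step for the wave operator is solvable. -/
theorem exists_step (ha : 0 < a) (hα : 0 < α) {h : ℝ} (hh : 0 < h) (x : EnergySpace Ω) :
    ∃ x', EulerStep (WaveOp Ω a α) h x x' := by
  obtain ⟨w₀, r₀, hH, hI, hmin⟩ := exists_min (Ω := Ω) ha hα hh x.snd
    (x.fst : Lp E 2 (volume.restrict Ω))
  set v := x.snd with hv
  set p := (x.fst : Lp E 2 (volume.restrict Ω)) with hp
  -- one sided inequality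
  have main : ∀ w r, InH10 Ω w r → Integrable (fun y => |w y| ^ (α + 2)) (volume.restrict Ω) →
      0 ≤ inner ℝ (w₀ - v) w + h * inner ℝ (p + h • r₀) r + h * ∫ y in Ω, g a α (w₀ y) * w y := by
    intro w r hw hwi
    -- dominated convergence
    set G : ℝ → ℝ := fun s => ∫ y in Ω, g a α (w₀ y + s * w y) * w y with hG
    have hbint : Integrable (fun y => a * ((|w₀ y| + |w y|) ^ (α + 2) + |w y| ^ (α + 2)))
        (volume.restrict Ω) := by
      apply Integrable.const_mul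
      apply Integrable.add _ hwi
      have m1 : MemLp (fun y => |w₀ y|) (ENNReal.ofReal (α + 2)) (volume.restrict Ω) :=
        ((pow_int_iff hα (Lp.aestronglyMeasurable w₀)).1 hI).norm
      have m2 : MemLp (fun y => |w y|) (ENNReal.ofReal (α + 2)) (volume.restrict Ω) :=
        ((pow_int_iff hα (Lp.aestronglyMeasurable w)).1 hwi).norm
      have m3 := m1.add m2
      have m4 := (pow_int_iff hα m3.1).2 m3
      refine m4.congr (Eventually.of_forall fun y => ?_)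
      simp only [Pi.add_apply]
      rw [abs_of_nonneg (by positivity)]
    have hGbound : ∀ s ∈ Icc (0:ℝ) 1, ∀ y, ‖g a α (w₀ y + s * w y) * w y‖
        ≤ a * ((|w₀ y| + |w y|) ^ (α + 2) + |w y| ^ (α + 2)) := by
      intro s hs y
      rw [Real.norm_eq_abs]
      refine (abs_gw_le ha hα _ _).trans ?_
      apply mul_le_mul_of_nonneg_left _ ha.le
      gcongr
      refine (abs_add_le _ _).trans ?_
      rw [abs_mul, abs_of_nonneg hs.1]
      have := mul_le_mul_of_nonneg_right hs.2 (abs_nonneg (w y))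
      linarith
    have hGlim : Tendsto G (𝓝[>] 0) (𝓝 (∫ y in Ω, g a α (w₀ y) * w y)) := by
      apply tendsto_integral_filter_of_dominated_convergence _ _ _ hbint
      · apply Eventually.of_forall
        intro y
        have hc : Continuous fun s : ℝ => g a α (w₀ y + s * w y) * w y := by
          have := continuous_g (a := a) hα
          fun_prop
        have := (hc.tendsto 0).mono_left (nhdsWithin_le_nhds (s := Ioi (0:ℝ)))
        simpa using this
      · apply Eventually.of_forall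
        intro s
        apply AEStronglyMeasurable.mul _ (Lp.aestronglyMeasurable w)
        exact (continuous_g hα).comp_aestronglyMeasurable
          ((Lp.aestronglyMeasurable w₀).add ((Lp.aestronglyMeasurable w).const_mul s))
      · filter_upwards [Ioc_mem_nhdsGT (zero_lt_one (α := ℝ))] with s hs
        exact Eventually.of_forall fun y => hGbound s ⟨hs.1.le, hs.2⟩ y
    -- the difference quotient
    set A := inner ℝ (w₀ - v) w + h * inner ℝ (p + h • r₀) r with hA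
    set B := ‖w‖ ^ 2 + h ^ 2 * ‖r‖ ^ 2 with hB
    have hineq : ∀ᶠ s in 𝓝[>] (0:ℝ), 0 ≤ A + s * (2⁻¹ * B) + h * G s := by
      filter_upwards [Ioc_mem_nhdsGT (zero_lt_one (α := ℝ))] with s hs
      have hs0 : 0 < s := hs.1
      have hiw : Integrable (fun y => |(w₀ + s • w) y| ^ (α + 2)) (volume.restrict Ω) :=
        pow_int_add hα hI (pow_int_smul hα s hwi)
      have h1 := hmin (w₀ + s • w) (r₀ + s • r) (hH.add (hw.smul s)) hiw
      unfold Jf at h1
      have e1 : ‖w₀ + s • w - v‖ ^ 2 = ‖w₀ - v‖ ^ 2 + 2 * (s * inner ℝ (w₀ - v) w)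
          + s ^ 2 * ‖w‖ ^ 2 := by
        rw [show w₀ + s • w - v = (w₀ - v) + s • w by abel, norm_add_sq_real,
          real_inner_smul_right, norm_smul, mul_pow, Real.norm_eq_abs, sq_abs]
      have e2 : ‖p + h • (r₀ + s • r)‖ ^ 2 = ‖p + h • r₀‖ ^ 2
          + 2 * (s * (h * inner ℝ (p + h • r₀) r)) + s ^ 2 * (h ^ 2 * ‖r‖ ^ 2) := by
        rw [show p + h • (r₀ + s • r) = (p + h • r₀) + (s * h) • r by module, norm_add_sq_real,
          real_inner_smul_right, norm_smul, mul_pow, Real.norm_eq_abs, sq_abs]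
        ring
      have e3 : (∫ y in Ω, |(w₀ + s • w) y| ^ (α + 2)) - ∫ y in Ω, |w₀ y| ^ (α + 2)
          ≤ (α + 2) / a * (s * G s) := by
        rw [← integral_sub hiw hI, hG, ← MeasureTheory.integral_const_mul,
          ← MeasureTheory.integral_const_mul]
        apply integral_mono_ae (hiw.sub hI)
        · apply Integrable.const_mul
          apply Integrable.const_mul
          apply Integrable.mono' hbint
          · apply AEStronglyMeasurable.mul _ (Lp.aestronglyMeasurable w)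
            exact (continuous_g hα).comp_aestronglyMeasurable
              ((Lp.aestronglyMeasurable w₀).add ((Lp.aestronglyMeasurable w).const_mul s))
          · exact Eventually.of_forall fun y => hGbound s ⟨hs.1.le, hs.2⟩ y
        · filter_upwards [Lp.coeFn_add w₀ (s • w), Lp.coeFn_smul s w] with y h2 h3
          have h4 : (w₀ + s • w) y = w₀ y + s * w y := by
            rw [h2, Pi.add_apply, h3, Pi.smul_apply, smul_eq_mul]
          rw [Pi.sub_apply]
          simp only [h4]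
          have h5 := mul_g_sub_le ha hα (w₀ y + s * w y) (w₀ y)
          rw [mul_g_eq hα, mul_g_eq hα, add_sub_cancel_left] at h5
          have h6 : |w₀ y + s * w y| ^ (α + 2) - |w₀ y| ^ (α + 2)
              ≤ ((α + 2) * (g a α (w₀ y + s * w y) * (s * w y))) / a := by
            rw [le_div_iff₀ ha]
            linarith
          refine h6.trans (le_of_eq ?_)
          ring
      have h7 : h * (a / (α + 2)) * ((∫ y in Ω, |(w₀ + s • w) y| ^ (α + 2))
          - ∫ y in Ω, |w₀ y| ^ (α + 2)) ≤ h * (s * G s) := by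
        have h8 := mul_le_mul_of_nonneg_left e3 (by positivity : 0 ≤ h * (a / (α + 2)))
        refine h8.trans (le_of_eq ?_)
        field_simp
      rw [e1, e2] at h1
      have h9 : 0 ≤ s * (A + s * (2⁻¹ * B) + h * G s) := by
        rw [hA, hB]
        nlinarith
      exact nonneg_of_mul_nonneg_right h9 hs0
    have hlim2 : Tendsto (fun s : ℝ => A + s * (2⁻¹ * B) + h * G s) (𝓝[>] 0)
        (𝓝 (A + 0 * (2⁻¹ * B) + h * ∫ y in Ω, g a α (w₀ y) * w y)) := by
      apply Tendsto.add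
      · apply Tendsto.add tendsto_const_nhds
        exact (tendsto_id.mono_left nhdsWithin_le_nhds).mul_const _
      · exact hGlim.const_mul h
    rw [zero_mul, add_zero] at hlim2
    exact ge_of_tendsto hlim2 hineq
  -- equality
  have eqn : ∀ w r, InH10 Ω w r → Integrable (fun y => |w y| ^ (α + 2)) (volume.restrict Ω) →
      inner ℝ (v - w₀) w = h * inner ℝ (p + h • r₀) r + h * ∫ y in Ω, g a α (w₀ y) * w y := by
    intro w r hw hwi
    have h1 := main w r hw hwi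
    have h2 := main ((-1:ℝ) • w) ((-1:ℝ) • r) (hw.smul (-1)) (pow_int_smul hα (-1) hwi)
    have h3 : ∫ y in Ω, g a α (w₀ y) * ((-1:ℝ) • w) y = - ∫ y in Ω, g a α (w₀ y) * w y := by
      rw [← MeasureTheory.integral_neg]
      apply integral_congr_ae
      filter_upwards [Lp.coeFn_smul (-1:ℝ) w] with y hy
      rw [hy, Pi.smul_apply, smul_eq_mul]; ring
    rw [h3, real_inner_smul_right, real_inner_smul_right] at h2
    have h4 : inner ℝ (v - w₀) w = - inner ℝ (w₀ - v) w := by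
      rw [← inner_neg_left, neg_sub]
    rw [h4]
    linarith
  have hr₀ := hH.grad_mem
  refine ⟨WithLp.toLp 2 (⟨p + h • r₀, ?_⟩, w₀), ?_⟩
  · exact Submodule.add_mem _ x.fst.2 (Submodule.smul_mem _ h hr₀)
  · unfold EulerStep
    rw [waveOp_iff]
    refine ⟨?_, hI, ?_⟩
    · show InH10 Ω w₀ (-(h⁻¹ • (p - (p + h • r₀))))
      have e : -(h⁻¹ • (p - (p + h • r₀))) = r₀ := by
        rw [show p - (p + h • r₀) = -(h • r₀) by abel, smul_neg, neg_neg, smul_smul,
          inv_mul_cancel₀ hh.ne', one_smul]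
      rw [e]
      exact hH
    · intro w r hw hwi
      have h1 := eqn w r hw hwi
      simp only [WithLp.smul_snd, WithLp.sub_snd]
      rw [real_inner_smul_left, ← hv]
      show h⁻¹ * inner ℝ (v - w₀) w = inner ℝ (p + h • r₀) r + ∫ y in Ω, g a α (w₀ y) * w y
      rw [h1]
      field_simp

end

end Pool.Agent.MP_4c4330_an
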