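import Pool.Agent.MP_4c4330_an.Char

open Set Real MeasureTheory intervalIntegral Function

namespace Pool.Agent.MP_4c4330_an

section
variable {ℓ a α : ℝ} {f v : ℝ → ℝ → ℝ}

lemma f_ftc (hα : 0 < α) (hf : CharSol ℓ a α f v) {s s' : ℝ} (h0 : 0 ≤ s) (hs : s ≤ s') (y : ℝ) :
    ∫ τ in s..s', g a α ((f τ y - f τ (2 * τ - y)) / 2) = f s y - f s' y := by
  have hc := hf.cont
  have hg := continuous_g (a := a) hα
  have e : ∫ τ in s..s', (-(g a α ((f τ y - f τ (2 * τ - y)) / 2))) = f s' y - f s y := by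
    apply intervalIntegral.integral_eq_sub_of_hasDerivAt_of_le (f := fun s => f s y) hs
    · fun_prop
    · intro τ hτ
      exact hf.deriv τ (lt_of_le_of_lt h0 hτ.1) y
    · apply Continuous.intervalIntegrable; fun_prop
  rw [intervalIntegral.integral_neg] at e
  linarith

/-- The barrier inequality at a contact point of `f` with a barrier `b`. -/
lemma barrier (ha : 0 < a) (hα : 0 < α) (hf : CharSol ℓ a α f v)
    {s0 s1 y lam B σ Dst : ℝ} {b : ℝ → ℝ} (h0 : 0 ≤ s0) (h01 : s0 < s1) (hlam : 0 < lam)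
    (hB : 0 < B) (hσ : 0 ≤ σ) (hb1 : b s1 = lam) (hfb1 : f s1 y = lam)
    (hbc : ContinuousOn b (Icc s0 s1))
    (hslope : ∀ s ∈ Icc s0 s1, ∀ s' ∈ Icc s0 s1, s ≤ s' → -(σ * (s' - s)) ≤ b s' - b s)
    (hfb : ∀ s ∈ Icc s0 s1, ∀ z, |f s z| ≤ b s) (hblo : ∀ s ∈ Icc s0 s1, lam ≤ b s)
    (hbB : ∀ s ∈ Icc s0 s1, b s ≤ B * lam) (hJ : v s1 y - v s0 y ≤ (s1 - s0) * lam / 8)
    (hD1 : 0 < Dst) (hD2 : Dst ≤ lam / 4)
    (hD3 : (s1 - s0) * (σ + g a α (Dst / 2)) < Dst) :
    (3 / 8) * g a α (lam / 8) / (1 / 2 + B) ≤ σ + g a α (Dst / 2) := by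
  have hc := hf.cont
  have hg := continuous_g (a := a) hα
  have hmono := g_mono ha hα
  set G : ℝ := g a α (Dst / 2) with hG
  have hG0 : 0 ≤ G := g_nonneg ha (by linarith)
  have hφc : Continuous fun s => f s y := by fun_prop
  have hDc : ContinuousOn (fun s => b s - f s y) (Icc s0 s1) := hbc.sub hφc.continuousOn
  have hs1 : s1 ∈ Icc s0 s1 := ⟨h01.le, le_rfl⟩
  have hs0 : s0 ∈ Icc s0 s1 := ⟨le_rfl, h01.le⟩
  -- increments of `D = b - f`
  have hinc : ∀ s ∈ Icc s0 s1, ∀ s' ∈ Icc s0 s1, s ≤ s' →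
      -(σ * (s' - s)) + ∫ τ in s..s', g a α ((f τ y - f τ (2 * τ - y)) / 2)
        ≤ (b s' - f s' y) - (b s - f s y) := by
    intro s hs s' hs' hss
    rw [f_ftc hα hf (h0.trans hs.1) hss y]
    have := hslope s hs s' hs' hss
    linarith
  -- lower bound for the integrand
  have hlow : ∀ τ ∈ Icc s0 s1, b τ - f τ y ≤ Dst →
      -G ≤ g a α ((f τ y - f τ (2 * τ - y)) / 2) := by
    intro τ hτ hD
    have h1 : f τ (2 * τ - y) ≤ b τ := (le_abs_self _).trans (hfb τ hτ _)
    have h2 : -(Dst / 2) ≤ (f τ y - f τ (2 * τ - y)) / 2 := by linarith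
    have h3 := hmono h2
    rw [g_neg] at h3
    exact h3
  -- Claim 1
  have claim1 : ∀ s ∈ Icc s0 s1, b s - f s y < Dst := by
    by_contra hcon
    push Not at hcon
    obtain ⟨s', hs', hDs'⟩ := hcon
    have hScomp : IsCompact (Icc s0 s1 ∩ (fun s => b s - f s y) ⁻¹' Ici Dst) := by
      apply isCompact_Icc.of_isClosed_subset _ inter_subset_left
      exact hDc.preimage_isClosed_of_isClosed isClosed_Icc isClosed_Ici
    obtain ⟨s2, hs2, hmax⟩ := hScomp.exists_isGreatest ⟨s', hs', hDs'⟩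
    have hs2D : Dst ≤ b s2 - f s2 y := hs2.2
    have hs2lt : s2 < s1 := by
      rcases hs2.1.2.lt_or_eq with h | h
      · exact h
      · exfalso
        rw [h, hb1, hfb1] at hs2D
        linarith
    have h1 := hinc s2 hs2.1 s1 hs1 hs2lt.le
    have h2 : ∫ _τ in s2..s1, (-G) ≤ ∫ τ in s2..s1, g a α ((f τ y - f τ (2 * τ - y)) / 2) := by
      apply intervalIntegral.integral_mono_on_of_le_Ioo hs2lt.le
      · exact continuous_const.intervalIntegrable _ _
      · apply Continuous.intervalIntegrable; fun_prop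
      · intro τ hτ
        have hτI : τ ∈ Icc s0 s1 := ⟨hs2.1.1.trans hτ.1.le, hτ.2.le⟩
        apply hlow τ hτI
        by_contra hlt
        push Not at hlt
        have : τ ≤ s2 := hmax ⟨hτI, hlt.le⟩
        linarith [hτ.1]
    rw [intervalIntegral.integral_const, smul_eq_mul] at h2
    rw [hb1, hfb1] at h1
    have h3 : (s1 - s2) * (σ + G) ≤ (s1 - s0) * (σ + G) :=
      mul_le_mul_of_nonneg_right (by linarith [hs2.1.1]) (by linarith)
    nlinarith
  -- Claim 2
  have h2B : 0 < 1 / 2 + B := by linarith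
  set κ : ℝ := g a α (lam / 8) / ((1 / 2 + B) * lam) with hκ
  have hgl : 0 ≤ g a α (lam / 8) := g_nonneg ha (by linarith)
  have hκ0 : 0 ≤ κ := by positivity
  have claim2 : ∀ τ ∈ Icc s0 s1, κ * (lam / 2 - f τ (2 * τ - y)) - G
      ≤ g a α ((f τ y - f τ (2 * τ - y)) / 2) := by
    intro τ hτ
    have hD := claim1 τ hτ
    have hbl := hblo τ hτ
    rcases le_or_gt (f τ (2 * τ - y)) (lam / 2) with hψ | hψ
    · have h1 : lam / 8 ≤ (f τ y - f τ (2 * τ - y)) / 2 := by linarith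
      have h2 := hmono h1
      have h3 : lam / 2 - f τ (2 * τ - y) ≤ (1 / 2 + B) * lam := by
        have := (abs_le.1 (hfb τ hτ (2 * τ - y))).1
        have := hbB τ hτ
        linarith
      have h4 : κ * (lam / 2 - f τ (2 * τ - y)) ≤ g a α (lam / 8) := by
        calc κ * (lam / 2 - f τ (2 * τ - y)) ≤ κ * ((1 / 2 + B) * lam) :=
              mul_le_mul_of_nonneg_left h3 hκ0
          _ = g a α (lam / 8) := by rw [hκ]; field_simp
      linarith
    · have h1 := hlow τ hτ hD.le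
      have h2 : κ * (lam / 2 - f τ (2 * τ - y)) ≤ 0 :=
        mul_nonpos_of_nonneg_of_nonpos hκ0 (by linarith)
      linarith
  have h3 := hinc s0 hs0 s1 hs1 h01.le
  have cψ : Continuous fun τ => f τ (2 * τ - y) := by fun_prop
  have c1 : Continuous fun τ : ℝ => κ * (lam / 2) - G := continuous_const
  have c2 : Continuous fun τ => κ * f τ (2 * τ - y) := by fun_prop
  have h4 : ∫ τ in s0..s1, (κ * (lam / 2 - f τ (2 * τ - y)) - G)
      ≤ ∫ τ in s0..s1, g a α ((f τ y - f τ (2 * τ - y)) / 2) := by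
    apply intervalIntegral.integral_mono_on h01.le
    · apply Continuous.intervalIntegrable; fun_prop
    · apply Continuous.intervalIntegrable; fun_prop
    · exact claim2
  have h5 : ∫ τ in s0..s1, (κ * (lam / 2 - f τ (2 * τ - y)) - G)
      = (s1 - s0) * (κ * (lam / 2) - G) - κ * (v s1 y - v s0 y) := by
    have e : ∀ τ, κ * (lam / 2 - f τ (2 * τ - y)) - G
        = (κ * (lam / 2) - G) - κ * f τ (2 * τ - y) := fun τ => by ring
    simp_rw [e]
    rw [intervalIntegral.integral_sub (c1.intervalIntegrable _ _) (c2.intervalIntegrable _ _),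
      intervalIntegral.integral_const, smul_eq_mul, intervalIntegral.integral_const_mul,
      hf.prim y s0 s1 h0 h01.le]
  rw [h5] at h4
  have hD0 : 0 ≤ b s0 - f s0 y := by
    have := (le_abs_self _).trans (hfb s0 hs0 y)
    linarith
  rw [hb1, hfb1] at h3
  have h6 : κ * (v s1 y - v s0 y) ≤ κ * ((s1 - s0) * lam / 8) :=
    mul_le_mul_of_nonneg_left hJ hκ0
  have h7 : (s1 - s0) * (κ * (3 / 8 * lam)) ≤ (s1 - s0) * (σ + G) := by nlinarith
  have h8 : κ * (3 / 8 * lam) ≤ σ + G := by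
    have : 0 < s1 - s0 := by linarith
    exact le_of_mul_le_mul_left h7 this
  have h9 : κ * (3 / 8 * lam) = (3 / 8) * g a α (lam / 8) / (1 / 2 + B) := by
    rw [hκ]; field_simp
  linarith

end

end Pool.Agent.MP_4c4330_an
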