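import Pool.Agent.MP_4c4330_an.Dense

open MeasureTheory Set Filter Topology
open scoped ENNReal ContDiff

set_option linter.unusedSectionVars false

namespace Pool.Agent.MP_4c4330_an

noncomputable section
variable {E : Type*} [NormedAddCommGroup E] [InnerProductSpace ℝ E] [FiniteDimensional ℝ E]
  [MeasurableSpace E] [BorelSpace E] {Ω : Set E} {a α : ℝ} {φ ψ : E → ℝ}

instance : CompleteSpace (GradSpace Ω) :=
  (Submodule.isClosed_topologicalClosure _).completeSpace_coe

/-- The resolvents `(1 + h A)⁻¹`. -/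
lemma exists_J (ha : 0 < a) (hα : 0 < α) : ∃ J : ℝ → EnergySpace Ω → EnergySpace Ω,
    ∀ h > 0, ∀ x, EulerStep (WaveOp Ω a α) h x (J h x) := by
  have h1 : ∀ h : ℝ, ∀ x : EnergySpace Ω, ∃ x', 0 < h → EulerStep (WaveOp Ω a α) h x x' := by
    intro h x
    rcases lt_or_ge 0 h with hh | hh
    · obtain ⟨x', hx'⟩ := exists_step (Ω := Ω) ha hα hh x
      exact ⟨x', fun _ => hx'⟩
    · exact ⟨x, fun h0 => absurd h0 (not_lt.2 hh)⟩
  choose J hJ using h1
  exact ⟨J, fun h hh x => hJ h x hh⟩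

/-- Existence of trajectories for all initial data. -/
theorem traj_exists (hΩ : IsOpen Ω) (ha : 0 < a) (hα : 0 < α) (x : EnergySpace Ω) :
    ∃ U : ℝ → EnergySpace Ω, U 0 = x ∧ IsTrajectory Ω a α U := by
  obtain ⟨J, hJ⟩ := exists_J (Ω := Ω) ha hα
  have h1 : ∀ t : ℝ, ∃ z, 0 < t → Tendsto (fun n : ℕ => (J (t / n))^[n] x) atTop (𝓝 z) := by
    intro t
    rcases lt_or_ge 0 t with ht | ht
    · obtain ⟨z, hz⟩ := euler_limit (mono_waveOp ha hα) hJ (dense_domain hΩ ha hα x) ht
      exact ⟨z, fun _ => hz⟩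
    · exact ⟨x, fun h0 => absurd h0 (not_lt.2 ht)⟩
  choose V hV using h1
  refine ⟨fun t => if t = 0 then x else V t, by simp, ?_⟩
  intro t ht
  refine ⟨fun n k => (J (t / n))^[k] x, fun n => by simp, ?_, ?_⟩
  · intro n hn k
    have hn' : (0:ℝ) < n := by exact_mod_cast hn
    simp only [Function.iterate_succ_apply']
    exact hJ _ (by positivity) _
  · simp only [ht.ne', if_false]
    exact hV t ht

/-- Two Euler schemes with the same step stay close. -/
lemma scheme_le (ha : 0 < a) (hα : 0 < α) {h : ℝ} (hh : 0 < h) {y z : ℕ → EnergySpace Ω}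
    (hy : ∀ k, EulerStep (WaveOp Ω a α) h (y k) (y (k + 1)))
    (hz : ∀ k, EulerStep (WaveOp Ω a α) h (z k) (z (k + 1))) (k : ℕ) :
    ‖y k - z k‖ ≤ ‖y 0 - z 0‖ := by
  induction k with
  | zero => exact le_rfl
  | succ k ih => exact (step_le (mono_waveOp ha hα) hh (hy k) (hz k)).trans ih

/-- Trajectories form a contraction semigroup; in particular they are unique. -/
theorem traj_le (ha : 0 < a) (hα : 0 < α) {U V : ℝ → EnergySpace Ω}
    (hU : IsTrajectory Ω a α U) (hV : IsTrajectory Ω a α V) {t : ℝ} (ht : 0 ≤ t) :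
    ‖U t - V t‖ ≤ ‖U 0 - V 0‖ := by
  rcases ht.eq_or_lt with h0 | h0
  · rw [← h0]
  obtain ⟨y, y0, ys, yl⟩ := hU t h0
  obtain ⟨z, z0, zs, zl⟩ := hV t h0
  apply le_of_tendsto (yl.sub zl).norm
  filter_upwards [eventually_gt_atTop 0] with n hn
  have hn' : (0:ℝ) < n := by exact_mod_cast hn
  have := scheme_le ha hα (h := t / n) (by positivity) (ys n hn) (zs n hn) n
  rwa [y0, z0] at this

lemma traj_unique (ha : 0 < a) (hα : 0 < α) {U V : ℝ → EnergySpace Ω}
    (hU : IsTrajectory Ω a α U) (hV : IsTrajectory Ω a α V) (h0 : U 0 = V 0) {t : ℝ}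
    (ht : 0 ≤ t) : U t = V t := by
  have := traj_le ha hα hU hV ht
  rw [h0, sub_self, norm_zero] at this
  exact sub_eq_zero.1 (norm_le_zero_iff.1 this)

/-- Energy estimate for one step. -/
lemma step_energy (hα : 0 < α) {h : ℝ} (hh : 0 < h) {x y : EnergySpace Ω}
    (hs : EulerStep (WaveOp Ω a α) h x y) :
    Integrable (fun z => |y.snd z| ^ (α + 2)) (volume.restrict Ω) ∧
    2 * (h * a * ∫ z in Ω, |y.snd z| ^ (α + 2)) + ‖y‖ ^ 2 ≤ ‖x‖ ^ 2 := by
  unfold EulerStep at hs
  rw [waveOp_iff] at hs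
  obtain ⟨h1, h2, h3⟩ := hs
  refine ⟨h2, ?_⟩
  have h4 := h3 _ _ h1 h2
  have h5 : ∫ z in Ω, g a α (y.snd z) * y.snd z = a * ∫ z in Ω, |y.snd z| ^ (α + 2) := by
    rw [← MeasureTheory.integral_const_mul]
    congr 1
    funext z
    rw [mul_comm, mul_g_eq hα]
  rw [h5] at h4
  have e1 : inner ℝ (h⁻¹ • (x - y)).snd y.snd = h⁻¹ * inner ℝ (x.snd - y.snd) y.snd := by
    rw [WithLp.smul_snd, WithLp.sub_snd, real_inner_smul_left]
  have e2 : inner ℝ (y.fst : Lp E 2 (volume.restrict Ω))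
      (-((h⁻¹ • (x - y)).fst : Lp E 2 (volume.restrict Ω)))
      = -(h⁻¹ * inner ℝ (x.fst - y.fst) y.fst) := by
    rw [inner_neg_right, WithLp.smul_fst, WithLp.sub_fst, real_inner_comm]
    congr 1
    rw [Submodule.coe_smul, real_inner_smul_left]
    rfl
  rw [e1, e2] at h4
  have h6 : inner ℝ (x - y) y = h * (a * ∫ z in Ω, |y.snd z| ^ (α + 2)) := by
    have e3 : inner ℝ (x - y) y = inner ℝ (x.fst - y.fst) y.fst + inner ℝ (x.snd - y.snd) y.snd := by
      rw [WithLp.prod_inner_apply]; rfl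
    rw [e3]
    field_simp at h4
    linarith
  have h7 : ‖x‖ ^ 2 = ‖x - y‖ ^ 2 + 2 * inner ℝ (x - y) y + ‖y‖ ^ 2 := by
    rw [← norm_add_sq_real, sub_add_cancel]
  have h8 := sq_nonneg ‖x - y‖
  rw [h7, h6]
  linarith

/-- Young's inequality with a parameter. -/
lemma young_l (hα : 0 < α) {l : ℝ} (hl : 0 < l) (x y : ℝ) :
    |x * y| ≤ l ^ (α + 2) * |x| ^ (α + 2) + (|y| / l) ^ ((α + 2) / (α + 1)) := by
  have hp : Real.HolderConjugate (α + 2) ((α + 2) / (α + 1)) := by
    rw [Real.holderConjugate_iff]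
    refine ⟨by linarith, ?_⟩
    field_simp
    ring
  have h1 := Real.young_inequality_of_nonneg (a := l * |x|) (b := |y| / l) (by positivity)
    (by positivity) hp
  have h2 : l * |x| * (|y| / l) = |x * y| := by
    rw [abs_mul]; field_simp
  rw [h2, Real.mul_rpow hl.le (abs_nonneg x)] at h1
  refine h1.trans (add_le_add ?_ ?_)
  · exact div_le_self (by positivity) (by linarith)
  · apply div_le_self (by positivity)
    rw [le_div_iff₀ (by linarith)]
    linarith

/-- The displacement moves slowly, as seen by test functions. -/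
lemma scheme_move (ha : 0 < a) (hα : 0 < α) (hφ : IsTest Ω φ) {h : ℝ} (hh : 0 < h)
    {y : ℕ → EnergySpace Ω} (hy : ∀ k, EulerStep (WaveOp Ω a α) h (y k) (y (k + 1)))
    {l : ℝ} (hl : 0 < l) (n : ℕ) :
    |inner ℝ (((y n).fst : Lp E 2 (volume.restrict Ω)) - (y 0).fst)
      ((hφ.grad_memLp 2).toLp (gradient φ))| + l ^ (α + 2) * (‖y n‖ ^ 2 / (2 * a))
    ≤ l ^ (α + 2) * (‖y 0‖ ^ 2 / (2 * a))
      + n * h * ∫ x in Ω, (|lap φ x| / l) ^ ((α + 2) / (α + 1)) := by
  induction n with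
  | zero => simp
  | succ n ih =>
    obtain ⟨h2, h3⟩ := step_energy hα hh (hy n)
    have hs := hy n
    unfold EulerStep at hs
    rw [waveOp_iff] at hs
    have h4 := green hφ hs.1
    set G := (hφ.grad_memLp 2).toLp (gradient φ) with hG
    set x := y n with hx
    set z := y (n + 1) with hz
    have e1 : -((h⁻¹ • (x - z)).fst : Lp E 2 (volume.restrict Ω))
        = h⁻¹ • ((z.fst : Lp E 2 (volume.restrict Ω)) - x.fst) := by
      show -(h⁻¹ • ((x.fst : Lp E 2 (volume.restrict Ω)) - z.fst))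
        = h⁻¹ • ((z.fst : Lp E 2 (volume.restrict Ω)) - x.fst)
      module
    rw [e1, real_inner_smul_left] at h4
    have h5 : inner ℝ ((z.fst : Lp E 2 (volume.restrict Ω)) - x.fst) G
        = -(h * inner ℝ z.snd ((hφ.lap_memLp 2).toLp (lap φ))) := by
      field_simp at h4
      linarith
    -- bound of the pairing
    have h6 : |inner ℝ z.snd ((hφ.lap_memLp 2).toLp (lap φ))|
        ≤ l ^ (α + 2) * (∫ x in Ω, |z.snd x| ^ (α + 2))
          + ∫ x in Ω, (|lap φ x| / l) ^ ((α + 2) / (α + 1)) := by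
      rw [inner_Lp_real, ← MeasureTheory.integral_const_mul]
      have i1 : Integrable (fun x => (|lap φ x| / l) ^ ((α + 2) / (α + 1))) (volume.restrict Ω) := by
        apply Integrable.integrableOn
        apply Continuous.integrable_of_hasCompactSupport
        · have h7 : Continuous fun x => |lap φ x| / l := by
            have := hφ.lap_cont
            fun_prop
          exact h7.rpow_const (fun _ => Or.inr (by positivity))
        · exact hφ.lap_supp.comp_left (g := fun s => (|s| / l) ^ ((α + 2) / (α + 1)))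
            (by simp only [abs_zero, zero_div]; exact Real.zero_rpow (by positivity))
      rw [← integral_add (h2.const_mul _) i1, ← Real.norm_eq_abs]
      apply norm_integral_le_of_norm_le ((h2.const_mul _).add i1)
      filter_upwards [(hφ.lap_memLp 2).coeFn_toLp] with x hx
      rw [hx, Real.norm_eq_abs]
      exact young_l hα hl _ _
    have h7 : |inner ℝ ((z.fst : Lp E 2 (volume.restrict Ω)) - x.fst) G|
        ≤ l ^ (α + 2) * ((‖x‖ ^ 2 - ‖z‖ ^ 2) / (2 * a))
          + h * ∫ x in Ω, (|lap φ x| / l) ^ ((α + 2) / (α + 1)) := by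
      rw [h5, abs_neg, abs_mul, abs_of_pos hh]
      have h8 := mul_le_mul_of_nonneg_left h6 hh.le
      refine h8.trans ?_
      rw [mul_add]
      apply add_le_add _ le_rfl
      have h9 : h * (∫ x in Ω, |z.snd x| ^ (α + 2)) ≤ (‖x‖ ^ 2 - ‖z‖ ^ 2) / (2 * a) := by
        rw [le_div_iff₀ (by positivity)]
        linarith
      calc h * (l ^ (α + 2) * ∫ x in Ω, |z.snd x| ^ (α + 2))
          = l ^ (α + 2) * (h * ∫ x in Ω, |z.snd x| ^ (α + 2)) := by ring
        _ ≤ _ := mul_le_mul_of_nonneg_left h9 (by positivity)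
    have h10 : inner ℝ ((z.fst : Lp E 2 (volume.restrict Ω)) - (y 0).fst) G
        = inner ℝ ((z.fst : Lp E 2 (volume.restrict Ω)) - x.fst) G
          + inner ℝ ((x.fst : Lp E 2 (volume.restrict Ω)) - (y 0).fst) G := by
      rw [← inner_add_left, sub_add_sub_cancel]
    rw [h10]
    have h11 := abs_add_le (inner ℝ ((z.fst : Lp E 2 (volume.restrict Ω)) - x.fst) G)
      (inner ℝ ((x.fst : Lp E 2 (volume.restrict Ω)) - (y 0).fst) G)
    push_cast
    have h12 : l ^ (α + 2) * ((‖x‖ ^ 2 - ‖z‖ ^ 2) / (2 * a)) + l ^ (α + 2) * (‖z‖ ^ 2 / (2 * a))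
        = l ^ (α + 2) * (‖x‖ ^ 2 / (2 * a)) := by ring
    linarith

lemma traj_move (ha : 0 < a) (hα : 0 < α) (hφ : IsTest Ω φ) {U : ℝ → EnergySpace Ω}
    (hU : IsTrajectory Ω a α U) {t : ℝ} (ht : 0 < t) {l : ℝ} (hl : 0 < l) :
    |inner ℝ (((U t).fst : Lp E 2 (volume.restrict Ω)) - (U 0).fst)
      ((hφ.grad_memLp 2).toLp (gradient φ))|
    ≤ l ^ (α + 2) * (‖U 0‖ ^ 2 / (2 * a))
      + t * ∫ x in Ω, (|lap φ x| / l) ^ ((α + 2) / (α + 1)) := by
  obtain ⟨y, y0, ys, yl⟩ := hU t ht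
  have hc : Tendsto (fun n => |inner ℝ (((y n n).fst : Lp E 2 (volume.restrict Ω)) - (U 0).fst)
      ((hφ.grad_memLp 2).toLp (gradient φ))|) atTop
      (𝓝 |inner ℝ (((U t).fst : Lp E 2 (volume.restrict Ω)) - (U 0).fst)
      ((hφ.grad_memLp 2).toLp (gradient φ))|) := by
    have h1 : Continuous fun x : EnergySpace Ω =>
        |inner ℝ ((x.fst : Lp E 2 (volume.restrict Ω)) - (U 0).fst)
        ((hφ.grad_memLp 2).toLp (gradient φ))| := by
      have h2 : Continuous fun x : EnergySpace Ω => (x.fst : Lp E 2 (volume.restrict Ω)) :=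
        continuous_subtype_val.comp (WithLp.continuous_fst 2 _ _)
      exact ((h2.sub continuous_const).inner continuous_const).abs
    exact (h1.tendsto _).comp yl
  apply le_of_tendsto hc
  filter_upwards [eventually_gt_atTop 0] with n hn
  have hn' : (0:ℝ) < n := by exact_mod_cast hn
  have h1 := scheme_move ha hα hφ (h := t / n) (by positivity) (ys n hn) hl n
  rw [y0] at h1
  have h2 : (n:ℝ) * (t / n) = t := by field_simp
  rw [h2] at h1
  have h3 : 0 ≤ l ^ (α + 2) * (‖y n n‖ ^ 2 / (2 * a)) := by positivity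
  linarith

end

end Pool.Agent.MP_4c4330_an
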